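import Mathlib

/-!
A checker for certificates of linear algebra over the integers. Linear forms are sparse lists; an
identity between linear forms is checked by evaluating at a large integer.
-/

set_option autoImplicit false
set_option maxHeartbeats 1000000

namespace Pool.Agent.H282R2

open Polynomial

abbrev Row : Type := List (ℕ × ℤ)

def evS (x : ℕ → ℝ) (r : Row) : ℝ := (r.map fun p => (p.2 : ℝ) * x p.1).sum

noncomputable def toPoly (r : Row) : ℤ[X] := (r.map fun p => monomial p.1 p.2).sum

def enc (B : ℤ) (r : Row) : ℤ := (r.map fun p => p.2 * B ^ p.1).sum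

def l1 (r : Row) : ℤ := (r.map fun p => |p.2|).sum

theorem eval_toPoly (B : ℤ) (r : Row) : (toPoly r).eval B = enc B r := by
  induction r with
  | nil => simp [toPoly, enc]
  | cons p r ih =>
    simp only [toPoly, enc, List.map_cons, List.sum_cons, eval_add, eval_monomial] at ih ⊢
    rw [ih]

theorem abs_coeff_toPoly (r : Row) (k : ℕ) : |(toPoly r).coeff k| ≤ l1 r := by
  induction r with
  | nil => simp [toPoly, l1]
  | cons p r ih =>
    simp only [toPoly, l1, List.map_cons, List.sum_cons, coeff_add, coeff_monomial] at ih ⊢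
    refine (abs_add_le _ _).trans (add_le_add ?_ ih)
    split_ifs
    · exact le_rfl
    · simp

/-- the functional `∑ a_k X^k ↦ ∑ a_k x_k` -/
noncomputable def lin (x : ℕ → ℝ) (p : ℤ[X]) : ℝ := p.sum fun k a => (a : ℝ) * x k

theorem lin_add (x : ℕ → ℝ) (p q : ℤ[X]) : lin x (p + q) = lin x p + lin x q := by
  unfold lin
  apply Polynomial.sum_add_index
  · intro i; simp
  · intro a b₁ b₂; push_cast; ring

theorem lin_monomial (x : ℕ → ℝ) (k : ℕ) (a : ℤ) : lin x (monomial k a) = a * x k := by
  unfold lin
  rw [Polynomial.sum_monomial_index]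
  simp

theorem lin_zero (x : ℕ → ℝ) : lin x 0 = 0 := by simp [lin]

theorem lin_toPoly (x : ℕ → ℝ) (r : Row) : lin x (toPoly r) = evS x r := by
  induction r with
  | nil => simp [toPoly, evS, lin_zero]
  | cons p r ih =>
    simp only [toPoly, evS, List.map_cons, List.sum_cons] at ih ⊢
    rw [lin_add, lin_monomial, ih]

theorem eq_zero_of_eval (B M : ℤ) (hM : 0 ≤ M) (hB : M < B) : ∀ (N : ℕ) (p : ℤ[X]),
    p.natDegree < N → (∀ k, |p.coeff k| ≤ M) → p.eval B = 0 → p = 0 := by
  intro N
  induction N with
  | zero => intro p hp; exact absurd hp (Nat.not_lt_zero _)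
  | succ N ih =>
    intro p hp hc he
    have h1 := divX_mul_X_add p
    have h2 : (divX p).eval B * B + p.coeff 0 = 0 := by
      have h3 := congrArg (eval B) h1
      rw [eval_add, eval_mul, eval_X, eval_C, he] at h3
      exact h3
    have h3 : p.coeff 0 = 0 := by
      have h4 : B ∣ p.coeff 0 := ⟨-(divX p).eval B, by linarith⟩
      exact Int.eq_zero_of_abs_lt_dvd h4 (lt_of_le_of_lt (hc 0) hB)
    have hB0 : B ≠ 0 := by omega
    have h4 : (divX p).eval B = 0 := by
      rw [h3, add_zero] at h2
      exact (mul_eq_zero.1 h2).resolve_right hB0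
    rcases Nat.eq_zero_or_pos p.natDegree with h5 | h5
    · rw [eq_C_of_natDegree_eq_zero h5, h3, C_0]
    · have h6 : divX p = 0 := by
        apply ih
        · rw [natDegree_divX_eq_natDegree_tsub_one]; omega
        · intro k
          rw [coeff_divX]
          exact hc _
        · exact h4
      rw [← h1, h6, h3]; simp

/-- the base of the evaluation -/
def base : ℤ := 18446744073709551616

def isZ (r : Row) : Bool := (enc base r == 0) && decide (l1 r < base)

theorem l1_nonneg (r : Row) : 0 ≤ l1 r := by
  unfold l1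
  apply List.sum_nonneg
  intro a ha
  obtain ⟨p, _, rfl⟩ := List.mem_map.1 ha
  exact abs_nonneg _

theorem isZ_sound (r : Row) (h : isZ r = true) (x : ℕ → ℝ) : evS x r = 0 := by
  unfold isZ at h
  rw [Bool.and_eq_true, beq_iff_eq, decide_eq_true_eq] at h
  have h1 : toPoly r = 0 := by
    refine eq_zero_of_eval base (l1 r) (l1_nonneg r) h.2 ((toPoly r).natDegree + 1) _
      (Nat.lt_succ_self _) (abs_coeff_toPoly r) ?_
    rw [eval_toPoly]; exact h.1
  rw [← lin_toPoly, h1, lin_zero]

def scaleRow (c : ℤ) (r : Row) : Row := r.map fun p => (p.1, c * p.2)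

theorem evS_scale (x : ℕ → ℝ) (c : ℤ) (r : Row) : evS x (scaleRow c r) = c * evS x r := by
  induction r with
  | nil => simp [scaleRow, evS]
  | cons p r ih =>
    simp only [scaleRow, evS, List.map_cons, List.sum_cons] at ih ⊢
    rw [ih]; push_cast; ring

theorem evS_append (x : ℕ → ℝ) (r s : Row) : evS x (r ++ s) = evS x r + evS x s := by
  simp [evS]

theorem evS_cons (x : ℕ → ℝ) (p : ℕ × ℤ) (s : Row) : evS x (p :: s) = p.2 * x p.1 + evS x s := by
  simp [evS]

theorem evS_nil (x : ℕ → ℝ) : evS x [] = 0 := by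
  simp [evS]

/-- integer combination of rows -/
def comb (rows : List Row) (cs : List (ℕ × ℤ)) : Row :=
  cs.flatMap fun p => scaleRow p.2 (rows.getD p.1 [])

theorem evS_comb (x : ℕ → ℝ) (rows : List Row) (cs : List (ℕ × ℤ))
    (h : ∀ r ∈ rows, evS x r = 0) : evS x (comb rows cs) = 0 := by
  induction cs with
  | nil => simp [comb, evS]
  | cons p cs ih =>
    simp only [comb, List.flatMap_cons] at ih ⊢
    rw [evS_append, ih, evS_scale, add_zero]
    have : evS x (rows.getD p.1 []) = 0 := by
      by_cases hp : p.1 < rows.length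
      · rw [List.getD_eq_getElem _ _ hp]
        exact h _ (List.getElem_mem hp)
      · rw [List.getD_eq_default _ _ (by omega)]
        exact evS_nil x
    rw [this, mul_zero]

/-- a step of the elimination: variable, denominator, row coefficients, coefficients of variables
that are already known to vanish -/
abbrev Step : Type := ℕ × ℤ × List (ℕ × ℤ) × Row

def checkStep (rows : List Row) (known : List ℕ) (s : Step) : Bool :=
  (s.2.1 != 0) && (s.2.2.2.all fun p => known.contains p.1) &&
    isZ ((s.1, -s.2.1) :: (comb rows s.2.2.1 ++ s.2.2.2))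

def checkSteps (rows : List Row) : List ℕ → List Step → Bool
  | _, [] => true
  | known, s :: ss => checkStep rows known s && checkSteps rows (s.1 :: known) ss

theorem evS_known (x : ℕ → ℝ) (known : List ℕ) (hk : ∀ v ∈ known, x v = 0) (r : Row)
    (hr : (r.all fun p => known.contains p.1) = true) : evS x r = 0 := by
  induction r with
  | nil => exact evS_nil x
  | cons p r ih =>
    rw [List.all_cons, Bool.and_eq_true] at hr
    rw [evS_cons, ih hr.2, hk p.1 (by simpa using hr.1)]; simp

theorem checkStep_sound (x : ℕ → ℝ) (rows : List Row) (hrows : ∀ r ∈ rows, evS x r = 0)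
    (known : List ℕ) (hk : ∀ v ∈ known, x v = 0) (s : Step) (h : checkStep rows known s = true) :
    x s.1 = 0 := by
  unfold checkStep at h
  rw [Bool.and_eq_true, Bool.and_eq_true, bne_iff_ne] at h
  obtain ⟨⟨h1, h2⟩, h3⟩ := h
  have h4 := isZ_sound _ h3 x
  rw [evS_cons, evS_append, evS_comb x rows _ hrows, evS_known x known hk _ h2] at h4
  have h5 : (s.2.1 : ℝ) * x s.1 = 0 := by
    push_cast at h4; linarith
  exact (mul_eq_zero.1 h5).resolve_left (by exact_mod_cast h1)

theorem checkSteps_sound (x : ℕ → ℝ) (rows : List Row) (hrows : ∀ r ∈ rows, evS x r = 0)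
    (ss : List Step) : ∀ known : List ℕ, (∀ v ∈ known, x v = 0) →
    checkSteps rows known ss = true → ∀ s ∈ ss, x s.1 = 0 := by
  induction ss with
  | nil => intro known _ _ s hs; exact absurd hs (List.not_mem_nil)
  | cons a ss ih =>
    intro known hk h s hs
    rw [checkSteps, Bool.and_eq_true] at h
    have ha := checkStep_sound x rows hrows known hk a h.1
    rcases List.mem_cons.1 hs with rfl | hs
    · exact ha
    · refine ih (a.1 :: known) ?_ h.2 s hs
      intro v hv
      rcases List.mem_cons.1 hv with rfl | hv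
      · exact ha
      · exact hk v hv

/-- stress check: `∑ ω_k g_k + ∑ c_r row_r ≡ 0` with all `ω_k > 0` -/
def checkStress (rows ineqs : List Row) (ω : List ℤ) (cs : List (ℕ × ℤ)) : Bool :=
  (ω.length == ineqs.length) && (ω.all fun w => decide (0 < w)) &&
    isZ ((List.zipWith scaleRow ω ineqs).flatten ++ comb rows cs)

theorem zip_aux (x : ℕ → ℝ) : ∀ (ω : List ℤ) (ineqs : List Row), ω.length = ineqs.length →
    (ω.all fun w => decide (0 < w)) = true → (∀ g ∈ ineqs, 0 ≤ evS x g) →
    0 ≤ evS x (List.zipWith scaleRow ω ineqs).flatten ∧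
    (evS x (List.zipWith scaleRow ω ineqs).flatten = 0 → ∀ g ∈ ineqs, evS x g = 0) := by
  intro ω
  induction ω with
  | nil =>
    intro ineqs h1 _ _
    have : ineqs = [] := List.eq_nil_of_length_eq_zero h1.symm
    subst this
    simp [evS_nil]
  | cons w ω ih =>
    intro ineqs h1 h2 h3
    cases ineqs with
    | nil => simp at h1
    | cons g gs =>
      rw [List.all_cons, Bool.and_eq_true, decide_eq_true_eq] at h2
      have hw : (0 : ℝ) < w := by exact_mod_cast h2.1
      have hg : 0 ≤ evS x g := h3 g (by simp)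
      obtain ⟨i1, i2⟩ := ih gs (by simpa using h1) h2.2 (fun g' hg' => h3 g' (by simp [hg']))
      rw [List.zipWith_cons_cons, List.flatten_cons, evS_append, evS_scale]
      have hwg : 0 ≤ (w : ℝ) * evS x g := mul_nonneg hw.le hg
      refine ⟨by linarith, fun h => ?_⟩
      have e1 : (w : ℝ) * evS x g = 0 := by linarith
      have e2 : evS x (List.zipWith scaleRow ω gs).flatten = 0 := by linarith
      intro g' hg'
      rcases List.mem_cons.1 hg' with rfl | hg'
      · exact (mul_eq_zero.1 e1).resolve_left hw.ne'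
      · exact i2 e2 g' hg'

theorem checkStress_sound (rows ineqs : List Row) (ω : List ℤ) (cs : List (ℕ × ℤ))
    (h : checkStress rows ineqs ω cs = true) (x : ℕ → ℝ) (hrows : ∀ r ∈ rows, evS x r = 0)
    (hg : ∀ g ∈ ineqs, 0 ≤ evS x g) : ∀ g ∈ ineqs, evS x g = 0 := by
  unfold checkStress at h
  rw [Bool.and_eq_true, Bool.and_eq_true, beq_iff_eq] at h
  obtain ⟨⟨h1, h2⟩, h3⟩ := h
  have h4 := isZ_sound _ h3 x
  rw [evS_append, evS_comb x rows cs hrows, add_zero] at h4
  exact (zip_aux x ω ineqs h1 h2 hg).2 h4

end Pool.Agent.H282R2
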