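import Pool.Agent.H282R2.Tetra

/-!
The data of a jammed chain with 44 links running along the edges of a regular tetrahedron.
-/

set_option autoImplicit false
set_option maxHeartbeats 1000000
set_option maxRecDepth 100000

namespace Pool.Agent.H282R2
namespace D44

def cl : List ℕ := [
    2, 0, 3, 2, 0, 3, 2, 0, 3, 1, 2, 0, 1, 3, 2, 0, 3, 2, 1, 0, 2, 1, 0, 2, 3, 1, 2, 0, 3, 2,
    0, 3, 2, 0, 1, 2, 3, 1, 2, 0, 1, 3, 2, 1, 3]

def X : List I3 := [
    (-1, 2, -1), (1, 2, 1), (2, -1, -1), (-1, 2, -1), (2, 0, 2), (1, -1, -2), (-1, 2, -1),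
    (2, 1, 1), (2, -2, 0), (-2, -1, 1), (-2, 2, 0), (1, 1, 2), (0, -2, 2), (1, -2, -1),
    (-1, 1, -2), (1, 2, 1), (2, -1, -1), (-2, 1, -1), (-1, -1, 2), (1, 1, 2), (-2, 2, 0),
    (-2, 0, 2), (1, 1, 2), (-1, 1, -2), (1, -2, -1), (-1, -2, 1), (-2, 1, -1), (2, 1, 1),
    (2, -1, -1), (0, 2, -2), (2, 1, 1), (2, -1, -1), (-1, 2, -1), (1, 1, 2), (-1, -1, 2),
    (-1, 1, -2), (1, -1, -2), (-2, -1, 1), (-1, 2, -1), (2, 0, 2), (-1, -1, 2), (1, -2, -1),
    (-2, 1, -1), (-1, -2, 1), (1, -2, -1)]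

def Y : List I3 := [
    (-14, 10, -8), (10, 11, 9), (8, -12, -14), (-13, 14, -17), (12, 13, 7), (12, -13, -15),
    (-22, 13, -15), (8, 6, 14), (4, -7, -7), (-12, -13, 15), (-22, 23, -19), (19, 18, 17),
    (-9, -4, 5), (8, -8, 0), (-20, 16, -18), (5, 8, 3), (1, -3, -4), (-13, 19, -20),
    (-13, -13, 12), (3, 1, 2), (-2, 8, -10), (-3, -7, 6), (15, 9, 8), (-12, 18, -16),
    (12, -6, -10), (-16, -15, 15), (-25, 12, -13), (12, 17, 15), (15, -16, -13), (-8, 9, -9),
    (4, 5, 3), (16, -12, -16), (-21, 23, -22), (14, 13, 19), (-2, -2, 4), (-1, 2, -1),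
    (10, -8, -4), (-9, -7, 4), (-4, 7, -5), (8, 9, 13), (-5, -5, 8), (14, -20, -14),
    (-5, 8, -9), (-3, -6, 3), (10, -5, -13)]

def K : List Ct := [
    ⟨0, 1, 14, 13, 1, 1, 1, 1, 1⟩, ⟨0, 1, 26, 25, 3, 1, 1, -1, 1⟩,
    ⟨0, 1, 35, 36, 1, 1, 1, -1, -1⟩, ⟨0, 1, 42, 43, 3, 1, 1, 1, -1⟩,
    ⟨1, 0, 7, 8, 1, 1, 1, 1, -1⟩, ⟨1, 0, 11, 12, 3, 1, 1, 1, 1⟩,
    ⟨1, 0, 19, 18, 3, 1, 1, -1, -1⟩, ⟨1, 0, 22, 21, 3, 1, 1, -1, -1⟩,
    ⟨1, 0, 27, 28, 1, 1, 1, -1, 1⟩, ⟨1, 0, 30, 31, 1, 1, 1, 1, -1⟩,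
    ⟨2, 1, 5, 6, 1, 1, 1, -1, 1⟩, ⟨2, 3, 8, 9, 0, 1, 1, 1, -1⟩, ⟨2, 1, 24, 25, 2, 1, 1, 1, 1⟩,
    ⟨2, 1, 36, 35, 1, 1, 1, 1, -1⟩, ⟨2, 1, 44, 43, 2, 1, 1, -1, -1⟩,
    ⟨3, 4, 14, 13, 1, 1, 1, -1, -1⟩, ⟨3, 4, 17, 18, 3, 1, 1, -1, 1⟩,
    ⟨3, 2, 20, 21, 0, 1, 1, -1, -1⟩, ⟨3, 4, 42, 43, 3, 1, 1, 1, -1⟩,
    ⟨4, 5, 11, 10, 1, 1, 1, 1, 1⟩, ⟨4, 5, 19, 20, 1, 1, 1, -1, -1⟩,
    ⟨4, 5, 22, 23, 1, 1, 1, -1, -1⟩, ⟨4, 5, 33, 32, 1, 1, 1, -1, -1⟩,
    ⟨5, 6, 13, 12, 0, 1, 1, 1, -1⟩, ⟨5, 6, 16, 15, 1, 1, 1, -1, -1⟩,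
    ⟨5, 6, 31, 30, 1, 1, 1, 1, 1⟩, ⟨5, 6, 41, 40, 0, 1, 1, -1, 1⟩,
    ⟨5, 6, 44, 43, 0, 1, 1, 1, -1⟩, ⟨6, 7, 17, 18, 3, 1, 1, 1, -1⟩,
    ⟨6, 5, 20, 21, 0, 1, 1, -1, -1⟩, ⟨6, 7, 35, 36, 1, 1, 1, -1, -1⟩,
    ⟨6, 7, 42, 43, 3, 1, 1, 1, -1⟩, ⟨7, 8, 11, 12, 2, 1, 1, -1, 1⟩,
    ⟨7, 8, 22, 21, 2, 1, 1, 1, -1⟩, ⟨7, 8, 33, 34, 2, 1, 1, -1, 1⟩,
    ⟨7, 6, 39, 40, 3, 1, 1, 1, 1⟩, ⟨8, 7, 13, 14, 1, 1, 1, 1, -1⟩,
    ⟨8, 9, 16, 17, 0, 1, 1, -1, -1⟩, ⟨8, 7, 24, 23, 1, 1, 1, -1, 1⟩,
    ⟨8, 9, 28, 29, 0, 1, 1, 1, 1⟩, ⟨8, 9, 31, 32, 0, 1, 1, 1, 1⟩,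
    ⟨8, 7, 41, 42, 1, 1, 1, -1, 1⟩, ⟨9, 8, 21, 22, 2, 1, 1, -1, -1⟩,
    ⟨9, 10, 25, 24, 0, 1, 1, 1, 1⟩, ⟨9, 10, 34, 33, 3, 1, 1, 1, -1⟩,
    ⟨9, 10, 40, 39, 3, 1, 1, 1, -1⟩, ⟨9, 10, 43, 44, 0, 1, 1, -1, -1⟩,
    ⟨10, 11, 17, 16, 1, 1, 1, 1, 1⟩, ⟨10, 9, 29, 28, 0, 2, 2, 1, -1⟩,
    ⟨10, 9, 32, 31, 0, 1, 1, -1, 1⟩, ⟨10, 11, 42, 41, 1, 1, 1, -1, -1⟩,
    ⟨11, 12, 27, 28, 2, 1, 1, -1, -1⟩, ⟨11, 12, 30, 31, 2, 1, 1, -1, -1⟩,
    ⟨12, 13, 21, 20, 0, 2, 2, 1, -1⟩, ⟨12, 11, 25, 26, 3, 1, 1, 1, 1⟩,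
    ⟨12, 13, 34, 35, 0, 1, 1, 1, -1⟩, ⟨12, 11, 43, 42, 3, 1, 1, -1, -1⟩,
    ⟨13, 12, 28, 27, 2, 1, 1, -1, 1⟩, ⟨13, 12, 36, 35, 0, 1, 1, 1, 1⟩,
    ⟨14, 13, 17, 18, 0, 1, 1, -1, -1⟩, ⟨14, 13, 26, 25, 0, 1, 1, 1, 1⟩,
    ⟨14, 13, 32, 33, 1, 1, 1, -1, 1⟩, ⟨14, 13, 38, 39, 1, 1, 1, 1, -1⟩,
    ⟨15, 14, 19, 18, 3, 1, 1, -1, -1⟩, ⟨15, 14, 27, 28, 1, 1, 1, -1, 1⟩,
    ⟨15, 14, 30, 31, 1, 1, 1, 1, -1⟩, ⟨15, 14, 33, 34, 3, 1, 1, 1, 1⟩,
    ⟨16, 15, 24, 25, 2, 1, 1, 1, 1⟩, ⟨16, 15, 36, 35, 1, 1, 1, -1, 1⟩,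
    ⟨16, 15, 41, 40, 2, 1, 1, 1, 1⟩, ⟨16, 15, 44, 43, 2, 1, 1, 1, 1⟩,
    ⟨17, 16, 20, 19, 1, 1, 1, 1, -1⟩, ⟨17, 18, 32, 33, 3, 1, 1, 1, 1⟩,
    ⟨17, 18, 38, 39, 3, 1, 1, -1, -1⟩, ⟨18, 19, 25, 24, 2, 1, 1, -1, 1⟩,
    ⟨18, 19, 37, 38, 3, 1, 1, -1, -1⟩, ⟨18, 19, 43, 44, 2, 1, 1, 1, -1⟩,
    ⟨19, 18, 27, 28, 2, 1, 1, 1, 1⟩, ⟨20, 21, 32, 31, 0, 1, 1, -1, 1⟩,
    ⟨20, 19, 42, 41, 1, 1, 1, -1, -1⟩, ⟨21, 22, 37, 36, 2, 1, 1, 1, -1⟩,
    ⟨21, 20, 40, 41, 0, 1, 1, -1, -1⟩, ⟨22, 21, 27, 28, 2, 1, 1, -1, -1⟩,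
    ⟨23, 24, 32, 33, 1, 1, 1, -1, 1⟩, ⟨23, 24, 38, 39, 1, 1, 1, 1, -1⟩,
    ⟨23, 24, 42, 43, 0, 1, 1, -1, -1⟩, ⟨24, 25, 31, 30, 2, 1, 1, -1, 1⟩,
    ⟨24, 25, 36, 35, 0, 1, 1, -1, -1⟩, ⟨25, 24, 34, 33, 2, 1, 1, -1, -1⟩,
    ⟨25, 24, 37, 38, 0, 1, 1, 1, -1⟩, ⟨25, 24, 40, 39, 2, 1, 1, -1, -1⟩,
    ⟨26, 25, 35, 36, 0, 1, 1, 1, -1⟩, ⟨26, 25, 38, 39, 3, 1, 1, -1, -1⟩,
    ⟨27, 26, 39, 40, 3, 1, 1, -1, -1⟩, ⟨28, 27, 36, 35, 1, 1, 1, 1, -1⟩,
    ⟨28, 27, 41, 40, 2, 1, 1, 1, 1⟩, ⟨29, 30, 35, 34, 3, 1, 1, 1, -1⟩,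
    ⟨29, 28, 38, 37, 0, 1, 1, -1, -1⟩, ⟨30, 31, 33, 34, 2, 1, 1, -1, 1⟩,
    ⟨30, 29, 39, 40, 3, 1, 1, 1, 1⟩, ⟨32, 33, 35, 36, 1, 1, 1, -1, -1⟩,
    ⟨32, 33, 42, 43, 3, 1, 1, 1, -1⟩, ⟨34, 33, 37, 38, 3, 1, 1, 1, 1⟩,
    ⟨35, 36, 42, 43, 0, 1, 1, 1, 1⟩, ⟨36, 35, 41, 40, 0, 1, 1, -1, 1⟩,
    ⟨36, 35, 44, 43, 0, 1, 1, -1, 1⟩, ⟨37, 38, 40, 39, 3, 1, 1, -1, 1⟩]

def w : List ℤ := [
    24, 3, 24, 3, 109, 573, 456, 117, 122, 13, 31, 4, 94, 35, 102, 4, 4, 4, 12, 1148, 643, 390,
    115, 17, 163, 194, 34, 17, 4, 12, 6, 2, 14, 12, 101, 224, 1150, 400, 914, 372, 139, 121,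
    119, 287, 143, 89, 404, 27, 228, 230, 29, 458, 99, 309, 979, 266, 404, 575, 558, 30, 30,
    24, 4, 2, 74, 74, 2, 689, 237, 9, 102, 313, 616, 186, 253, 185, 808, 731, 257, 586, 392,
    36, 51, 310, 388, 234, 443, 418, 181, 196, 36, 9, 10, 366, 202, 341, 32, 196, 20, 142, 34,
    1, 6, 23, 123, 17, 17]

def cs : List (ℕ × ℤ) := [
    (2, 4), (6, 6), (7, -115), (8, 115), (9, 2), (10, -2), (11, 575), (12, -575), (16, -400),
    (17, 370), (18, -185), (19, -273), (20, 273), (21, -273), (22, 156), (23, -78), (24, 496),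
    (25, -13), (26, 26), (27, 170), (28, 32), (29, -32), (30, -55), (31, 249), (32, 119),
    (33, -117), (34, -32), (37, -196), (40, -36), (41, 193), (42, -404), (46, -4), (47, -4),
    (50, -6), (51, 109), (53, -117), (55, -573), (57, 575), (60, 400), (61, 30), (62, -185),
    (63, 458), (66, 117), (67, -78), (68, -418), (69, -483), (70, -13), (71, -196), (72, -202),
    (74, 87), (75, -194), (76, -368), (77, -2), (78, 149), (79, 32), (81, 196), (82, 196),
    (84, 36), (85, -157), (86, 211), (87, 404)]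

def st0 : List Step := [
    (0, 12, [(0, -6), (1, -6), (7, -1), (8, 1), (9, -13), (10, 13), (11, 1), (12, -1), (13, 1),
    (14, -2), (15, 4), (16, 14), (17, -4), (18, 2), (19, -9), (20, 9), (21, -9), (25, 2), (26,
    -4), (27, 3), (31, -15), (33, 4), (37, 11), (42, -1), (44, 6), (45, 2), (46, 6), (51, 1),
    (53, 12), (55, -14), (58, 1), (59, -2), (60, -18), (61, -10), (62, 2), (63, 7), (66, 9),
    (69, -2), (70, 2), (71, 1), (72, -3), (75, 15), (76, 15), (77, -4), (78, -4), (81, -11),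
    (82, -11), (86, 1), (87, 1), (89, 10), (90, -2), (91, -8), (93, 6), (94, 2), (95, -4), (96,
    6), (99, -2), (100, 1), (101, 14), (102, -3), (103, 9), (104, 1), (106, 3), (107, -12),
    (108, 6), (109, -3), (112, 3), (114, 3), (115, 15), (116, 5), (117, 18), (118, -8), (120,
    -18), (121, -15), (128, 6), (129, 9), (130, 4), (131, 2), (132, 1), (133, -22), (135, 6),
    (136, -15), (138, -31), (139, 13), (140, -13), (142, 1), (143, 15), (144, -11), (145, -24),
    (146, 2), (147, 21), (149, 9), (150, 2), (151, -8), (152, 1), (153, -1), (155, -10), (156,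
    -7), (157, -15), (158, -22), (159, 10), (160, -2), (162, 4), (163, -36), (165, 4), (167,
    -9), (168, -30), (169, -9), (170, 8), (171, -2), (172, 2), (173, 16), (174, 9), (176, -22),
    (182, -30), (184, -4), (185, -11), (187, 1), (188, -2), (189, 2), (190, 3), (191, -4), (193,
    -11), (198, 9), (199, -1)], []), (5, 1, [(90, 1)], []), (6, 1, [(91, 1)], []), (7, 1, [(45,
    1), (89, -1), (90, -1), (91, -1)], []), (17, 6, [(7, -1), (8, 1), (9, 3), (10, -3), (11, 1),
    (12, -1), (13, 1), (14, -2), (15, 4), (16, -12), (17, -2), (18, 1), (19, -3), (20, 3), (21,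
    -3), (25, -4), (26, 8), (27, -3), (31, 11), (33, 1), (37, -5), (42, 5), (51, 1), (53, -4),
    (55, 2), (58, 1), (59, -2), (60, 8), (61, 14), (62, 1), (63, 2), (66, 3), (69, 4), (70, -4),
    (71, -5), (72, 3), (75, -11), (76, -11), (77, -1), (78, -1), (81, 5), (82, 5), (86, -5),
    (87, -5), (90, 6), (100, 1), (101, -2), (102, -5), (103, 3), (104, 7), (106, 3), (109, 3),
    (112, -5), (114, -5), (115, -1), (116, 1), (117, 6), (118, -2), (120, 8), (121, 11), (128,
    3), (129, 3), (130, 1), (131, 2), (132, 1), (133, 4), (135, -6), (136, 11), (138, 7), (139,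
    -9), (140, 5), (142, -5), (143, -13), (144, 5), (145, 8), (146, -10), (147, -8), (149, 3),
    (150, -4), (151, -2), (152, -5), (153, -1), (155, 14), (156, 17), (157, 11), (158, 10),
    (159, 7), (160, -2), (162, 1), (163, 22), (165, -2), (167, -3), (168, 22), (169, 1), (170,
    -7), (171, -1), (172, -10), (173, 5), (174, 3), (176, 10), (182, 22), (184, -1), (185, 5),
    (187, -5), (188, 4), (189, 2), (190, -3), (191, 2), (193, 5), (198, -6), (199, 5)], []),
    (18, 18, [(1, 18), (3, -12), (4, 6), (5, -3), (7, -5), (8, 5), (9, 6), (10, -6), (11, -1),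
    (12, 1), (13, -7), (14, 14), (15, -28), (16, -9), (17, 8), (18, -4), (19, 3), (20, -3), (21,
    3), (25, 4), (26, -8), (27, 9), (31, 16), (32, 9), (33, 2), (34, -6), (35, 3), (36, -6),
    (37, -4), (42, -5), (45, -18), (46, -18), (47, 12), (48, 6), (49, -3), (50, 3), (51, 5),
    (53, -11), (55, 7), (57, 6), (58, -7), (59, 14), (60, 37), (61, 1), (62, -4), (63, 1), (66,
    -3), (69, -4), (70, 4), (71, -1), (72, -9), (75, -16), (76, -25), (77, -11), (78, 4), (79,
    3), (80, 3), (81, 10), (82, 4), (86, 5), (87, 5), (91, 18), (96, 12), (98, 12), (100, 5),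
    (101, -7), (102, 32), (103, -3), (104, -13), (106, -18), (107, 36), (108, -18), (111, -12),
    (112, 17), (113, -24), (114, 5), (115, -8), (116, 5), (117, -6), (118, -13), (119, 9), (120,
    37), (121, 16), (124, -6), (125, -3), (126, -3), (128, -18), (129, -3), (130, 20), (131,
    10), (132, 5), (133, 65), (135, 18), (136, 16), (138, 17), (139, -6), (140, 16), (142, 5),
    (143, 4), (144, 4), (145, 10), (146, 10), (147, 5), (149, -3), (150, 4), (151, 2), (152, 5),
    (153, 13), (154, -3), (155, 1), (156, -20), (157, 25), (158, 8), (159, -31), (160, 14),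
    (162, 11), (163, 50), (165, -4), (167, 3), (168, 41), (169, 8), (170, -2), (171, 4), (172,
    10), (173, -2), (174, 24), (176, 14), (182, 32), (184, 10), (185, 10), (187, 8), (188, -4),
    (189, 10), (190, 9), (191, 4), (193, 4), (198, -12), (199, -5)], []), (19, 9, [(3, 3), (4,
    -6), (5, 3), (7, 11), (8, -11), (9, 12), (10, -12), (11, -5), (12, 5), (13, 1), (14, -2),
    (15, 4), (16, 9), (17, 4), (18, -2), (19, 15), (20, -15), (21, 15), (25, 2), (26, -4), (27,
    -9), (31, -10), (33, -8), (34, 6), (35, -3), (36, 6), (37, -2), (42, -7), (45, 9), (47, -3),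
    (48, 3), (49, 3), (50, -3), (51, -11), (53, -1), (55, 17), (57, -6), (58, 1), (59, -2), (60,
    -13), (61, -13), (62, -2), (63, -13), (66, -15), (69, -2), (70, 2), (71, 13), (72, 9), (75,
    10), (76, 10), (77, 8), (78, 2), (79, -3), (80, -3), (81, -4), (82, 2), (86, 7), (87, 7),
    (89, -9), (90, -9), (91, -9), (96, -12), (98, -12), (100, -11), (101, -17), (102, -11),
    (103, -15), (104, -11), (111, 3), (112, 4), (113, 6), (114, 7), (115, -22), (116, -11),
    (117, -30), (118, 16), (119, -9), (120, -13), (121, -10), (124, 6), (125, 3), (126, 3),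
    (128, -18), (129, -15), (130, -8), (131, -22), (132, -11), (133, -17), (135, -18), (136,
    -10), (138, 13), (139, 6), (140, -10), (142, 7), (143, 2), (144, 2), (145, 14), (146, 14),
    (147, -11), (149, -15), (150, 2), (151, 10), (152, 7), (153, -7), (154, 3), (155, -13),
    (156, -10), (157, -10), (158, 4), (159, -2), (160, -2), (162, -8), (163, -20), (165, -2),
    (167, 15), (168, -20), (169, 4), (170, 8), (171, 2), (172, 14), (173, -28), (174, -24),
    (176, -2), (182, -20), (184, -4), (185, -4), (187, 4), (188, -2), (189, -22), (190, -9),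
    (191, 2), (193, 2), (198, 12), (199, -7)], []), (21, 24, [(1, 12), (7, 11), (8, -11), (9,
    29), (10, -29), (11, -5), (12, 5), (13, 1), (14, -2), (15, 4), (16, -58), (17, 32), (18,
    -16), (19, 45), (20, -45), (21, 45), (25, -10), (26, 20), (27, -21), (31, 57), (32, -36),
    (33, -14), (34, -12), (35, 6), (36, -12), (37, -1), (42, 5), (45, 8), (46, -12), (51, -11),
    (53, -18), (55, 34), (57, -6), (58, 1), (59, -2), (60, 54), (61, 26), (62, -16), (63, -29),
    (66, -45), (69, 10), (70, -10), (71, 1), (72, 21), (75, -57), (76, -21), (77, 50), (78, 26),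
    (79, 6), (80, 6), (81, 13), (82, 1), (86, -5), (87, -5), (89, -20), (90, 4), (91, -8), (93,
    -12), (94, -28), (95, 8), (96, 18), (98, 18), (99, -8), (100, -11), (101, -34), (102, 15),
    (103, -45), (104, 1), (106, 27), (107, 24), (108, -12), (109, 39), (112, 3), (114, 3), (115,
    -39), (116, -13), (117, -90), (118, 64), (120, 54), (121, 57), (128, 30), (129, -45), (130,
    -86), (131, -22), (132, -11), (133, 50), (135, -42), (136, 57), (138, 59), (139, -23), (140,
    35), (142, -5), (143, -39), (144, 1), (145, 30), (146, -10), (147, -93), (149, -45), (150,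
    -10), (151, 40), (152, -5), (153, -7), (154, -6), (155, 26), (156, 29), (157, 21), (158, 2),
    (159, -44), (160, -2), (162, -50), (163, 126), (165, -14), (167, 45), (168, 78), (169, -9),
    (170, -58), (171, 16), (172, -10), (173, -74), (174, -45), (176, 14), (182, 114), (184, 38),
    (185, 13), (187, 1), (188, 10), (189, -22), (190, -21), (191, 14), (193, 1), (198, -9),
    (199, 5)], []), (22, 8, [(1, 4), (5, -4), (7, 5), (8, -5), (9, 7), (10, -7), (11, -3), (12,
    3), (13, -1), (14, 2), (15, -4), (16, 6), (19, 3), (20, -3), (21, 3), (25, 2), (26, -4),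
    (27, -3), (31, -5), (32, 8), (33, -2), (34, 4), (35, -2), (36, 4), (37, -3), (42, -5), (46,
    -4), (49, 4), (50, 4), (51, -5), (53, -2), (55, 10), (57, -2), (58, -1), (59, 2), (60, -2),
    (61, -6), (63, -3), (66, -3), (69, -2), (70, 2), (71, 7), (72, 3), (75, 5), (76, -3), (77,
    -6), (78, -2), (79, -2), (80, -2), (81, -1), (82, 3), (86, 5), (87, 5), (89, -4), (90, -4),
    (93, 4), (94, 4), (95, -8), (96, -2), (98, -2), (99, 8), (100, -5), (101, -10), (102, -3),
    (103, -3), (104, -9), (106, -7), (107, 8), (108, -4), (109, -3), (112, -3), (114, -3), (115,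
    -13), (116, -3), (117, -6), (118, -4), (119, -4), (120, -2), (121, -5), (124, -8), (125,
    -4), (126, -4), (128, -22), (129, -3), (130, 14), (131, -10), (132, -5), (133, 2), (135,
    -6), (136, -5), (138, 5), (139, 3), (140, -7), (142, 5), (143, 3), (144, 3), (145, 10),
    (146, 10), (147, 5), (149, -3), (150, 2), (152, 5), (153, -1), (154, 2), (155, -6), (156,
    -9), (157, 3), (158, 6), (160, 2), (162, 6), (163, -6), (165, -2), (167, 3), (168, -2),
    (169, 5), (170, 10), (172, 10), (173, -6), (174, 1), (176, 2), (182, -10), (184, -6), (185,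
    -1), (187, 3), (188, -2), (189, -10), (190, -3), (191, 2), (193, 3), (198, 5), (199, -5)],
    []), (30, 3, [(1, 3), (7, 1), (8, -1), (9, 3), (10, -3), (11, -1), (12, 1), (13, -1), (14,
    2), (15, -4), (17, 2), (18, -1), (19, 3), (20, -3), (21, 3), (25, 1), (26, -2), (31, 1),
    (33, -1), (37, -1), (42, -2), (45, -3), (46, -3), (51, -1), (53, -2), (55, 4), (58, -1),
    (59, 2), (60, 4), (61, -2), (62, -1), (63, -2), (66, -3), (69, -1), (70, 1), (71, 2), (75,
    -1), (76, -1), (77, 1), (78, 1), (81, 1), (82, 1), (86, 2), (87, 2), (91, 3), (100, -1),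
    (101, -4), (102, 5), (103, -3), (104, -4), (106, -3), (107, 6), (108, -3), (112, 2), (114,
    2), (115, -5), (116, -1), (117, -6), (118, 2), (120, 4), (121, 1), (128, -6), (129, -3),
    (130, -1), (131, -2), (132, -1), (133, 8), (136, 1), (138, 5), (140, 1), (142, 2), (143, 1),
    (144, 1), (145, 4), (146, 4), (147, -1), (149, -3), (150, 1), (151, 2), (152, 2), (153, 1),
    (155, -2), (156, -5), (157, 1), (158, 2), (159, -7), (160, 2), (162, -1), (163, 5), (165,
    -1), (167, 3), (168, 2), (169, 2), (170, 1), (171, 1), (172, 4), (173, -5), (174, -3), (176,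
    2), (182, 2), (184, 1), (185, 1), (187, 2), (188, -1), (189, -2), (191, 1), (193, 1), (199,
    -2)], []), (32, 24, [(1, -24), (7, -5), (8, 5), (9, -11), (10, 11), (11, 3), (12, -3), (13,
    1), (14, -2), (15, 4), (16, 18), (17, -12), (18, 6), (19, -15), (20, 15), (21, -15), (25,
    2), (26, -4), (27, 7), (31, -11), (32, 8), (33, 4), (34, 4), (35, -2), (36, 4), (37, -1),
    (42, 1), (45, -16), (46, 24), (51, 5), (53, 6), (55, -14), (57, 2), (58, 1), (59, -2), (60,
    -22), (61, -6), (62, 6), (63, 9), (66, 15), (69, -2), (70, 2), (71, -3), (72, -7), (75, 11),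
    (76, 3), (77, -12), (78, -8), (79, -2), (80, -2), (81, -3), (82, 1), (86, -1), (87, -1),
    (89, 40), (90, 16), (91, 16), (94, 8), (95, 8), (96, -6), (98, -6), (99, -8), (100, 5),
    (101, 14), (102, -9), (103, 15), (104, 5), (106, 11), (107, -48), (108, 24), (109, -13),
    (112, 7), (114, 7), (115, 17), (116, 3), (117, 30), (118, -16), (120, -22), (121, -11),
    (129, 15), (130, 20), (131, 10), (132, 5), (133, -26), (135, 14), (136, -11), (138, -17),
    (139, 5), (140, -9), (142, -1), (143, 9), (144, 1), (145, -10), (146, -2), (147, 25), (149,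
    15), (150, 2), (151, -12), (152, -1), (153, 1), (154, 2), (155, -6), (156, -3), (157, -3),
    (158, 2), (159, 18), (160, -2), (162, 12), (163, -46), (165, 6), (167, -15), (168, -14),
    (169, 3), (170, 16), (171, -6), (172, -2), (173, 24), (174, 15), (176, -2), (182, -22),
    (184, -12), (185, -3), (187, -3), (188, -2), (189, 10), (190, 7), (191, -6), (193, 1), (198,
    1), (199, 1)], []), (33, 24, [(1, 12), (7, 19), (8, -19), (9, 37), (10, -37), (11, 3), (12,
    -3), (13, 1), (14, -2), (15, 4), (16, -42), (19, 21), (20, -21), (21, 21), (25, -10), (26,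
    20), (27, -29), (31, 49), (32, -4), (33, -14), (34, 4), (35, -2), (36, 4), (37, -25), (42,
    13), (45, 8), (46, -12), (51, -19), (53, -18), (55, 34), (57, 2), (58, 1), (59, -2), (60,
    38), (61, 42), (63, -21), (66, -21), (69, 10), (70, -10), (71, 9), (72, 29), (75, -49), (76,
    -45), (77, 18), (78, 10), (79, -2), (80, -2), (81, 21), (82, 25), (86, -13), (87, -13), (89,
    -20), (90, 4), (91, -8), (93, -12), (94, -28), (95, 8), (96, -6), (98, -6), (99, -8), (100,
    -19), (101, -34), (102, -9), (103, -21), (104, -7), (106, 11), (107, 24), (108, -12), (109,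
    23), (112, -5), (114, -5), (115, -31), (116, -21), (117, -42), (118, 32), (120, 38), (121,
    49), (128, -18), (129, -21), (130, -22), (131, -38), (132, 5), (133, 34), (135, -58), (136,
    49), (138, 67), (139, -31), (140, 27), (142, -13), (143, -63), (144, 25), (145, 62), (146,
    -26), (147, -53), (149, -21), (150, -10), (151, 24), (152, -13), (153, 1), (154, 2), (155,
    42), (156, 45), (157, 45), (158, 50), (159, -12), (160, -2), (162, -18), (163, 110), (165,
    -30), (167, 21), (168, 94), (169, 15), (170, -26), (172, -26), (173, -42), (174, -21), (176,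
    46), (182, 98), (184, 6), (185, 21), (187, -15), (188, 10), (189, -38), (190, -29), (191,
    30), (193, 25), (198, -17), (199, 13)], []), (34, 8, [(1, 4), (7, -11), (8, 3), (9, -5),
    (10, 5), (11, -3), (12, 3), (13, -1), (14, 2), (15, -4), (16, 2), (17, 8), (18, -4), (19,
    3), (20, -3), (21, 3), (25, 2), (26, -4), (27, 13), (31, -9), (32, -4), (33, 2), (34, -4),
    (35, 2), (36, -4), (37, 9), (42, -5), (46, -4), (51, 11), (52, 8), (53, 2), (55, -2), (57,
    -2), (58, -1), (59, 2), (60, 2), (61, -10), (62, -4), (63, 1), (66, -3), (69, -2), (70, 2),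
    (71, -9), (72, -13), (75, 9), (76, 13), (77, 2), (78, 2), (79, 2), (80, 2), (81, -5), (82,
    -9), (86, 5), (87, 5), (89, -4), (90, -4), (93, 4), (94, 4), (95, -8), (96, 6), (98, 6),
    (99, 8), (100, 11), (101, 2), (102, 9), (103, -3), (104, 7), (106, -11), (107, 8), (108,
    -4), (109, -7), (112, -3), (114, -3), (115, -1), (116, 5), (117, -6), (120, 2), (121, -9),
    (128, 14), (129, -3), (130, -6), (131, 22), (132, -5), (133, 6), (135, 26), (136, -9), (138,
    -11), (139, 7), (140, -3), (142, 5), (143, 15), (144, -9), (145, -14), (146, 10), (147, -7),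
    (149, -3), (150, 2), (152, 5), (153, -1), (154, -2), (155, -10), (156, -13), (157, -13),
    (158, -18), (159, -8), (160, 2), (162, -2), (163, -14), (165, 14), (167, 3), (168, -22),
    (169, -7), (170, -2), (171, 4), (172, 10), (173, -2), (174, -3), (176, -14), (182, -18),
    (184, 6), (185, -5), (187, 7), (188, -2), (189, 22), (190, 13), (191, -14), (193, -9), (198,
    5), (199, -5)], []), (36, 4, [(1, -2), (9, -8), (10, 8), (16, 10), (17, -2), (18, 1), (19,
    -6), (20, 6), (21, -6), (25, 2), (26, -4), (27, 2), (31, -10), (32, 2), (33, 3), (37, 4),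
    (42, -2), (46, 2), (53, 8), (55, -8), (60, -10), (61, -8), (62, 1), (63, 5), (66, 6), (69,
    -2), (70, 2), (71, 2), (72, -2), (75, 10), (76, 8), (77, -5), (78, -3), (81, -4), (82, -4),
    (86, 2), (87, 2), (89, 2), (90, -2), (93, -2), (94, -2), (101, 8), (103, 6), (104, -2),
    (107, -4), (108, 2), (109, -2), (112, 2), (114, 2), (115, 8), (116, 4), (117, 12), (118,
    -8), (120, -10), (121, -10), (128, -1), (129, 6), (130, 7), (133, -10), (135, 4), (136,
    -10), (138, -14), (139, 6), (140, -6), (142, 2), (143, 12), (144, -4), (145, -12), (146, 4),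
    (147, 17), (149, 6), (150, 2), (151, -6), (152, 2), (155, -8), (156, -8), (157, -8), (158,
    -8), (159, 5), (162, 5), (163, -22), (165, 2), (167, -6), (168, -18), (169, -2), (170, 7),
    (171, -1), (172, 4), (173, 11), (174, 6), (176, -8), (182, -20), (184, -3), (185, -4), (187,
    2), (188, -2), (190, 2), (191, -2), (193, -4), (198, 3), (199, -2)], []), (41, 6, [(1, 6),
    (7, 1), (8, -1), (9, 7), (10, -7), (11, -1), (12, 1), (13, -1), (14, 2), (15, -4), (16,
    -14), (17, 4), (18, -2), (19, 9), (20, -9), (21, 9), (25, -2), (26, 4), (27, -3), (31, 15),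
    (32, -6), (33, -4), (37, -5), (42, 1), (45, -2), (46, -6), (51, -1), (53, -6), (55, 8), (58,
    -1), (59, 2), (60, 18), (61, 10), (62, -2), (63, -7), (66, -9), (69, 2), (70, -2), (71, -1),
    (72, 3), (75, -15), (76, -9), (77, 10), (78, 4), (81, 5), (82, 5), (86, -1), (87, -1), (89,
    -4), (90, 2), (91, 2), (93, -6), (94, -2), (95, -2), (99, 2), (100, -1), (101, -8), (102,
    9), (103, -9), (104, -1), (106, -3), (107, 12), (108, -6), (109, 3), (112, -3), (114, -3),
    (115, -9), (116, -5), (117, -18), (118, 14), (120, 18), (121, 15), (128, 6), (129, -9),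
    (130, -16), (131, -2), (132, -1), (133, 22), (135, -6), (136, 15), (138, 19), (139, -7),
    (140, 7), (142, -1), (143, -15), (144, 5), (145, 12), (146, -2), (147, -21), (149, -9),
    (150, -2), (151, 8), (152, -1), (153, 1), (155, 10), (156, 7), (157, 9), (158, 10), (159,
    -16), (160, 2), (162, -10), (163, 36), (165, -4), (167, 9), (168, 24), (169, 3), (170, -8),
    (171, 2), (172, -2), (173, -16), (174, -9), (176, 10), (182, 30), (184, 4), (185, 5), (187,
    -1), (188, 2), (189, -2), (190, -3), (191, 4), (193, 5), (198, -3), (199, 1)], []), (43, 1,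
    [(9, 1), (10, -2), (32, 2), (37, -1), (53, -1), (54, 1), (55, 2), (76, -2), (77, -2), (81,
    1), (82, 1), (95, 1), (99, -1), (101, -2), (102, -2), (112, 1), (114, 1), (115, -2), (118,
    -2), (128, -4), (130, 4), (138, 2), (139, -1), (140, 1), (144, 1), (145, 4), (157, 2), (158,
    2), (159, 2), (162, 2), (168, 2), (169, 1), (176, 2), (185, 1), (193, 1), (198, -1)], []),
    (48, 4, [(1, -2), (9, -4), (10, 4), (16, 6), (17, 2), (18, -1), (19, 2), (20, -2), (21, 2),
    (25, 2), (26, -4), (27, 2), (31, -6), (32, -2), (33, -3), (37, 4), (42, -2), (46, 2), (53,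
    4), (55, -4), (60, -6), (61, -8), (62, -1), (63, -1), (66, -2), (69, -2), (70, 2), (71, 2),
    (72, -2), (75, 6), (76, 8), (77, 5), (78, 3), (81, -4), (82, -4), (86, 2), (87, 2), (89, 2),
    (90, -2), (93, -2), (94, -2), (101, 4), (102, 4), (103, -2), (104, -2), (107, -4), (108, 2),
    (109, -2), (112, 2), (114, 2), (115, 4), (117, -4), (118, 8), (120, -6), (121, -6), (128,
    5), (129, -2), (130, -7), (133, -6), (135, 4), (136, -6), (138, -6), (139, 6), (140, -2),
    (142, 2), (143, 8), (144, -4), (145, -8), (146, 4), (147, 3), (149, -2), (150, 2), (151, 6),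
    (152, 2), (155, -8), (156, -8), (157, -8), (158, -8), (159, -5), (162, -5), (163, -14),
    (165, 2), (167, 2), (168, -14), (169, -2), (170, 1), (171, 1), (172, 4), (173, -3), (174,
    -2), (176, -8), (182, -12), (184, 3), (185, -4), (187, 2), (188, -2), (190, 2), (191, -2),
    (193, -4), (198, 5), (199, -2)], []), (50, 2, [(9, -2), (10, 2), (11, -2), (16, 4), (17,
    -6), (18, 3), (19, -6), (20, 6), (21, -6), (31, -4), (32, 4), (33, 5), (42, 2), (53, 2),
    (56, 2), (60, -4), (61, 2), (62, 3), (63, 3), (66, 6), (75, 4), (77, -9), (78, -5), (86,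
    -2), (87, -2), (93, 2), (102, -6), (103, 6), (112, -2), (114, -2), (115, -2), (117, 12),
    (118, -14), (120, -4), (121, -4), (128, -7), (129, 6), (130, 13), (133, -4), (136, -4),
    (138, -6), (140, -2), (142, -2), (143, -2), (145, -2), (146, -4), (147, 9), (149, 6), (151,
    -10), (152, -2), (155, 2), (156, 2), (159, 9), (162, 9), (163, -8), (167, -6), (168, -4),
    (170, 5), (171, -3), (172, -4), (173, 9), (174, 6), (182, -8), (184, -5), (187, -2), (198,
    -3), (199, 2)], []), (51, 1, [(9, 1), (10, -1), (16, -1), (17, 2), (18, -1), (19, 2), (20,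
    -2), (21, 2), (31, 1), (32, -1), (33, -1), (42, -1), (53, -1), (55, 1), (60, 1), (61, -1),
    (62, -1), (63, -1), (66, -2), (75, -1), (77, 2), (78, 1), (86, 1), (87, 1), (94, 1), (101,
    -1), (102, 1), (103, -2), (112, 1), (114, 1), (115, -1), (117, -4), (118, 3), (120, 1),
    (121, 1), (128, 1), (129, -2), (130, -3), (133, 1), (136, 1), (138, 2), (142, 1), (143, 1),
    (145, 1), (146, 2), (147, -3), (149, -2), (151, 2), (152, 1), (155, -1), (156, -1), (159,
    -2), (162, -2), (163, 2), (167, 2), (168, 1), (170, -1), (171, 1), (172, 2), (173, -3),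
    (174, -2), (182, 2), (184, 1), (187, 1), (198, 1), (199, -1)], []), (56, 12, [(1, -18), (7,
    -4), (8, 4), (9, -16), (10, 16), (11, 4), (12, -4), (13, 4), (14, -8), (15, 16), (16, 14),
    (17, -10), (18, 5), (19, -18), (20, 18), (21, -18), (25, 2), (26, -4), (27, 6), (31, -18),
    (32, 6), (33, 7), (37, 8), (42, 2), (45, 8), (46, 18), (51, 4), (53, 12), (55, -20), (58,
    4), (59, -8), (60, -30), (61, -4), (62, 5), (63, 13), (66, 18), (69, -2), (70, 2), (71, -2),
    (72, -6), (75, 18), (76, 12), (77, -13), (78, -7), (81, -8), (82, -8), (86, -2), (87, -2),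
    (89, 10), (90, -2), (91, -8), (93, 6), (94, 2), (95, -4), (99, 4), (100, 4), (101, 20),
    (102, -24), (103, 18), (104, 10), (106, 12), (107, -36), (108, 18), (109, -6), (112, -6),
    (114, -6), (115, 24), (116, 8), (117, 36), (118, -20), (120, -30), (121, -18), (128, 3),
    (129, 18), (130, 19), (131, 8), (132, 4), (133, -46), (135, 12), (136, -18), (138, -34),
    (139, 10), (140, -10), (142, -2), (143, 12), (144, -8), (145, -24), (146, -4), (147, 33),
    (149, 18), (150, 2), (151, -14), (152, -2), (153, -4), (155, -4), (156, -4), (157, -12),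
    (158, -16), (159, 37), (160, -8), (162, 13), (163, -54), (165, 10), (167, -18), (168, -30),
    (169, -6), (170, 11), (171, -5), (172, -4), (173, 31), (174, 18), (176, -16), (182, -36),
    (184, -7), (185, -8), (187, -2), (188, -2), (189, 8), (190, 6), (191, -10), (193, -8), (198,
    3), (199, 2)], []), (57, 6, [(1, 6), (7, 1), (8, -1), (9, 13), (10, -13), (11, -1), (12, 1),
    (13, -1), (14, 2), (15, -4), (16, -14), (17, 4), (18, -2), (19, 9), (20, -9), (21, 9), (25,
    -2), (26, 4), (27, -3), (31, 15), (33, -4), (37, -11), (42, 1), (45, -2), (46, -6), (51,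
    -1), (53, -12), (55, 14), (58, -1), (59, 2), (60, 18), (61, 10), (62, -2), (63, -7), (66,
    -9), (69, 2), (70, -2), (71, -1), (72, 3), (75, -15), (76, -15), (77, 4), (78, 4), (81, 11),
    (82, 11), (86, -1), (87, -1), (89, -4), (90, 2), (91, 2), (93, -6), (94, -2), (95, -2), (99,
    2), (100, -1), (101, -14), (102, 3), (103, -9), (104, -1), (106, -3), (107, 12), (108, -6),
    (109, 3), (112, -3), (114, -3), (115, -15), (116, -5), (117, -18), (118, 8), (120, 18),
    (121, 15), (128, -6), (129, -9), (130, -4), (131, -2), (132, -1), (133, 22), (135, -6),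
    (136, 15), (138, 31), (139, -13), (140, 13), (142, -1), (143, -15), (144, 11), (145, 24),
    (146, -2), (147, -21), (149, -9), (150, -2), (151, 8), (152, -1), (153, 1), (155, 10), (156,
    7), (157, 15), (158, 22), (159, -10), (160, 2), (162, -4), (163, 36), (165, -4), (167, 9),
    (168, 30), (169, 9), (170, -8), (171, 2), (172, -2), (173, -16), (174, -9), (176, 22), (182,
    30), (184, 4), (185, 11), (187, -1), (188, 2), (189, -2), (190, -3), (191, 4), (193, 11),
    (198, -9), (199, 1)], []), (59, 2, [(7, 1), (8, -1), (9, 1), (10, -1), (11, -1), (12, 1),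
    (13, -1), (17, 2), (18, -1), (19, 3), (20, -3), (21, 3), (27, -1), (31, 1), (32, -2), (33,
    -1), (37, 1), (42, -1), (51, -1), (55, 2), (58, 1), (61, -2), (62, -1), (63, -2), (66, -3),
    (71, 1), (72, 1), (75, -1), (76, 1), (77, 3), (78, 1), (81, -1), (82, -1), (86, 1), (87, 1),
    (95, 2), (99, -2), (100, -1), (101, -2), (102, 1), (103, -3), (104, -1), (106, 1), (109, 1),
    (112, 3), (114, 3), (115, -3), (116, -1), (117, -6), (118, 4), (121, 1), (128, 1), (129,
    -3), (130, -5), (131, -2), (132, -1), (135, -2), (136, 1), (138, 1), (139, 1), (140, -1),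
    (142, 1), (143, 1), (144, -1), (146, 2), (147, -4), (149, -3), (151, 2), (152, 1), (153, 1),
    (155, -2), (156, -1), (157, -1), (158, -2), (159, -3), (162, -3), (163, 2), (165, -2), (167,
    3), (169, -1), (170, -1), (171, 1), (172, 2), (173, -5), (174, -3), (176, -2), (182, 2),
    (184, 1), (185, -1), (187, 1), (189, -2), (190, -1), (191, 2), (193, -1), (198, 2), (199,
    -1)], []), (62, 1, [(1, 1), (15, -1), (45, -1), (46, -1), (59, 1), (60, 1), (91, 1), (102,
    2), (104, -1), (106, -1), (107, 2), (108, -1), (120, 1), (133, 2), (159, -2), (160, 1),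
    (163, 1)], []), (66, 24, [(1, 12), (7, -1), (8, 1), (9, -7), (10, 7), (11, -1), (12, 1),
    (13, -3), (14, 6), (15, -12), (16, 22), (17, -8), (18, 4), (19, -15), (20, 15), (21, -15),
    (25, 6), (26, -12), (27, 7), (31, -35), (32, 20), (33, 6), (34, 4), (35, -2), (36, 4), (37,
    3), (42, -7), (46, -12), (51, 1), (53, 6), (55, -6), (57, 2), (58, -3), (59, 6), (60, -10),
    (61, -14), (62, 4), (63, 11), (66, 15), (69, -6), (70, 6), (71, 5), (72, -7), (75, 35), (76,
    15), (77, -26), (78, -10), (79, -2), (80, -2), (81, -7), (82, -3), (86, 7), (87, 7), (89,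
    -12), (90, -12), (93, 12), (94, 12), (95, -24), (96, -6), (98, -6), (99, 24), (100, 1),
    (101, 6), (102, 3), (103, 15), (104, -11), (106, -25), (107, 24), (108, -12), (109, -13),
    (112, -17), (114, -17), (115, 5), (116, 7), (117, 30), (118, -32), (120, -10), (121, -35),
    (128, -30), (129, 15), (130, 46), (131, 2), (132, 1), (133, 2), (135, 14), (136, -35), (138,
    -25), (139, 13), (140, -17), (142, 7), (143, 21), (144, -3), (145, -10), (146, 14), (147,
    43), (149, 15), (150, 6), (151, -16), (152, 7), (153, 5), (154, 2), (155, -14), (156, -23),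
    (157, -15), (158, -6), (159, 8), (160, 6), (162, 26), (163, -58), (165, 2), (167, -15),
    (168, -50), (169, 3), (170, 26), (171, -4), (172, 14), (173, 26), (174, 15), (176, -10),
    (182, -70), (184, -14), (185, -7), (187, 5), (188, -6), (189, 2), (190, 7), (191, -2), (193,
    -3), (198, 7), (199, -7)], []), (71, 1, [(95, 1), (99, -1), (112, 1), (114, 1)], []), (72,
    4, [(1, -2), (9, -4), (10, 4), (16, 6), (17, 2), (18, -3), (19, 2), (20, -2), (21, 2), (25,
    2), (26, -4), (27, 2), (31, -6), (32, -2), (33, -1), (37, 4), (42, -2), (46, 2), (53, 4),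
    (55, -4), (60, -6), (61, -8), (62, 1), (63, 1), (66, -2), (69, -2), (70, 2), (71, 2), (72,
    -2), (75, 6), (76, 8), (77, 3), (78, 1), (81, -4), (82, -4), (86, 2), (87, 2), (89, 2), (90,
    -2), (93, -2), (94, -2), (101, 4), (102, 4), (103, -2), (104, -2), (107, -4), (108, 2),
    (109, -2), (112, 2), (114, 2), (115, 4), (116, 4), (117, -4), (118, 4), (120, -6), (121,
    -6), (128, 3), (129, -2), (130, -5), (133, -6), (135, 4), (136, -6), (138, -6), (139, 6),
    (140, -2), (142, 2), (143, 8), (144, -4), (145, -8), (146, 4), (147, 5), (149, -2), (150,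
    2), (151, 2), (152, 2), (155, -8), (156, -8), (157, -8), (158, -8), (159, -3), (162, -3),
    (163, -14), (165, 2), (167, 2), (168, -14), (169, -2), (170, 3), (171, -1), (172, 4), (173,
    -1), (174, -2), (176, -8), (182, -12), (184, 1), (185, -4), (187, 2), (188, -2), (190, 2),
    (191, -2), (193, -4), (198, 3), (199, -2)], []), (80, 12, [(1, -18), (7, -4), (8, 4), (9,
    -28), (10, 28), (11, 4), (12, -4), (13, 4), (14, -8), (15, 16), (16, 26), (17, -10), (18,
    5), (19, -18), (20, 18), (21, -18), (25, 2), (26, -4), (27, 6), (31, -30), (32, -6), (33,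
    7), (37, 20), (42, 2), (45, 8), (46, 18), (51, 4), (53, 24), (55, -32), (58, 4), (59, -8),
    (60, -42), (61, -16), (62, 5), (63, 13), (66, 18), (69, -2), (70, 2), (71, -2), (72, -6),
    (75, 30), (76, 36), (77, -1), (78, -7), (81, -20), (82, -20), (86, -2), (87, -2), (89, 10),
    (90, -2), (91, -8), (93, 6), (94, 2), (95, -4), (99, 4), (100, 4), (101, 32), (102, -12),
    (103, 18), (104, 10), (106, 12), (107, -36), (108, 18), (109, -6), (112, -6), (114, -6),
    (115, 36), (116, 8), (117, 36), (118, -8), (120, -42), (121, -30), (128, 27), (129, 18),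
    (130, -5), (131, 8), (132, 4), (133, -58), (135, 12), (136, -30), (138, -58), (139, 22),
    (140, -22), (142, -2), (143, 24), (144, -20), (145, -48), (146, -4), (147, 33), (149, 18),
    (150, 2), (151, -14), (152, -2), (153, -4), (155, -16), (156, -4), (157, -36), (158, -40),
    (159, 25), (160, -8), (162, 1), (163, -78), (165, 10), (167, -18), (168, -66), (169, -18),
    (170, 11), (171, -5), (172, -4), (173, 31), (174, 6), (176, -40), (182, -60), (184, -7),
    (185, -20), (187, -2), (188, -2), (189, 8), (190, 6), (191, -10), (193, -20), (198, 15),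
    (199, 2)], []), (83, 1, [(9, 1), (10, -1), (19, -1), (32, 2), (37, -1), (53, -1), (55, 1),
    (63, 1), (64, 1), (76, -2), (77, -2), (81, 1), (82, 1), (95, 1), (99, -1), (101, -1), (102,
    -1), (112, 1), (114, 1), (115, -1), (116, 1), (118, -2), (128, -4), (130, 4), (138, 2),
    (139, -1), (140, 1), (143, -1), (144, 1), (145, 2), (147, 2), (157, 2), (158, 2), (159, 2),
    (162, 2), (167, 1), (168, 2), (169, 1), (173, 2), (174, 2), (176, 2), (185, 1), (193, 1),
    (198, -1)], []), (86, 1, [(93, 1), (138, -1)], []), (87, 2, [(16, 2), (17, -2), (18, 1),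
    (19, -2), (20, 2), (21, -4), (31, -2), (32, 2), (33, 3), (60, -2), (62, 1), (63, 1), (65,
    2), (66, 4), (75, 2), (77, -5), (78, -3), (94, 2), (102, -4), (103, 4), (117, 8), (118, -8),
    (120, -2), (121, -2), (128, -3), (129, 4), (130, 7), (133, -2), (136, -2), (140, -2), (147,
    3), (149, 6), (151, -6), (159, 5), (162, 5), (163, -4), (167, -2), (168, -2), (170, 3),
    (171, -1), (173, 3), (174, 2), (182, -4), (184, -3), (198, -1)], [])]

def st1 : List Step := [
    (95, 1, [(9, -2), (10, 2), (16, 2), (22, -1), (31, -2), (32, -1), (37, 2), (53, 2), (55,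
    -2), (60, -2), (61, -2), (66, 1), (67, 1), (75, 2), (76, 3), (77, 1), (81, -2), (82, -2),
    (95, 1), (99, -1), (101, 2), (102, 1), (103, 1), (112, 1), (114, 1), (115, 2), (117, 1),
    (118, 1), (120, -2), (121, -2), (128, 4), (129, 2), (130, -2), (133, -2), (136, -2), (138,
    -4), (139, 2), (140, -2), (143, 2), (144, -2), (145, -4), (155, -2), (156, -2), (157, -4),
    (158, -4), (159, -1), (162, -1), (163, -4), (168, -5), (169, -2), (176, -4), (179, 1), (181,
    -2), (182, -4), (185, -2), (187, 2), (193, -2), (198, 2), (199, -2)], []), (102, 2, [(16,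
    2), (17, -2), (18, 1), (19, -2), (20, 2), (21, -2), (31, -2), (32, 2), (33, 1), (60, -2),
    (62, 1), (63, 1), (66, 2), (75, 2), (77, -3), (78, -1), (93, 2), (102, -2), (103, 2), (117,
    4), (118, -4), (120, -2), (121, -2), (128, -3), (129, 2), (130, 5), (133, -2), (136, -2),
    (138, -2), (147, 3), (149, 2), (151, -2), (159, 3), (162, 3), (163, -4), (167, -2), (168,
    -2), (170, 3), (171, -1), (173, 3), (174, 2), (182, -4), (184, -1), (198, -1)], []), (105,
    6, [(1, 6), (7, 1), (8, -1), (9, 7), (10, -7), (11, -1), (12, 1), (13, -1), (14, 2), (15,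
    -4), (16, -14), (17, 4), (18, -2), (19, 9), (20, -9), (21, 9), (25, -5), (26, 4), (27, -3),
    (31, 15), (32, -6), (33, -4), (37, -5), (42, 4), (45, -2), (46, -6), (51, -1), (53, -6),
    (55, 8), (58, -1), (59, 2), (60, 18), (61, 10), (62, -2), (63, -7), (66, -9), (69, 5), (70,
    1), (71, -1), (72, 3), (75, -15), (76, -9), (77, 10), (78, 4), (81, 5), (82, 5), (86, -4),
    (87, -4), (89, -4), (90, 2), (91, 2), (93, -6), (94, -2), (95, -2), (99, 2), (100, -1),
    (101, -8), (102, 9), (103, -9), (104, -1), (106, -3), (107, 12), (108, -6), (109, 3), (112,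
    -6), (114, -6), (115, -9), (116, -5), (117, -18), (118, 14), (120, 18), (121, 15), (128, 6),
    (129, -9), (130, -16), (131, -2), (132, -1), (133, 22), (135, -6), (136, 15), (138, 19),
    (139, -10), (140, 7), (142, -4), (143, -15), (144, 5), (145, 12), (146, -8), (147, -21),
    (149, -9), (150, -5), (151, 8), (152, -4), (153, 1), (155, 10), (156, 7), (157, 9), (158,
    10), (159, -16), (160, 2), (162, -10), (163, 36), (165, -4), (167, 9), (168, 24), (169, 6),
    (170, -14), (171, 2), (172, -8), (173, -16), (174, -9), (176, 10), (182, 30), (184, 4),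
    (185, 5), (187, -4), (188, -1), (189, -2), (190, -3), (191, 4), (193, 5), (198, -3), (199,
    4)], []), (117, 6, [(1, 6), (7, 1), (8, -1), (9, 31), (10, -31), (11, -1), (12, 1), (13,
    -1), (14, 2), (15, -4), (16, -26), (17, -2), (18, 1), (19, 9), (20, -9), (21, 9), (25, -5),
    (26, 10), (27, -3), (29, -6), (31, 27), (32, 18), (33, -7), (34, 6), (37, -29), (42, 4),
    (45, -2), (46, -6), (51, -1), (53, -30), (55, 32), (58, -1), (59, 2), (60, 30), (61, 28),
    (62, 1), (63, -10), (66, -9), (69, 5), (70, -5), (71, -7), (72, 3), (73, 6), (74, 6), (75,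
    -27), (76, -45), (77, -11), (78, 1), (79, -6), (81, 29), (82, 29), (86, -4), (87, -4), (89,
    -4), (90, 2), (91, 2), (93, -6), (94, -2), (95, -2), (96, -12), (98, -12), (99, 2), (100,
    -1), (101, -32), (102, -15), (103, -9), (104, 5), (105, 6), (106, -3), (107, 12), (108, -6),
    (109, 3), (112, -6), (114, -6), (115, -33), (116, -11), (117, -18), (118, -4), (120, 30),
    (121, 27), (128, -39), (129, -9), (130, 29), (131, -2), (132, -1), (133, 34), (135, -6),
    (136, 27), (138, 67), (139, -34), (140, 31), (142, -4), (143, -39), (144, 41), (145, 72),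
    (146, -8), (147, -36), (148, 12), (149, -9), (150, -5), (151, 8), (152, -4), (153, 1), (155,
    28), (156, 25), (157, 45), (158, 58), (159, 5), (160, 2), (162, 11), (163, 60), (165, -4),
    (167, 9), (168, 72), (169, 24), (170, -5), (171, -1), (172, -8), (173, -19), (174, -9),
    (176, 58), (182, 54), (184, -5), (185, 29), (187, -10), (188, 5), (189, 4), (190, -3), (191,
    4), (192, -6), (193, 29), (195, 6), (198, -30), (199, 4)], []), (119, 2, [(9, -4), (10, 4),
    (17, 2), (18, -1), (32, -4), (33, 1), (34, -2), (37, 4), (53, 4), (55, -4), (61, -2), (62,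
    -1), (63, 1), (76, 4), (77, 3), (78, 1), (79, 2), (81, -4), (82, -4), (95, 2), (96, 4), (98,
    4), (99, -2), (101, 4), (102, 4), (112, 2), (114, 2), (115, 4), (116, 2), (118, 2), (128,
    7), (130, -7), (138, -8), (139, 4), (140, -4), (143, 4), (144, -4), (145, -8), (147, 1),
    (155, -2), (156, -2), (157, -4), (158, -8), (159, -3), (162, -3), (168, -4), (169, -4),
    (170, -3), (171, 1), (173, 1), (176, -8), (184, 3), (185, -4), (187, 2), (192, 2), (193,
    -4), (198, 5)], []), (144, 24, [(1, -24), (7, -37), (8, 37), (9, -67), (10, 67), (11, 19),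
    (12, -19), (13, 1), (14, -2), (15, 4), (16, 26), (17, -28), (18, 14), (19, -63), (20, 63),
    (21, -63), (25, 2), (26, -4), (27, 39), (31, -27), (33, 28), (34, -12), (35, 6), (36, -12),
    (37, 23), (42, 17), (45, -16), (46, 24), (51, 37), (53, 30), (55, -86), (57, 18), (58, 1),
    (59, -2), (60, -30), (61, 2), (62, 14), (63, 49), (66, 63), (69, -2), (70, 2), (71, -35),
    (72, -39), (75, 27), (76, 27), (77, -28), (78, -16), (79, 6), (80, 6), (81, -11), (82, -23),
    (86, -17), (87, -17), (89, 40), (90, 16), (91, 16), (94, 8), (95, 8), (96, 18), (98, 18),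
    (99, -8), (100, 37), (101, 86), (102, 15), (103, 63), (104, 37), (106, 3), (107, -48), (108,
    24), (109, -21), (112, -9), (114, -9), (115, 105), (116, 35), (117, 126), (118, -56), (120,
    -30), (121, -27), (128, 72), (129, 63), (130, 28), (131, 74), (132, 37), (133, -34), (135,
    78), (136, -27), (138, -97), (139, 13), (140, -1), (142, -17), (143, 33), (144, -23), (145,
    -90), (146, -34), (147, 81), (149, 63), (150, 2), (151, -44), (152, -17), (153, 17), (154,
    18), (155, 2), (156, 5), (157, -27), (158, -46), (159, 34), (160, -2), (162, 28), (163,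
    -78), (165, 22), (167, -63), (168, -54), (169, -21), (170, 8), (171, -14), (172, -34), (173,
    112), (174, 63), (176, -34), (182, -54), (184, -4), (185, -11), (187, -11), (188, -2), (189,
    74), (190, 39), (191, -22), (193, -23), (198, -15), (199, 17)], []), (146, 8, [(1, 4), (7,
    5), (8, -5), (9, 19), (10, -19), (11, -3), (12, 3), (13, -1), (14, 2), (15, -4), (16, 10),
    (17, -8), (18, 4), (19, 3), (20, -3), (21, 3), (25, 2), (26, -4), (27, -3), (31, -9), (32,
    20), (33, -6), (34, 12), (35, -6), (36, 4), (37, -15), (42, -5), (46, -4), (51, -5), (53,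
    -14), (55, 22), (57, -2), (58, -1), (59, 2), (60, -6), (61, -2), (62, 4), (63, -7), (66,
    -3), (69, -2), (70, 2), (71, 7), (72, 3), (75, 9), (76, -11), (77, -14), (78, -6), (79, -6),
    (80, 2), (81, 11), (82, 15), (86, 5), (87, 5), (89, -4), (90, -4), (93, 4), (94, 4), (95,
    -8), (96, -18), (98, -18), (99, 8), (100, -5), (101, -22), (102, -15), (103, -3), (104, -9),
    (106, -3), (107, 8), (108, -4), (109, 1), (112, -3), (114, -3), (115, -25), (116, -11),
    (117, -6), (118, -8), (120, -6), (121, -9), (128, -42), (129, -3), (130, 34), (131, -10),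
    (132, -5), (133, -2), (135, -6), (136, -9), (138, 29), (139, -9), (140, 5), (142, 5), (143,
    -9), (144, 15), (145, 34), (146, 10), (147, 1), (149, -3), (150, 2), (152, 5), (153, -1),
    (154, -2), (155, -2), (156, -5), (157, 11), (158, 30), (159, 8), (160, 2), (162, 14), (163,
    -14), (165, -2), (167, 3), (168, 2), (169, 17), (170, 22), (171, -4), (172, 10), (173, -10),
    (174, -3), (176, 26), (182, -18), (184, -18), (185, 11), (187, -1), (188, -2), (189, -10),
    (190, -3), (191, 2), (193, 15), (198, -11), (199, -5)], []), (151, 1, [(94, 1), (140, -1),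
    (198, 1)], []), (157, 18, [(7, -2), (8, 2), (9, 12), (10, -12), (11, 2), (12, -2), (13, 2),
    (14, -4), (15, 8), (16, -36), (17, -4), (18, 2), (19, -6), (20, 6), (21, -6), (25, -11),
    (26, 22), (27, -6), (31, 34), (32, -6), (33, 14), (37, -16), (38, 6), (39, -12), (42, 13),
    (51, 2), (53, -14), (55, 10), (58, 2), (59, -4), (60, 28), (61, 40), (62, 2), (63, 4), (66,
    6), (69, 11), (70, -11), (71, -16), (72, 6), (75, -34), (76, -28), (77, -8), (78, -14), (81,
    16), (82, 10), (83, 6), (84, 12), (86, -13), (87, -13), (90, 18), (100, 2), (101, -10),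
    (102, -16), (103, 6), (104, 20), (106, 6), (109, 6), (112, -13), (114, -13), (115, -8),
    (116, 2), (117, 12), (118, -22), (120, 28), (121, 34), (128, 6), (129, 6), (130, 2), (131,
    4), (132, 2), (133, 20), (135, -12), (136, 34), (138, 26), (139, -27), (140, 16), (142,
    -13), (143, -38), (144, 4), (145, 16), (146, -26), (147, -28), (149, 30), (150, -11), (151,
    -28), (152, -13), (153, -2), (155, 40), (156, 46), (157, 28), (158, 26), (159, 20), (160,
    -4), (162, 8), (163, 68), (165, -4), (167, -6), (168, 62), (169, -1), (170, -20), (171, -2),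
    (172, -26), (173, 10), (174, 6), (176, 32), (177, 24), (182, 68), (184, -14), (185, 16),
    (186, 12), (187, -13), (188, 11), (189, 10), (190, -6), (191, 4), (193, 4), (198, -30),
    (199, 13), (202, -12)], []), (158, 18, [(1, 18), (7, 7), (8, -7), (9, 21), (10, -21), (11,
    -7), (12, 7), (13, -7), (14, 14), (15, -28), (17, 14), (18, -7), (19, 21), (20, -21), (21,
    21), (25, 7), (26, -14), (27, 3), (31, 7), (32, 12), (33, -13), (37, -7), (38, -12), (39,
    6), (42, -14), (45, -18), (46, -18), (51, -7), (53, -14), (55, 28), (58, -7), (59, 14), (60,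
    28), (61, -14), (62, -7), (63, -14), (66, -21), (69, -7), (70, 7), (71, 11), (72, -3), (75,
    -7), (76, -19), (77, 1), (78, 13), (81, 7), (82, 19), (83, 6), (84, -6), (86, 14), (87, 14),
    (91, 18), (100, -7), (101, -28), (102, 29), (103, -21), (104, -25), (106, -21), (107, 36),
    (108, -18), (109, -3), (112, 14), (114, 14), (115, -35), (116, -7), (117, -42), (118, 14),
    (120, 28), (121, 7), (128, -39), (129, -21), (130, 11), (131, -14), (132, -7), (133, 56),
    (135, 6), (136, 7), (138, 35), (140, 7), (142, 14), (143, 7), (144, 31), (145, 52), (146,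
    28), (147, -10), (149, -33), (150, 7), (151, 26), (152, 14), (153, 7), (155, -14), (156,
    -35), (157, 19), (158, 26), (159, -43), (160, 14), (162, -1), (163, 32), (165, -4), (167,
    21), (168, 26), (169, 26), (170, 7), (171, 7), (172, 28), (173, -35), (174, -21), (176, 14),
    (177, -12), (182, 14), (184, 13), (185, 7), (186, -6), (187, 14), (188, -7), (189, -8),
    (190, 3), (191, 4), (193, 31), (198, 6), (199, -14), (202, 6)], []), (159, 6, [(7, -1), (8,
    1), (9, -3), (10, 3), (11, 1), (12, -1), (13, 1), (14, -2), (15, 4), (17, -2), (18, 1), (19,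
    -3), (20, 3), (21, -3), (25, -1), (26, 2), (27, -3), (31, -1), (33, 1), (37, 1), (42, 2),
    (45, 6), (51, 1), (53, 2), (55, -4), (58, 1), (59, -2), (60, -4), (61, 2), (62, 1), (63, 2),
    (66, 3), (69, 1), (70, -1), (71, 1), (72, 3), (75, 1), (76, 1), (77, -1), (78, -1), (81,
    -1), (82, -1), (86, -2), (87, -2), (89, -6), (90, -6), (91, -6), (100, 1), (101, 4), (102,
    -5), (103, 3), (104, 1), (106, 3), (109, 3), (112, -2), (114, -2), (115, 5), (116, 1), (117,
    6), (118, -2), (120, -4), (121, -1), (128, 3), (129, 3), (130, 1), (131, 2), (132, 1), (133,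
    -8), (135, -6), (136, -1), (138, -5), (140, -1), (142, -2), (143, -1), (144, -1), (145, -4),
    (146, -4), (147, 4), (149, 3), (150, -1), (151, -2), (152, -2), (153, -1), (155, 2), (156,
    5), (157, -1), (158, -2), (159, 7), (160, -2), (162, 1), (163, -2), (165, -2), (167, -3),
    (168, -2), (169, -2), (170, -1), (171, -1), (172, -4), (173, 5), (174, 3), (176, -2), (182,
    -2), (184, -1), (185, -1), (187, -2), (188, 1), (189, -4), (190, -3), (191, 2), (193, -1),
    (199, 2)], []), (177, 24, [(1, 12), (7, 19), (8, -19), (9, 37), (10, -37), (11, -9), (12,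
    9), (13, 1), (14, -2), (15, 4), (16, -42), (17, -12), (18, 6), (19, 21), (20, -21), (21,
    21), (25, -10), (26, 20), (27, -29), (31, 49), (32, -4), (33, -8), (34, 4), (35, -2), (36,
    4), (37, -25), (42, 25), (43, -12), (45, 8), (46, -12), (51, -19), (53, -18), (55, 46), (57,
    -10), (58, 1), (59, -2), (60, 38), (61, 54), (62, 6), (63, -27), (66, -21), (69, 10), (70,
    -10), (71, 9), (72, 29), (75, -49), (76, -45), (77, 12), (78, 4), (79, -2), (80, -2), (81,
    21), (82, 25), (86, -25), (87, -13), (88, 12), (89, -20), (90, 4), (91, -8), (93, -12), (94,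
    -28), (95, 8), (96, -6), (98, -6), (99, -8), (100, -19), (101, -46), (102, -21), (103, -21),
    (104, -7), (106, 11), (107, 24), (108, -12), (109, 23), (112, -17), (114, -17), (115, -55),
    (116, -33), (117, -42), (118, 20), (120, 38), (121, 49), (128, -24), (129, -21), (130, -16),
    (131, -38), (132, -19), (133, 34), (135, -58), (136, 49), (138, 67), (139, -31), (140, 27),
    (142, -13), (143, -87), (144, 25), (145, 62), (146, -50), (147, -59), (149, -21), (150,
    -10), (151, 12), (152, -1), (153, -11), (154, -10), (155, 54), (156, 57), (157, 45), (158,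
    50), (159, -6), (160, -2), (162, -12), (163, 110), (165, -18), (166, -12), (167, 21), (168,
    94), (169, 15), (170, -20), (171, -6), (172, -38), (173, -48), (174, -21), (176, 46), (182,
    98), (185, 21), (187, -27), (188, 10), (189, -38), (190, -29), (191, 18), (193, 25), (198,
    -23), (199, 25), (201, -12)], []), (45, 1, [(115, 1)], [(17, 1)]), (77, 1, [(116, -1)],
    [(17, 1)]), (89, 1, [(117, -1)], [(17, 1)]), (133, 1, [(118, -1)], [(17, 1)]), (8, 1, [(107,
    1)], [(32, 1)]), (64, 1, [(133, -1)], [(32, 1)]), (112, 1, [(135, 1)], [(32, 1)]), (124, 1,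
    [(136, 1)], [(32, 1)]), (1, 1, [(96, -1)], [(57, 1)]), (13, 1, [(111, 1)], [(57, 1)]), (129,
    1, [(157, 1)], [(57, 1)]), (153, 1, [(158, -1)], [(57, 1)]), (141, 1, [(98, -1)], [(1, 1)]),
    (93, 1, [(179, -1)], [(129, 1)]), (25, 1, [(126, 1)], [(141, 1)]), (15, 1, [(112, -1)],
    [(71, 1)]), (27, 1, [(124, 1)], [(71, 1)]), (131, 1, [(168, 1)], [(71, 1)])]

def st2 : List Step := [
    (155, 1, [(169, -1)], [(71, 1)]), (171, 1, [(114, -1)], [(15, 1)]), (107, 1, [(188, 1)],
    [(155, 1)]), (3, 1, [(99, 1)], [(171, 1)]), (52, 1, [(154, -1)], [(144, 1)]), (96, 1, [(183,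
    1)], [(144, 1)]), (164, 1, [(200, 1)], [(144, 1)]), (176, 1, [(201, 1)], [(144, 1)]), (20,
    1, [(119, 1)], [(52, 1)]), (29, 1, [(100, -1)], [(5, 1)]), (109, 1, [(104, 1)], [(5, 1)]),
    (121, 1, [(105, -1)], [(5, 1)]), (61, 1, [(160, -1)], [(109, 1)]), (47, 1, [(101, 1)], [(7,
    1)]), (79, 1, [(102, -1)], [(7, 1)]), (91, 1, [(103, -1)], [(7, 1)]), (63, 1, [(159, 1)],
    [(79, 1)]), (135, 1, [(162, 1)], [(63, 1)]), (9, 1, [(106, -1)], [(21, 1)]), (65, 1, [(120,
    -1)], [(21, 1)]), (125, 1, [(121, 1)], [(21, 1)]), (145, 1, [(109, -1)], [(9, 1)]), (113, 1,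
    [(190, 1)], [(145, 1)]), (46, 1, [(128, 1)], [(30, 1)]), (90, 1, [(129, -1)], [(30, 1)]),
    (134, 1, [(130, 1)], [(30, 1)]), (110, 1, [(147, -1)], [(46, 1)]), (122, 1, [(148, -1)],
    [(46, 1)]), (78, 1, [(173, -1)], [(110, 1)]), (53, 1, [(132, -1)], [(33, 1)])]

def st3 : List Step := [
    (97, 1, [(134, 1)], [(33, 1)]), (165, 1, [(137, 1)], [(33, 1)]), (98, 1, [(163, 1)], [(66,
    1)]), (166, 1, [(165, 1)], [(66, 1)]), (178, 1, [(166, 1)], [(66, 1)]), (10, 1, [(108, -1)],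
    [(98, 1)]), (126, 1, [(182, 1)], [(98, 1)]), (114, 1, [(191, -1)], [(166, 1)]), (54, 1,
    [(153, -1)], [(114, 1)]), (12, 1, [(113, 1)], [(80, 1)]), (24, 1, [(125, 1)], [(80, 1)]),
    (128, 1, [(174, 1)], [(80, 1)]), (40, 1, [(145, -1)], [(128, 1)]), (116, 1, [(144, -1)],
    [(40, 1)]), (152, 1, [(193, -1)], [(116, 1)]), (74, 1, [(170, -1)], [(102, 1)]), (138, 1,
    [(184, -1)], [(102, 1)]), (162, 1, [(186, -1)], [(102, 1)]), (174, 1, [(172, -1)], [(74,
    1)]), (75, 1, [(171, 1)], [(151, 1)]), (139, 1, [(198, -1)], [(151, 1)]), (163, 1, [(202,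
    1)], [(151, 1)]), (39, 1, [(140, 1)], [(139, 1)]), (31, 1, [(131, -1)], [(159, 1)]), (111,
    1, [(189, 1)], [(159, 1)]), (123, 1, [(195, -1)], [(159, 1)]), (100, 1, [(139, 1)], [(36,
    1)]), (172, 1, [(142, -1)], [(36, 1)]), (148, 1, [(185, -1)], [(100, 1)]), (69, 1, [(143,
    1)], [(41, 1)])]

def st4 : List Step := [
    (169, 1, [(146, -1)], [(41, 1)]), (81, 1, [(167, -1)], [(69, 1)]), (84, 1, [(149, -1)],
    [(48, 1)]), (136, 1, [(151, -1)], [(48, 1)]), (160, 1, [(177, -1)], [(84, 1)]), (103, 1,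
    [(150, 1)], [(51, 1)]), (175, 1, [(152, -1)], [(51, 1)]), (68, 1, [(155, -1)], [(56, 1)]),
    (104, 1, [(156, 1)], [(56, 1)]), (140, 1, [(187, -1)], [(104, 1)]), (168, 1, [(199, 1)],
    [(140, 1)]), (92, 1, [(181, 1)], [(168, 1)]), (38, 1, [(138, 1)], [(86, 1)]), (150, 1,
    [(176, -1)], [(86, 1)]), (143, 1, [(192, -1)], [(119, 1)]), (2, 1, [(44, 1)], [(0, -1), (1,
    -1), (3, -1)]), (4, 1, [(45, 1)], [(5, -1), (6, -1), (7, -1)]), (11, 1, [(46, 1)], [(8, -1),
    (9, -1), (10, -1)]), (14, 1, [(47, 1)], [(12, -1), (13, -1), (15, -1)]), (16, 1, [(48, 1)],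
    [(17, -1), (18, -1), (19, -1)]), (23, 1, [(49, 1)], [(20, -1), (21, -1), (22, -1)]), (26, 1,
    [(50, 1)], [(24, -1), (25, -1), (27, -1)]), (28, 1, [(51, 1)], [(29, -1), (30, -1), (31,
    -1)]), (35, 1, [(52, 1)], [(32, -1), (33, -1), (34, -1)]), (37, 1, [(53, 1)], [(36, -1),
    (38, -1), (39, -1)]), (42, 1, [(54, 1)], [(40, -1), (41, -1), (43, -1)]), (44, 1, [(55, 1)],
    [(45, -1), (46, -1), (47, -1)]), (49, 1, [(56, 1)], [(48, -1), (50, -1), (51, -1)]), (55, 1,
    [(57, 1)], [(52, -1), (53, -1), (54, -1)]), (58, 1, [(58, 1)], [(56, -1), (57, -1), (59,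
    -1)])]

def st5 : List Step := [
    (60, 1, [(59, 1)], [(61, -1), (62, -1), (63, -1)]), (67, 1, [(60, 1)], [(64, -1), (65, -1),
    (66, -1)]), (70, 1, [(61, 1)], [(68, -1), (69, -1), (71, -1)]), (73, 1, [(62, 1)], [(72,
    -1), (74, -1), (75, -1)]), (76, 1, [(63, 1)], [(77, -1), (78, -1), (79, -1)]), (82, 1, [(64,
    1)], [(80, -1), (81, -1), (83, -1)]), (85, 1, [(65, 1)], [(84, -1), (86, -1), (87, -1)]),
    (88, 1, [(66, 1)], [(89, -1), (90, -1), (91, -1)]), (94, 1, [(67, 1)], [(92, -1), (93, -1),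
    (95, -1)]), (99, 1, [(68, 1)], [(96, -1), (97, -1), (98, -1)]), (101, 1, [(69, 1)], [(100,
    -1), (102, -1), (103, -1)]), (106, 1, [(70, 1)], [(104, -1), (105, -1), (107, -1)]), (108,
    1, [(71, 1)], [(109, -1), (110, -1), (111, -1)]), (115, 1, [(72, 1)], [(112, -1), (113, -1),
    (114, -1)]), (118, 1, [(73, 1)], [(116, -1), (117, -1), (119, -1)]), (120, 1, [(74, 1)],
    [(121, -1), (122, -1), (123, -1)]), (127, 1, [(75, 1)], [(124, -1), (125, -1), (126, -1)]),
    (130, 1, [(76, 1)], [(128, -1), (129, -1), (131, -1)]), (132, 1, [(77, 1)], [(133, -1),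
    (134, -1), (135, -1)]), (137, 1, [(78, 1)], [(136, -1), (138, -1), (139, -1)]), (142, 1,
    [(79, 1)], [(140, -1), (141, -1), (143, -1)]), (147, 1, [(80, 1)], [(144, -1), (145, -1),
    (146, -1)]), (149, 1, [(81, 1)], [(148, -1), (150, -1), (151, -1)]), (154, 1, [(82, 1)],
    [(152, -1), (153, -1), (155, -1)]), (156, 1, [(83, 1)], [(157, -1), (158, -1), (159, -1)]),
    (161, 1, [(84, 1)], [(160, -1), (162, -1), (163, -1)]), (167, 1, [(85, 1)], [(164, -1),
    (165, -1), (166, -1)]), (170, 1, [(86, 1)], [(168, -1), (169, -1), (171, -1)]), (173, 1,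
    [(87, 1)], [(172, -1), (174, -1), (175, -1)]), (179, 1, [(88, 1)], [(176, -1), (177, -1),
    (178, -1)])]

def C : CD where
  n := 44
  cl := cl
  X := X
  Y := Y
  K := K
  w := w
  cs := cs
  steps := st0 ++ st1 ++ st2 ++ st3 ++ st4 ++ st5
  i0 := 1
  i1 := 9
  i2 := 0


theorem ok1 : C.checkCts = true := by decide +kernel
theorem ok2 : C.checkBase = true := by decide +kernel
theorem ok3 : C.checkStress' = true := by decide +kernel
theorem ok4 : C.checkSteps' = true := by decide +kernel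

theorem ok : C.Ok := ⟨ok1, ok2, ok3, ok4⟩

end D44
end Pool.Agent.H282R2
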