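import Pool.Agent.H282R2.Tetra

/-!
Genericity: polynomial families of chains that are simple at one parameter value are simple for all
small positive parameter values.
-/

set_option autoImplicit false
set_option maxHeartbeats 1000000

namespace Pool.Agent.H282R2

open Filter Topology Polynomial

/-- real functions given by a polynomial -/
def IsPF (f : ℝ → ℝ) : Prop := ∃ p : ℝ[X], ∀ x, f x = p.eval x

theorem IsPF.const (c : ℝ) : IsPF fun _ => c := ⟨C c, fun x => by simp⟩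
theorem IsPF.id : IsPF fun x => x := ⟨X, fun x => by simp⟩
theorem IsPF.add {f g : ℝ → ℝ} (hf : IsPF f) (hg : IsPF g) : IsPF fun x => f x + g x := by
  obtain ⟨p, hp⟩ := hf
  obtain ⟨q, hq⟩ := hg
  exact ⟨p + q, fun x => by rw [eval_add, ← hp, ← hq]⟩
theorem IsPF.sub {f g : ℝ → ℝ} (hf : IsPF f) (hg : IsPF g) : IsPF fun x => f x - g x := by
  obtain ⟨p, hp⟩ := hf
  obtain ⟨q, hq⟩ := hg
  exact ⟨p - q, fun x => by rw [eval_sub, ← hp, ← hq]⟩
theorem IsPF.mul {f g : ℝ → ℝ} (hf : IsPF f) (hg : IsPF g) : IsPF fun x => f x * g x := by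
  obtain ⟨p, hp⟩ := hf
  obtain ⟨q, hq⟩ := hg
  exact ⟨p * q, fun x => by rw [eval_mul, ← hp, ← hq]⟩

theorem IsPF.ev {f : ℝ → ℝ} (hf : IsPF f) (h1 : f 1 ≠ 0) : ∀ᶠ η in 𝓝[>] (0 : ℝ), f η ≠ 0 := by
  obtain ⟨p, hp⟩ := hf
  have hp0 : p ≠ 0 := by
    rintro rfl
    apply h1
    rw [hp]; simp
  have hfin : (p.roots.toFinset : Set ℝ).Finite := p.roots.toFinset.finite_toSet
  have hcl : IsClosed ((p.roots.toFinset : Set ℝ) \ {0}) := (hfin.sdiff).isClosed
  have hmem : ((p.roots.toFinset : Set ℝ) \ {0})ᶜ ∈ 𝓝 (0 : ℝ) :=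
    hcl.isOpen_compl.mem_nhds (by simp)
  filter_upwards [mem_nhdsWithin_of_mem_nhds hmem, self_mem_nhdsWithin] with η h2 h3 h4
  apply h2
  refine ⟨?_, ne_of_gt h3⟩
  rw [Finset.mem_coe, Multiset.mem_toFinset, mem_roots hp0, IsRoot.def, ← hp]
  exact h4

/-- vector functions given by polynomials -/
def IsPV (f : ℝ → E3) : Prop := IsPF (fun x => f x 0) ∧ IsPF (fun x => f x 1) ∧ IsPF (fun x => f x 2)

theorem IsPV.sub {f g : ℝ → E3} (hf : IsPV f) (hg : IsPV g) : IsPV fun x => f x - g x :=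
  ⟨hf.1.sub hg.1, hf.2.1.sub hg.2.1, hf.2.2.sub hg.2.2⟩

theorem IsPV.cr {f g : ℝ → E3} (hf : IsPV f) (hg : IsPV g) : IsPV fun x => cr (f x) (g x) :=
  ⟨(hf.2.1.mul hg.2.2).sub (hf.2.2.mul hg.2.1), (hf.2.2.mul hg.1).sub (hf.1.mul hg.2.2),
    (hf.1.mul hg.2.1).sub (hf.2.1.mul hg.1)⟩

theorem IsPV.dt {f g h : ℝ → E3} (hf : IsPV f) (hg : IsPV g) (hh : IsPV h) :
    IsPF fun x => dt (f x) (g x) (h x) := by
  have := (((hf.cr hg).1.mul hh.1).add ((hf.cr hg).2.1.mul hh.2.1)).add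
    ((hf.cr hg).2.2.mul hh.2.2)
  have e : (fun x => Pool.Agent.H282R2.dt (f x) (g x) (h x)) = fun x =>
      Pool.Agent.H282R2.cr (f x) (g x) 0 * h x 0 + Pool.Agent.H282R2.cr (f x) (g x) 1 * h x 1
        + Pool.Agent.H282R2.cr (f x) (g x) 2 * h x 2 := by
    funext x
    rw [dt_eq_inner_cr, inner3]
  rw [e]; exact this

theorem isPV_pos {V Λ K : Type} (A : Arr V Λ K) (v : V) : IsPV fun η => A.pos η v := by
  have h : ∀ i : Fin 3, IsPF fun η => A.pos η v i := by
    intro i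
    have := (IsPF.const (A.P v i)).add ((IsPF.id.mul IsPF.id).mul
      ((IsPF.const (A.X v i)).add (IsPF.id.mul (IsPF.const (A.Y v i)))))
    have e : (fun η => A.pos η v i) = fun η => A.P v i + η * η * (A.X v i + η * A.Y v i) := by
      funext η
      simp [Arr.pos]
      ring
    rw [e]; exact this
  exact ⟨h 0, h 1, h 2⟩

theorem disjoint_of_dt {a b c d : E3} (h : dt (b - a) (d - c) (c - a) ≠ 0) :
    Disjoint (segment ℝ a b) (segment ℝ c d) := by
  rw [Set.disjoint_left]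
  intro x hx hy
  rw [segment_eq_image'] at hx hy
  obtain ⟨s, _, hs⟩ := hx
  obtain ⟨t, _, ht⟩ := hy
  apply h
  simp only at hs ht
  have e : c - a = s • (b - a) + (-t) • (d - c) := by
    have : c - a = (a + s • (b - a)) - (c + t • (d - c)) + (c - a) := by rw [hs, ht]; simp
    rw [this]; module
  rw [e, dt_add_3, dt_smul_3, dt_smul_3, dt_self_13, dt_self_23]; ring

theorem inter_of_cr {a b c : E3} (h : cr (b - a) (c - b) ≠ 0) :
    segment ℝ a b ∩ segment ℝ b c = {b} := by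
  apply Set.eq_singleton_iff_unique_mem.2
  refine ⟨⟨right_mem_segment ℝ a b, left_mem_segment ℝ b c⟩, ?_⟩
  rintro x ⟨hx, hy⟩
  rw [segment_eq_image'] at hx hy
  obtain ⟨s, _, hs⟩ := hx
  obtain ⟨t, _, ht⟩ := hy
  simp only at hs ht
  have e : (1 - s) • (b - a) = (-t) • (c - b) := by
    have : (1 - s) • (b - a) = b - (a + s • (b - a)) := by module
    rw [this, hs, ← ht]; module
  have e1 : cr ((1 - s) • (b - a)) (c - b) = 0 := by
    rw [e, cr_smul_1, cr_self, smul_zero]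
  rw [cr_smul_1, smul_eq_zero] at e1
  have e2 : 1 - s = 0 := e1.resolve_right h
  rw [← hs]
  have : s = 1 := by linarith
  rw [this]; module

namespace CD

variable (C : CD)

/-- position of vertex `v` at parameter `1` -/
def posZ (v : ℕ) : I3 := I3.add (Pt (C.clA v)) (I3.add (C.XA v) (C.YA v))

def checkFar (i j : ℕ) : Bool :=
  (I3.det (I3.sub (C.posZ (i + 1)) (C.posZ i)) (I3.sub (C.posZ (j + 1)) (C.posZ j))
    (I3.sub (C.posZ j) (C.posZ i))) != 0

def checkNear (i : ℕ) : Bool :=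
  (I3.cross (I3.sub (C.posZ (i + 1)) (C.posZ i)) (I3.sub (C.posZ (i + 2)) (C.posZ (i + 1)))) !=
    (0, 0, 0)

def checkSimple : Bool :=
  (List.range C.n).all (fun j => (List.range (j - 1)).all fun i => C.checkFar i j) &&
  (List.range (C.n - 1)).all fun i => C.checkNear i

variable {C}

theorem pos_one (v : Fin (C.n + 1)) : C.arr.pos 1 v = toE (C.posZ v) := by
  show toE (Pt (C.clA v)) + (1 : ℝ) ^ 2 • (toE (C.XA v) + (1 : ℝ) • toE (C.YA v)) = _
  rw [posZ, toE_add, toE_add]; simp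

theorem ev_far (h : C.checkSimple = true) (i j : Fin C.n) (hij : (i : ℕ) + 1 < j) :
    ∀ᶠ η in 𝓝[>] (0 : ℝ), Disjoint (segment ℝ (C.arr.pos η i.castSucc) (C.arr.pos η i.succ))
      (segment ℝ (C.arr.pos η j.castSucc) (C.arr.pos η j.succ)) := by
  have h1 : IsPF fun η => dt (C.arr.pos η i.succ - C.arr.pos η i.castSucc)
      (C.arr.pos η j.succ - C.arr.pos η j.castSucc)
      (C.arr.pos η j.castSucc - C.arr.pos η i.castSucc) :=
    ((isPV_pos _ _).sub (isPV_pos _ _)).dt ((isPV_pos _ _).sub (isPV_pos _ _))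
      ((isPV_pos _ _).sub (isPV_pos _ _))
  have h2 := h1.ev (by
    simp only [pos_one]
    rw [← toE_sub, ← toE_sub, ← toE_sub, dt_toE]
    simp only [checkSimple, Bool.and_eq_true, List.all_eq_true, List.mem_range] at h
    have h3 := h.1 j j.2 i (by omega)
    simp only [checkFar, bne_iff_ne] at h3
    exact_mod_cast h3)
  filter_upwards [h2] with η h3
  exact disjoint_of_dt h3

theorem ev_near (h : C.checkSimple = true) (i j : Fin C.n) (hij : (i : ℕ) + 1 = j) :
    ∀ᶠ η in 𝓝[>] (0 : ℝ), segment ℝ (C.arr.pos η i.castSucc) (C.arr.pos η i.succ) ∩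
      segment ℝ (C.arr.pos η j.castSucc) (C.arr.pos η j.succ) = {C.arr.pos η j.castSucc} := by
  have hj : j.castSucc = i.succ := by
    apply Fin.ext; simp [← hij]
  have h1 := ((isPV_pos C.arr i.succ).sub (isPV_pos C.arr i.castSucc)).cr
    ((isPV_pos C.arr j.succ).sub (isPV_pos C.arr i.succ))
  have h0 : cr (C.arr.pos 1 i.succ - C.arr.pos 1 i.castSucc)
      (C.arr.pos 1 j.succ - C.arr.pos 1 i.succ) ≠ 0 := by
    simp only [pos_one]
    rw [← toE_sub, ← toE_sub, ← toE_cross]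
    simp only [checkSimple, Bool.and_eq_true, List.all_eq_true, List.mem_range] at h
    have h3 := h.2 i (by have := j.2; omega)
    simp only [checkNear, bne_iff_ne] at h3
    intro e
    have : toE (0, 0, 0) = 0 := by apply ext3 <;> simp
    rw [← this] at e
    apply h3
    have e2 := toE_inj e
    simp only [Fin.val_succ, Fin.val_castSucc, ← hij] at e2
    exact e2
  have h4 : ∀ᶠ η in 𝓝[>] (0 : ℝ), cr (C.arr.pos η i.succ - C.arr.pos η i.castSucc)
      (C.arr.pos η j.succ - C.arr.pos η i.succ) ≠ 0 := by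
    by_cases c0 : cr (C.arr.pos 1 i.succ - C.arr.pos 1 i.castSucc)
      (C.arr.pos 1 j.succ - C.arr.pos 1 i.succ) 0 = 0
    · by_cases c1 : cr (C.arr.pos 1 i.succ - C.arr.pos 1 i.castSucc)
        (C.arr.pos 1 j.succ - C.arr.pos 1 i.succ) 1 = 0
      · have c2 : cr (C.arr.pos 1 i.succ - C.arr.pos 1 i.castSucc)
          (C.arr.pos 1 j.succ - C.arr.pos 1 i.succ) 2 ≠ 0 := by
          intro c2
          exact h0 (ext3 (by rw [c0]; rfl) (by rw [c1]; rfl) (by rw [c2]; rfl))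
        filter_upwards [h1.2.2.ev c2] with η h5 h6
        exact h5 (by rw [h6]; rfl)
      · filter_upwards [h1.2.1.ev c1] with η h5 h6
        exact h5 (by rw [h6]; rfl)
    · filter_upwards [h1.1.ev c0] with η h5 h6
      exact h5 (by rw [h6]; rfl)
  filter_upwards [h4] with η h5
  rw [hj]
  exact inter_of_cr h5

end CD

end Pool.Agent.H282R2
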