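import Pool.Agent.H282R2.Data44
import Pool.Agent.H282R2.Simple

/-!
The 44-link chains running along the edges of a regular tetrahedron are trapped and simple, and
their link lengths are nearly equal.
-/

set_option autoImplicit false
set_option maxHeartbeats 1000000
set_option maxRecDepth 100000

namespace Pool.Agent.H282R2
namespace D44

open Filter Topology

theorem ok5 : C.checkSimple = true := by decide +kernel

theorem ok6 : ((List.range 44).all fun v => I3.dot (C.Dz v (v + 1)) (C.Dz v (v + 1)) == 2) =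
    true := by decide +kernel

theorem norm_D (i : Fin 44) : ‖C.arr.P (Fin.succ i) - C.arr.P (Fin.castSucc i)‖ = Real.sqrt 2 := by
  have h := ok6
  rw [List.all_eq_true] at h
  have h1 := h i (List.mem_range.2 i.2)
  rw [beq_iff_eq] at h1
  have h2 : C.arr.P (Fin.succ i) - C.arr.P (Fin.castSucc i) = toE (C.Dz i (i + 1)) := by
    rw [CD.Dz, toE_sub]; rfl
  rw [h2]
  symm
  rw [Real.sqrt_eq_iff_mul_self_eq (by norm_num) (norm_nonneg _), ← pow_two, norm_sq3]
  simp only [toE_0, toE_1, toE_2]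
  rw [I3.dot] at h1
  exact_mod_cast h1.symm

theorem tendsto_len (i : Fin 44) :
    Tendsto (fun η => ‖C.arr.pos η (Fin.succ i) - C.arr.pos η (Fin.castSucc i)‖) (𝓝[>] (0 : ℝ))
      (𝓝 (Real.sqrt 2)) := by
  have hc : Continuous fun η : ℝ => ‖C.arr.pos η (Fin.succ i) - C.arr.pos η (Fin.castSucc i)‖ := by
    unfold Arr.pos; fun_prop
  have h0 := hc.tendsto 0
  have e : ‖C.arr.pos 0 (Fin.succ i) - C.arr.pos 0 (Fin.castSucc i)‖ = Real.sqrt 2 := by
    rw [← norm_D i]; simp [Arr.pos]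
  rw [e] at h0
  exact h0.mono_left nhdsWithin_le_nhds

theorem ev_simple : ∀ᶠ η in 𝓝[>] (0 : ℝ),
    (∀ i j : Fin 44, (i : ℕ) + 1 < j →
      Disjoint (segment ℝ (C.arr.pos η i.castSucc) (C.arr.pos η i.succ))
        (segment ℝ (C.arr.pos η j.castSucc) (C.arr.pos η j.succ))) ∧
    (∀ i j : Fin 44, (i : ℕ) + 1 = j →
      segment ℝ (C.arr.pos η i.castSucc) (C.arr.pos η i.succ) ∩
        segment ℝ (C.arr.pos η j.castSucc) (C.arr.pos η j.succ) = {C.arr.pos η j.castSucc}) := by
  refine Filter.Eventually.and ?_ ?_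
  · refine eventually_all.2 fun i => eventually_all.2 fun j => ?_
    by_cases h : (i : ℕ) + 1 < j
    · filter_upwards [CD.ev_far (C := C) ok5 i j h] with η h1 _ using h1
    · exact Eventually.of_forall fun η h1 => absurd h1 h
  · refine eventually_all.2 fun i => eventually_all.2 fun j => ?_
    by_cases h : (i : ℕ) + 1 = j
    · filter_upwards [CD.ev_near (C := C) ok5 i j h] with η h1 _ using h1
    · exact Eventually.of_forall fun η h1 => absurd h1 h

/-- a contact pair is a pair of distant links -/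
theorem contact_disjoint (q : Fin 45 → E3)
    (hq : ∀ i j : Fin 44, (i : ℕ) + 1 < j →
      Disjoint (segment ℝ (q i.castSucc) (q i.succ)) (segment ℝ (q j.castSucc) (q j.succ)))
    (k : Fin C.K.length) :
    Disjoint (segment ℝ (q (C.arr.ci k)) (q (C.arr.ci' k)))
      (segment ℝ (q (C.arr.cj k)) (q (C.arr.cj' k))) := by
  have hk := CD.ctOk ok k
  have key : ∀ a b : ℕ, ∀ (ha : a ≤ 44) (hb : b ≤ 44), (b = a + 1 ∨ a = b + 1) →
      ∃ i : Fin 44, (i : ℕ) = min a b ∧
        segment ℝ (q (C.vx a)) (q (C.vx b)) = segment ℝ (q i.castSucc) (q i.succ) := by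
    intro a b ha hb hab
    have va : ((C.vx a : Fin 45) : ℕ) = a := C.vx_val a ha
    have vb : ((C.vx b : Fin 45) : ℕ) = b := C.vx_val b hb
    rcases hab with h | h
    · refine ⟨⟨a, by omega⟩, by simp; omega, ?_⟩
      have e1 : (C.vx a : Fin 45) = Fin.castSucc (⟨a, by omega⟩ : Fin 44) := Fin.ext va
      have e2 : (C.vx b : Fin 45) = Fin.succ (⟨a, by omega⟩ : Fin 44) :=
        Fin.ext (vb.trans h)
      rw [e1, e2]
    · refine ⟨⟨b, by omega⟩, by simp; omega, ?_⟩
      have e1 : (C.vx b : Fin 45) = Fin.castSucc (⟨b, by omega⟩ : Fin 44) := Fin.ext vb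
      have e2 : (C.vx a : Fin 45) = Fin.succ (⟨b, by omega⟩ : Fin 44) :=
        Fin.ext (va.trans h)
      rw [e1, e2, segment_symm]
  obtain ⟨i, hi, ei⟩ := key _ _ hk.hi hk.hi' hk.hi2
  obtain ⟨j, hj, ej⟩ := key _ _ hk.hj hk.hj' hk.hj2
  show Disjoint (segment ℝ (q (C.vx _)) (q (C.vx _))) (segment ℝ (q (C.vx _)) (q (C.vx _)))
  rw [ei, ej]
  rcases hk.hd with h | h
  · exact hq i j (by omega)
  · exact (hq j i (by omega)).symm

/-- no motion of the chain makes it straight -/
theorem ev_trap : ∀ᶠ η in 𝓝[>] (0 : ℝ), ∀ Q : unitInterval → Fin 45 → E3, Continuous Q →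
    Q 0 = C.arr.pos η →
    (∀ t (l : Fin 44), ‖Q t l.succ - Q t l.castSucc‖ =
      ‖C.arr.pos η (Fin.succ l) - C.arr.pos η (Fin.castSucc l)‖) →
    (∀ t, ∀ i j : Fin 44, (i : ℕ) + 1 < j →
      Disjoint (segment ℝ (Q t i.castSucc) (Q t i.succ))
        (segment ℝ (Q t j.castSucc) (Q t j.succ))) →
    ∀ t, cr (Q t (C.vx 9) - Q t (C.vx 1)) (Q t (C.vx 0) - Q t (C.vx 1)) ≠ 0 := by
  filter_upwards [Arr.trap (CD.good ok)] with η h Q hQ h0 hl hd t
  exact h Q hQ h0 hl (fun t k => contact_disjoint (Q t) (hd t) k) t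

end D44
end Pool.Agent.H282R2
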