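import Pool.Agent.H282R2.Trap3
import Pool.Agent.H282R2.Cert

/-!
Chains that run along the edges of a regular tetrahedron: integer data and the decidable check that
gives a good self-touching arrangement.
-/

set_option autoImplicit false
set_option maxHeartbeats 1000000

namespace Pool.Agent.H282R2

open Filter Topology

abbrev I3 : Type := ℤ × ℤ × ℤ

namespace I3

def add (a b : I3) : I3 := (a.1 + b.1, a.2.1 + b.2.1, a.2.2 + b.2.2)
def sub (a b : I3) : I3 := (a.1 - b.1, a.2.1 - b.2.1, a.2.2 - b.2.2)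
def smul (k : ℤ) (a : I3) : I3 := (k * a.1, k * a.2.1, k * a.2.2)
def cross (a b : I3) : I3 :=
  (a.2.1 * b.2.2 - a.2.2 * b.2.1, a.2.2 * b.1 - a.1 * b.2.2, a.1 * b.2.1 - a.2.1 * b.1)
def dot (a b : I3) : ℤ := a.1 * b.1 + a.2.1 * b.2.1 + a.2.2 * b.2.2
def det (a b c : I3) : ℤ := dot a (cross b c)

end I3

/-- an integer vector as a vector of Euclidean space -/
noncomputable def toE (a : I3) : E3 := !₂[(a.1 : ℝ), (a.2.1 : ℝ), (a.2.2 : ℝ)]

@[simp] theorem toE_0 (a : I3) : toE a 0 = a.1 := rfl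
@[simp] theorem toE_1 (a : I3) : toE a 1 = a.2.1 := rfl
@[simp] theorem toE_2 (a : I3) : toE a 2 = a.2.2 := rfl

theorem toE_add (a b : I3) : toE (I3.add a b) = toE a + toE b := by
  apply ext3 <;> simp [I3.add]
theorem toE_sub (a b : I3) : toE (I3.sub a b) = toE a - toE b := by
  apply ext3 <;> simp [I3.sub]
theorem toE_smul (k : ℤ) (a : I3) : toE (I3.smul k a) = (k : ℝ) • toE a := by
  apply ext3 <;> simp [I3.smul]
theorem toE_cross (a b : I3) : toE (I3.cross a b) = cr (toE a) (toE b) := by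
  apply ext3 <;> simp [I3.cross]
theorem dt_toE (a b c : I3) : dt (toE a) (toE b) (toE c) = ((I3.det a b c : ℤ) : ℝ) := by
  simp [dt, I3.det, I3.dot, I3.cross]
theorem toE_inj {a b : I3} (h : toE a = toE b) : a = b := by
  have h0 := congrArg (fun v : E3 => v 0) h
  have h1 := congrArg (fun v : E3 => v 1) h
  have h2 := congrArg (fun v : E3 => v 2) h
  simp only [toE_0, toE_1, toE_2, Int.cast_inj] at h0 h1 h2
  exact Prod.ext h0 (Prod.ext h1 h2)

theorem dt_eq_inner_cr (u v w : E3) : dt u v w = inner ℝ (cr u v) w := by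
  rw [inner3]; simp [dt]; ring

/-- vertices of a regular tetrahedron -/
def Pt : ℕ → I3
  | 0 => (0, 0, 0)
  | 1 => (1, 1, 0)
  | 2 => (1, 0, 1)
  | _ => (0, 1, 1)

/-- twice the gradients of the barycentric coordinates -/
def gt : ℕ → I3
  | 0 => (-1, -1, -1)
  | 1 => (1, 1, -1)
  | 2 => (1, -1, 1)
  | _ => (-1, 1, 1)

structure Ct where
  i : ℕ
  i' : ℕ
  j : ℕ
  j' : ℕ
  c : ℕ
  s : ℤ
  t : ℤ
  sg : ℤ
  sk : ℤ

structure CD where
  n : ℕ
  cl : List ℕ
  X : List I3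
  Y : List I3
  K : List Ct
  w : List ℤ
  cs : List (ℕ × ℤ)
  steps : List Step
  i0 : ℕ
  i1 : ℕ
  i2 : ℕ

namespace CD

variable (C : CD)

def clA (v : ℕ) : ℕ := C.cl.getD v 0
def XA (v : ℕ) : I3 := C.X.getD v (0, 0, 0)
def YA (v : ℕ) : I3 := C.Y.getD v (0, 0, 0)

def Dz (a b : ℕ) : I3 := I3.sub (Pt (C.clA b)) (Pt (C.clA a))

def barRow (v : ℕ) : Row :=
  [(4 * (v + 1) + C.clA (v + 1), 1), (4 * (v + 1) + C.clA v, -1), (4 * v + C.clA (v + 1), -1),
    (4 * v + C.clA v, 1)]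

def sumRow (v : ℕ) : Row := [(4 * v, 1), (4 * v + 1, 1), (4 * v + 2, 1), (4 * v + 3, 1)]

def gaugeRows : List Row :=
  [[(4 * C.i0, 1)], [(4 * C.i0 + 1, 1)], [(4 * C.i0 + 2, 1)], [(4 * C.i0 + 3, 1)],
    [(4 * C.i1 + 2, 1)], [(4 * C.i1 + 3, 1)], [(4 * C.i2 + 3, 1)]]

def conRow (k : Ct) : Row := [(4 * k.j + k.c, k.sk), (4 * k.i + k.c, -k.sk)]

def rows0 : List Row :=
  (List.range C.n).map C.barRow ++ ((List.range (C.n + 1)).map sumRow ++ C.gaugeRows)

def ineqs : List Row := C.K.map conRow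

def checkCt (k : Ct) : Bool :=
  decide (k.i ≤ C.n) && decide (k.i' ≤ C.n) && decide (k.j ≤ C.n) && decide (k.j' ≤ C.n) &&
  decide (k.c < 4) &&
  (C.clA k.i == C.clA k.j) &&
  (I3.sub (C.XA k.j) (C.XA k.i) ==
    I3.sub (I3.smul k.s (C.Dz k.i k.i')) (I3.smul k.t (C.Dz k.j k.j'))) &&
  decide (0 < k.s) && decide (0 < k.t) &&
  (I3.cross (C.Dz k.i k.i') (C.Dz k.j k.j') != (0, 0, 0)) &&
  (k.sg == 1 || k.sg == -1) &&
  decide (0 < k.sg * I3.det (C.Dz k.i k.i') (C.Dz k.j k.j') (I3.sub (C.YA k.j) (C.YA k.i))) &&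
  (I3.smul k.sg (I3.cross (C.Dz k.i k.i') (C.Dz k.j k.j')) == I3.smul k.sk (gt k.c)) &&
  (k.i' == k.i + 1 || k.i == k.i' + 1) && (k.j' == k.j + 1 || k.j == k.j' + 1) &&
  (decide (min k.i k.i' + 1 < min k.j k.j') || decide (min k.j k.j' + 1 < min k.i k.i'))

def checkCts : Bool := C.K.all C.checkCt

def checkBase : Bool :=
  decide (C.i0 ≤ C.n) && decide (C.i1 ≤ C.n) && decide (C.i2 ≤ C.n) &&
  (C.clA C.i0 == 0) && (C.clA C.i1 == 1) && (C.clA C.i2 == 2) &&
  (List.range (C.n + 1)).all (fun v => decide (C.clA v < 4))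

def checkStress' : Bool := checkStress C.rows0 C.ineqs C.w C.cs

def checkSteps' : Bool :=
  checkSteps (C.rows0 ++ C.ineqs) [] C.steps &&
  (List.range (4 * (C.n + 1))).all (fun v => (C.steps.map Prod.fst).contains v)

/-- the vertex with number `v` -/
def vx (v : ℕ) : Fin (C.n + 1) := Fin.ofNat (C.n + 1) v

theorem vx_val (v : ℕ) (h : v ≤ C.n) : ((C.vx v : Fin (C.n + 1)) : ℕ) = v := by
  simp [vx, Fin.ofNat, Nat.mod_eq_of_lt (Nat.lt_succ_of_le h)]

theorem vx_coe (v : Fin (C.n + 1)) : C.vx v = v := by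
  apply Fin.ext
  exact C.vx_val v (Nat.lt_succ_iff.1 v.2)

noncomputable def arr : Arr (Fin (C.n + 1)) (Fin C.n) (Fin C.K.length) where
  P v := toE (Pt (C.clA v))
  X v := toE (C.XA v)
  Y v := toE (C.YA v)
  la := Fin.castSucc
  lb := Fin.succ
  ci k := C.vx (C.K.get k).i
  ci' k := C.vx (C.K.get k).i'
  cj k := C.vx (C.K.get k).j
  cj' k := C.vx (C.K.get k).j'
  sg k := ((C.K.get k).sg : ℤ)
  i0 := C.vx C.i0
  i1 := C.vx C.i1
  i2 := C.vx C.i2

structure Ok : Prop where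
  cts : C.checkCts = true
  bs : C.checkBase = true
  stress : C.checkStress' = true
  steps : C.checkSteps' = true

structure CtOk (k : Ct) : Prop where
  hi : k.i ≤ C.n
  hi' : k.i' ≤ C.n
  hj : k.j ≤ C.n
  hj' : k.j' ≤ C.n
  hc : k.c < 4
  hcl : C.clA k.i = C.clA k.j
  hX : I3.sub (C.XA k.j) (C.XA k.i) =
    I3.sub (I3.smul k.s (C.Dz k.i k.i')) (I3.smul k.t (C.Dz k.j k.j'))
  hs : 0 < k.s
  ht : 0 < k.t
  hcr : I3.cross (C.Dz k.i k.i') (C.Dz k.j k.j') ≠ (0, 0, 0)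
  hsg : k.sg = 1 ∨ k.sg = -1
  hY : 0 < k.sg * I3.det (C.Dz k.i k.i') (C.Dz k.j k.j') (I3.sub (C.YA k.j) (C.YA k.i))
  hg : I3.smul k.sg (I3.cross (C.Dz k.i k.i') (C.Dz k.j k.j')) = I3.smul k.sk (gt k.c)
  hi2 : k.i' = k.i + 1 ∨ k.i = k.i' + 1
  hj2 : k.j' = k.j + 1 ∨ k.j = k.j' + 1
  hd : min k.i k.i' + 1 < min k.j k.j' ∨ min k.j k.j' + 1 < min k.i k.i'

variable {C}

theorem ctOk (h : C.Ok) (k : Fin C.K.length) : C.CtOk (C.K.get k) := by
  have h1 := h.cts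
  unfold checkCts at h1
  rw [List.all_eq_true] at h1
  have h2 := h1 (C.K.get k) (List.get_mem _ _)
  simp only [checkCt, Bool.and_eq_true, Bool.or_eq_true, decide_eq_true_eq, beq_iff_eq,
    bne_iff_ne] at h2
  obtain ⟨⟨⟨⟨⟨⟨⟨⟨⟨⟨⟨⟨⟨⟨⟨a1, a2⟩, a3⟩, a4⟩, a5⟩, a6⟩, a7⟩, a8⟩, a9⟩, a10⟩, a11⟩, a12⟩, a13⟩, a14⟩,
    a15⟩, a16⟩ := h2
  exact ⟨a1, a2, a3, a4, a5, a6, a7, a8, a9, a10, a11, a12, a13, a14, a15, a16⟩

theorem cl_lt (h : C.Ok) (v : ℕ) (hv : v ≤ C.n) : C.clA v < 4 := by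
  have h1 := h.bs
  simp only [checkBase, Bool.and_eq_true, List.all_eq_true, List.mem_range,
    decide_eq_true_eq] at h1
  exact h1.2 v (Nat.lt_succ_of_le hv)

theorem D_eq (h : C.Ok) (k : Fin C.K.length) :
    C.arr.D k = toE (C.Dz (C.K.get k).i (C.K.get k).i') := by
  have hk := ctOk h k
  show toE (Pt (C.clA (C.vx _ : Fin (C.n + 1)))) - toE (Pt (C.clA (C.vx _ : Fin (C.n + 1)))) = _
  rw [C.vx_val _ hk.hi, C.vx_val _ hk.hi', Dz, toE_sub]

theorem D'_eq (h : C.Ok) (k : Fin C.K.length) :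
    C.arr.D' k = toE (C.Dz (C.K.get k).j (C.K.get k).j') := by
  have hk := ctOk h k
  show toE (Pt (C.clA (C.vx _ : Fin (C.n + 1)))) - toE (Pt (C.clA (C.vx _ : Fin (C.n + 1)))) = _
  rw [C.vx_val _ hk.hj, C.vx_val _ hk.hj', Dz, toE_sub]

theorem Xsub_eq (h : C.Ok) (k : Fin C.K.length) :
    C.arr.X (C.arr.cj k) - C.arr.X (C.arr.ci k) =
      toE (I3.sub (C.XA (C.K.get k).j) (C.XA (C.K.get k).i)) := by
  have hk := ctOk h k
  show toE (C.XA (C.vx _ : Fin (C.n + 1))) - toE (C.XA (C.vx _ : Fin (C.n + 1))) = _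
  rw [C.vx_val _ hk.hj, C.vx_val _ hk.hi, toE_sub]

theorem Ysub_eq (h : C.Ok) (k : Fin C.K.length) :
    C.arr.Y (C.arr.cj k) - C.arr.Y (C.arr.ci k) =
      toE (I3.sub (C.YA (C.K.get k).j) (C.YA (C.K.get k).i)) := by
  have hk := ctOk h k
  show toE (C.YA (C.vx _ : Fin (C.n + 1))) - toE (C.YA (C.vx _ : Fin (C.n + 1))) = _
  rw [C.vx_val _ hk.hj, C.vx_val _ hk.hi, toE_sub]

theorem gt_sub (A B : ℕ) (hA : A < 4) (hB : B < 4) :
    I3.sub (gt B) (gt A) = I3.smul 2 (I3.sub (Pt B) (Pt A)) := by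
  interval_cases A <;> interval_cases B <;> rfl

theorem D1_eq (h : C.Ok) : C.arr.D1 = toE (1, 1, 0) := by
  have h1 := h.bs
  simp only [checkBase, Bool.and_eq_true, List.all_eq_true, List.mem_range,
    decide_eq_true_eq, beq_iff_eq] at h1
  obtain ⟨⟨⟨⟨⟨⟨a0, a1⟩, a2⟩, b0⟩, b1⟩, b2⟩, _⟩ := h1
  show toE (Pt (C.clA (C.vx _ : Fin (C.n + 1)))) - toE (Pt (C.clA (C.vx _ : Fin (C.n + 1)))) = _
  rw [C.vx_val _ a1, C.vx_val _ a0, b0, b1, ← toE_sub]; rfl

theorem D2_eq (h : C.Ok) : C.arr.D2 = toE (1, 0, 1) := by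
  have h1 := h.bs
  simp only [checkBase, Bool.and_eq_true, List.all_eq_true, List.mem_range,
    decide_eq_true_eq, beq_iff_eq] at h1
  obtain ⟨⟨⟨⟨⟨⟨a0, a1⟩, a2⟩, b0⟩, b1⟩, b2⟩, _⟩ := h1
  show toE (Pt (C.clA (C.vx _ : Fin (C.n + 1)))) - toE (Pt (C.clA (C.vx _ : Fin (C.n + 1)))) = _
  rw [C.vx_val _ a2, C.vx_val _ a0, b0, b2, ← toE_sub]; rfl

/-- the barycentric coordinates of a displacement field -/
noncomputable def xv (z : Fin (C.n + 1) → E3) (v : ℕ) : ℝ :=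
  inner ℝ (toE (gt (v % 4))) (z (C.vx (v / 4)))

theorem xv_eq (z : Fin (C.n + 1) → E3) (v b : ℕ) (hb : b < 4) :
    xv (C := C) z (4 * v + b) = inner ℝ (toE (gt b)) (z (C.vx v)) := by
  unfold xv
  have h1 : (4 * v + b) % 4 = b := by omega
  have h2 : (4 * v + b) / 4 = v := by omega
  rw [h1, h2]

theorem ker_aux (h : C.Ok) (z : Fin (C.n + 1) → E3)
    (hbar : ∀ l, (inner ℝ (C.arr.P (C.arr.lb l) - C.arr.P (C.arr.la l))
      (z (C.arr.lb l) - z (C.arr.la l)) : ℝ) = 0)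
    (hcon : ∀ k, 0 ≤ C.arr.sg k * dt (C.arr.D k) (C.arr.D' k) (z (C.arr.cj k) - z (C.arr.ci k)))
    (h0 : z C.arr.i0 = 0) (h1 : cr C.arr.D1 (z C.arr.i1) = 0)
    (h2 : dt C.arr.D1 C.arr.D2 (z C.arr.i2) = 0) : z = 0 := by
  have hr0 : ∀ r ∈ C.rows0, evS (xv (C := C) z) r = 0 := by
    intro r hr
    unfold rows0 at hr
    rw [List.mem_append, List.mem_append] at hr
    rcases hr with hr | hr | hr
    · obtain ⟨v, hv, rfl⟩ := List.mem_map.1 hr
      rw [List.mem_range] at hv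
      have hA := cl_lt h v hv.le
      have hB := cl_lt h (v + 1) hv
      have e := hbar ⟨v, hv⟩
      have e1 : C.arr.lb ⟨v, hv⟩ = C.vx (v + 1) := by
        apply Fin.ext; rw [C.vx_val _ hv]; rfl
      have e2 : C.arr.la ⟨v, hv⟩ = C.vx v := by
        apply Fin.ext; rw [C.vx_val _ hv.le]; rfl
      rw [e1, e2] at e
      have e3 : C.arr.P (C.vx (v + 1)) - C.arr.P (C.vx v) =
          toE (I3.sub (Pt (C.clA (v + 1))) (Pt (C.clA v))) := by
        show toE (Pt (C.clA (C.vx _ : Fin (C.n + 1)))) -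
          toE (Pt (C.clA (C.vx _ : Fin (C.n + 1)))) = _
        rw [C.vx_val _ hv.le, C.vx_val _ hv, toE_sub]
      rw [e3] at e
      have e4 := congrArg toE (gt_sub _ _ hA hB)
      rw [toE_sub, toE_smul] at e4
      unfold barRow
      rw [evS_cons, evS_cons, evS_cons, evS_cons, evS_nil]
      simp only
      rw [xv_eq _ _ _ hB, xv_eq _ _ _ hA, xv_eq _ _ _ hB, xv_eq _ _ _ hA]
      have e5 : (inner ℝ (toE (gt (C.clA (v + 1))) - toE (gt (C.clA v)))
          (z (C.vx (v + 1)) - z (C.vx v)) : ℝ) = 0 := by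
        rw [e4, inner_smul_left, e, mul_zero]
      rw [inner_sub_left, inner_sub_right, inner_sub_right] at e5
      push_cast
      linarith
    · obtain ⟨v, hv, rfl⟩ := List.mem_map.1 hr
      unfold sumRow
      rw [evS_cons, evS_cons, evS_cons, evS_cons, evS_nil]
      simp only
      have e0 := xv_eq (C := C) z v 0 (by norm_num)
      rw [add_zero] at e0
      rw [e0, xv_eq _ _ _ (by norm_num : 1 < 4), xv_eq _ _ _ (by norm_num : 2 < 4),
        xv_eq _ _ _ (by norm_num : 3 < 4), inner3, inner3, inner3, inner3]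
      simp [gt]
      ring
    · have b1 := h.bs
      simp only [checkBase, Bool.and_eq_true, List.all_eq_true, List.mem_range,
        decide_eq_true_eq, beq_iff_eq] at b1
      obtain ⟨⟨⟨⟨⟨⟨a0, a1⟩, a2⟩, b0⟩, b1⟩, b2⟩, _⟩ := b1
      have z0 : z (C.vx C.i0) = 0 := h0
      have z1 : cr (toE (1, 1, 0)) (z (C.vx C.i1)) = 0 := by rw [← D1_eq h]; exact h1
      have z2 : dt (toE (1, 1, 0)) (toE (1, 0, 1)) (z (C.vx C.i2)) = 0 := by
        rw [← D1_eq h, ← D2_eq h]; exact h2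
      have z11 := congrArg (fun v : E3 => v 0) z1
      have z12 := congrArg (fun v : E3 => v 2) z1
      simp at z11 z12
      simp [dt] at z2
      unfold gaugeRows at hr
      simp only [List.mem_cons, List.not_mem_nil, or_false] at hr
      rcases hr with rfl | rfl | rfl | rfl | rfl | rfl | rfl
      · have e0 := xv_eq (C := C) z C.i0 0 (by norm_num)
        rw [add_zero] at e0
        rw [evS_cons, evS_nil]; simp only; rw [e0, z0]; simp
      · rw [evS_cons, evS_nil]; simp only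
        rw [xv_eq _ _ _ (by norm_num : 1 < 4), z0]; simp
      · rw [evS_cons, evS_nil]; simp only
        rw [xv_eq _ _ _ (by norm_num : 2 < 4), z0]; simp
      · rw [evS_cons, evS_nil]; simp only
        rw [xv_eq _ _ _ (by norm_num : 3 < 4), z0]; simp
      · rw [evS_cons, evS_nil]; simp only
        rw [xv_eq _ _ _ (by norm_num : 2 < 4), inner3]; simp [gt]; linarith
      · rw [evS_cons, evS_nil]; simp only
        rw [xv_eq _ _ _ (by norm_num : 3 < 4), inner3]; simp [gt]; linarith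
      · rw [evS_cons, evS_nil]; simp only
        rw [xv_eq _ _ _ (by norm_num : 3 < 4), inner3]; simp [gt]; linarith
  have hcr : ∀ k : Fin C.K.length, evS (xv (C := C) z) (conRow (C.K.get k)) =
      C.arr.sg k * dt (C.arr.D k) (C.arr.D' k) (z (C.arr.cj k) - z (C.arr.ci k)) := by
    intro k
    have hk := ctOk h k
    unfold conRow
    rw [evS_cons, evS_cons, evS_nil]
    simp only
    rw [xv_eq _ _ _ hk.hc, xv_eq _ _ _ hk.hc, dt_eq_inner_cr, D_eq h, D'_eq h]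
    have e1 := congrArg toE hk.hg
    rw [toE_smul, toE_smul, toE_cross] at e1
    have e2 : (inner ℝ ((((C.K.get k).sg : ℤ) : ℝ) • cr (toE (C.Dz (C.K.get k).i (C.K.get k).i'))
        (toE (C.Dz (C.K.get k).j (C.K.get k).j'))) (z (C.arr.cj k) - z (C.arr.ci k)) : ℝ) =
        inner ℝ ((((C.K.get k).sk : ℤ) : ℝ) • toE (gt (C.K.get k).c))
          (z (C.arr.cj k) - z (C.arr.ci k)) := by rw [e1]
    rw [inner_smul_left, inner_smul_left] at e2
    simp only [RCLike.conj_to_real] at e2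
    show _ = (((C.K.get k).sg : ℤ) : ℝ) * _
    rw [e2, inner_sub_right]
    show _ = (((C.K.get k).sk : ℤ) : ℝ) * (inner ℝ (toE (gt (C.K.get k).c)) (z (C.vx (C.K.get k).j))
      - inner ℝ (toE (gt (C.K.get k).c)) (z (C.vx (C.K.get k).i)))
    push_cast
    ring
  have hg0 : ∀ g ∈ C.ineqs, 0 ≤ evS (xv (C := C) z) g := by
    intro g hg
    unfold ineqs at hg
    obtain ⟨k, hk, rfl⟩ := List.mem_map.1 hg
    obtain ⟨m, hm⟩ := List.mem_iff_get.1 hk
    rw [← hm, hcr m]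
    exact hcon m
  have hg1 := checkStress_sound _ _ _ _ h.stress (xv (C := C) z) hr0 hg0
  have hst := h.steps
  unfold checkSteps' at hst
  rw [Bool.and_eq_true, List.all_eq_true] at hst
  have hall := checkSteps_sound (xv (C := C) z) (C.rows0 ++ C.ineqs)
    (fun r hr => (List.mem_append.1 hr).elim (hr0 r) (hg1 r)) C.steps [] (by simp) hst.1
  have hx : ∀ v, v < 4 * (C.n + 1) → xv (C := C) z v = 0 := by
    intro v hv
    have h3 := hst.2 v (List.mem_range.2 hv)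
    simp only [List.contains_iff_mem] at h3
    obtain ⟨s, hs, rfl⟩ := List.mem_map.1 h3
    exact hall s hs
  funext v
  have hv : (v : ℕ) < C.n + 1 := v.2
  have e1 := hx (4 * v + 1) (by omega)
  have e2 := hx (4 * v + 2) (by omega)
  have e3 := hx (4 * v + 3) (by omega)
  rw [xv_eq _ _ _ (by norm_num), C.vx_coe, inner3] at e1 e2 e3
  simp [gt] at e1 e2 e3
  show z v = 0
  apply ext3
  · show z v 0 = 0
    linarith
  · show z v 1 = 0
    linarith
  · show z v 2 = 0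
    linarith

theorem good (h : C.Ok) : C.arr.Good where
  hsg k := by
    have hk := ctOk h k
    show ((((C.K.get k).sg : ℤ) : ℝ) = 1) ∨ ((((C.K.get k).sg : ℤ) : ℝ) = -1)
    rcases hk.hsg with e | e
    · left; rw [e]; norm_num
    · right; rw [e]; norm_num
  hP k := by
    have hk := ctOk h k
    show toE (Pt (C.clA (C.vx _ : Fin (C.n + 1)))) = toE (Pt (C.clA (C.vx _ : Fin (C.n + 1))))
    rw [C.vx_val _ hk.hi, C.vx_val _ hk.hj, hk.hcl]
  htie k := by
    have hk := ctOk h k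
    refine ⟨(C.K.get k).s, (C.K.get k).t, by exact_mod_cast hk.hs, by exact_mod_cast hk.ht, ?_⟩
    rw [Xsub_eq h, hk.hX, D_eq h, D'_eq h, toE_sub, toE_smul, toE_smul]
  hind k := by
    have hk := ctOk h k
    rw [D_eq h, D'_eq h, ← toE_cross]
    intro e
    have : toE (0, 0, 0) = 0 := by apply ext3 <;> simp
    rw [← this] at e
    exact hk.hcr (toE_inj e)
  hy k := by
    have hk := ctOk h k
    rw [Ysub_eq h, D_eq h, D'_eq h, dt_toE]
    show 0 < (((C.K.get k).sg : ℤ) : ℝ) * _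
    exact_mod_cast hk.hY
  hbase := by
    rw [D1_eq h, D2_eq h, ← toE_cross]
    intro e
    have := congrArg (fun v : E3 => v 0) e
    simp [I3.cross] at this
  ker := ker_aux h

end CD

end Pool.Agent.H282R2
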