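import Pool.Agent.H282R2.Vec

/-!
A self-touching arrangement of rigid links in Euclidean 3-space, given by frame positions `P`,
first order displacements `X` and second order displacements `Y`. If the linearised problem of the
arrangement has only the trivial solution then no motion of the perturbed arrangement leaves a
small neighbourhood.
-/

set_option autoImplicit false
set_option maxHeartbeats 1000000

namespace Pool.Agent.H282R2

open Filter Topology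

/-- data of a self-touching arrangement -/
structure Arr (V Λ K : Type) where
  P : V → E3
  X : V → E3
  Y : V → E3
  la : Λ → V
  lb : Λ → V
  ci : K → V
  ci' : K → V
  cj : K → V
  cj' : K → V
  sg : K → ℝ
  i0 : V
  i1 : V
  i2 : V

namespace Arr

variable {V Λ K : Type} (A : Arr V Λ K)

/-- the perturbed positions -/
noncomputable def pos (η : ℝ) (v : V) : E3 := A.P v + η ^ 2 • (A.X v + η • A.Y v)

noncomputable def D (k : K) : E3 := A.P (A.ci' k) - A.P (A.ci k)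
noncomputable def D' (k : K) : E3 := A.P (A.cj' k) - A.P (A.cj k)
noncomputable def D1 : E3 := A.P A.i1 - A.P A.i0
noncomputable def D2 : E3 := A.P A.i2 - A.P A.i0

structure Good : Prop where
  hsg : ∀ k, A.sg k = 1 ∨ A.sg k = -1
  hP : ∀ k, A.P (A.ci k) = A.P (A.cj k)
  htie : ∀ k, ∃ s t : ℝ, 0 < s ∧ 0 < t ∧ A.X (A.cj k) - A.X (A.ci k) = s • A.D k - t • A.D' k
  hind : ∀ k, cr (A.D k) (A.D' k) ≠ 0
  hy : ∀ k, 0 < A.sg k * dt (A.D k) (A.D' k) (A.Y (A.cj k) - A.Y (A.ci k))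
  hbase : cr A.D1 A.D2 ≠ 0
  ker : ∀ z : V → E3,
    (∀ l, (inner ℝ (A.P (A.lb l) - A.P (A.la l)) (z (A.lb l) - z (A.la l)) : ℝ) = 0) →
    (∀ k, 0 ≤ A.sg k * dt (A.D k) (A.D' k) (z (A.cj k) - z (A.ci k))) →
    z A.i0 = 0 → cr A.D1 (z A.i1) = 0 → dt A.D1 A.D2 (z A.i2) = 0 → z = 0

variable [Fintype V] [Fintype Λ] [Fintype K]

noncomputable def h (z : V → E3) : ℝ :=
  ∑ l, |(inner ℝ (A.P (A.lb l) - A.P (A.la l)) (z (A.lb l) - z (A.la l)) : ℝ)|
    + ∑ k, max 0 (-(A.sg k * dt (A.D k) (A.D' k) (z (A.cj k) - z (A.ci k))))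
    + ‖z A.i0‖ + ‖cr A.D1 (z A.i1)‖ + |dt A.D1 A.D2 (z A.i2)|

omit [Fintype V] in
theorem continuous_h : Continuous A.h := by
  unfold h
  have hz : ∀ v : V, Continuous fun z : V → E3 => z v := fun v => continuous_apply v
  refine Continuous.add (Continuous.add (Continuous.add (Continuous.add ?_ ?_) ?_) ?_) ?_
  · refine continuous_finsetSum _ fun l _ => ?_
    exact (continuous_const.inner ((hz _).sub (hz _))).abs
  · refine continuous_finsetSum _ fun k _ => ?_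
    exact continuous_const.max (continuous_const.mul
      (Continuous.dt continuous_const continuous_const ((hz _).sub (hz _)))).neg
  · exact (hz _).norm
  · exact (Continuous.cr continuous_const (hz _)).norm
  · exact (Continuous.dt continuous_const continuous_const (hz _)).abs

omit [Fintype V] in
theorem h_smul (c : ℝ) (hc : 0 ≤ c) (z : V → E3) : A.h (c • z) = c * A.h z := by
  unfold h
  have h1 : ∀ l, |(inner ℝ (A.P (A.lb l) - A.P (A.la l)) ((c • z) (A.lb l) - (c • z) (A.la l)) : ℝ)|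
      = c * |(inner ℝ (A.P (A.lb l) - A.P (A.la l)) (z (A.lb l) - z (A.la l)) : ℝ)| := by
    intro l
    rw [Pi.smul_apply, Pi.smul_apply, ← smul_sub, inner_smul_right, abs_mul, abs_of_nonneg hc]
  have h2 : ∀ k, max 0 (-(A.sg k * dt (A.D k) (A.D' k) ((c • z) (A.cj k) - (c • z) (A.ci k))))
      = c * max 0 (-(A.sg k * dt (A.D k) (A.D' k) (z (A.cj k) - z (A.ci k)))) := by
    intro k
    rw [Pi.smul_apply, Pi.smul_apply, ← smul_sub, dt_smul_3, mul_max_of_nonneg _ _ hc, mul_zero]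
    congr 1
    ring
  simp only [h1, h2]
  rw [← Finset.mul_sum, ← Finset.mul_sum, Pi.smul_apply, Pi.smul_apply, Pi.smul_apply, norm_smul,
    cr_smul_2, norm_smul, dt_smul_3, abs_mul, Real.norm_of_nonneg hc, abs_of_nonneg hc]
  ring

omit [Fintype V] in
theorem h_nonneg (z : V → E3) : 0 ≤ A.h z := by
  unfold h
  have h1 : 0 ≤ ∑ l, |(inner ℝ (A.P (A.lb l) - A.P (A.la l)) (z (A.lb l) - z (A.la l)) : ℝ)| :=
    Finset.sum_nonneg fun l _ => abs_nonneg _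
  have h2 : 0 ≤ ∑ k, max 0 (-(A.sg k * dt (A.D k) (A.D' k) (z (A.cj k) - z (A.ci k)))) :=
    Finset.sum_nonneg fun k _ => le_max_left _ _
  positivity

omit [Fintype V] in
theorem eq_zero_of_h (hA : A.Good) (z : V → E3) (hz : A.h z = 0) : z = 0 := by
  unfold h at hz
  have h1 : 0 ≤ ∑ l, |(inner ℝ (A.P (A.lb l) - A.P (A.la l)) (z (A.lb l) - z (A.la l)) : ℝ)| :=
    Finset.sum_nonneg fun l _ => abs_nonneg _
  have h2 : 0 ≤ ∑ k, max 0 (-(A.sg k * dt (A.D k) (A.D' k) (z (A.cj k) - z (A.ci k)))) :=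
    Finset.sum_nonneg fun k _ => le_max_left _ _
  have h3 := norm_nonneg (z A.i0)
  have h4 := norm_nonneg (cr A.D1 (z A.i1))
  have h5 := abs_nonneg (dt A.D1 A.D2 (z A.i2))
  have e1 : ∑ l, |(inner ℝ (A.P (A.lb l) - A.P (A.la l)) (z (A.lb l) - z (A.la l)) : ℝ)| = 0 := by
    linarith
  have e2 : ∑ k, max 0 (-(A.sg k * dt (A.D k) (A.D' k) (z (A.cj k) - z (A.ci k)))) = 0 := by
    linarith
  refine hA.ker z ?_ ?_ (norm_eq_zero.1 (by linarith)) (norm_eq_zero.1 (by linarith))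
    (abs_eq_zero.1 (by linarith))
  · intro l
    have := (Finset.sum_eq_zero_iff_of_nonneg fun l _ => abs_nonneg _).1 e1 l (Finset.mem_univ _)
    exact abs_eq_zero.1 this
  · intro k
    have := (Finset.sum_eq_zero_iff_of_nonneg fun k _ => le_max_left _ _).1 e2 k (Finset.mem_univ _)
    have h6 := le_max_right 0 (-(A.sg k * dt (A.D k) (A.D' k) (z (A.cj k) - z (A.ci k))))
    rw [this] at h6
    linarith

theorem exists_c0 (hA : A.Good) : ∃ c > 0, ∀ z : V → E3, c * ‖z‖ ≤ A.h z := by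
  have : Nonempty V := ⟨A.i0⟩
  have hne : (Metric.sphere (0 : V → E3) 1).Nonempty := NormedSpace.sphere_nonempty.2 zero_le_one
  obtain ⟨z0, hz0, hmin⟩ := (isCompact_sphere (0 : V → E3) 1).exists_isMinOn hne
    A.continuous_h.continuousOn
  have hz1 : ‖z0‖ = 1 := by simpa using hz0
  have hpos : 0 < A.h z0 := by
    rcases (A.h_nonneg z0).lt_or_eq with h1 | h1
    · exact h1
    · have := A.eq_zero_of_h hA z0 h1.symm
      rw [this, norm_zero] at hz1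
      exact absurd hz1 (by norm_num)
  refine ⟨A.h z0, hpos, fun z => ?_⟩
  rcases eq_or_ne z 0 with rfl | hz
  · rw [norm_zero, mul_zero]; exact A.h_nonneg _
  · have hn : 0 < ‖z‖ := norm_pos_iff.2 hz
    have h1 : ‖z‖⁻¹ • z ∈ Metric.sphere (0 : V → E3) 1 := by
      rw [mem_sphere_zero_iff_norm, norm_smul, norm_inv, norm_norm, inv_mul_cancel₀ hn.ne']
    have h2 : A.h z0 ≤ A.h (‖z‖⁻¹ • z) := hmin h1
    rw [A.h_smul _ (inv_nonneg.2 hn.le)] at h2
    have h3 : A.h z0 * ‖z‖ ≤ (‖z‖⁻¹ * A.h z) * ‖z‖ := mul_le_mul_of_nonneg_right h2 hn.le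
    have h4 : (‖z‖⁻¹ * A.h z) * ‖z‖ = A.h z := by field_simp
    linarith

end Arr

/-! estimates -/

theorem bar_est (D E w : E3) (m : ℝ) (hm : 0 < m)
    (h : ‖(D + m • E) + m • w‖ = ‖D + m • E‖) :
    |(inner ℝ D w : ℝ)| ≤ m * (‖E‖ * ‖w‖ + ‖w‖ ^ 2 / 2) := by
  have h1 : ‖(D + m • E) + m • w‖ ^ 2 = ‖D + m • E‖ ^ 2 := by rw [h]
  rw [norm_add_sq_real, inner_smul_right, inner_add_left, inner_smul_left, norm_smul,
    Real.norm_of_nonneg hm.le, RCLike.conj_to_real] at h1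
  have h2 : (inner ℝ D w : ℝ) = - (m * (inner ℝ E w + ‖w‖ ^ 2 / 2)) := by
    have : m * (2 * inner ℝ D w + 2 * m * inner ℝ E w + m * ‖w‖ ^ 2) = 0 := by nlinarith
    have := (mul_eq_zero.1 this).resolve_left hm.ne'
    linarith
  rw [h2, abs_neg, abs_mul, abs_of_pos hm]
  have h3 : |(inner ℝ E w : ℝ) + ‖w‖ ^ 2 / 2| ≤ ‖E‖ * ‖w‖ + ‖w‖ ^ 2 / 2 := by
    refine (abs_add_le _ _).trans ?_
    rw [abs_of_nonneg (by positivity : 0 ≤ ‖w‖ ^ 2 / 2)]
    linarith [abs_real_inner_le_norm E w]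
  exact mul_le_mul_of_nonneg_left h3 hm.le

theorem dt_est (D D' E E' d : E3) (m : ℝ) (hm : 0 ≤ m) :
    |dt (D + m • E) (D' + m • E') d - dt D D' d| ≤
      m * (‖E‖ * ‖D' + m • E'‖ * ‖d‖ + ‖D‖ * ‖E'‖ * ‖d‖) := by
  have h1 : dt (D + m • E) (D' + m • E') d - dt D D' d =
      m * (dt E (D' + m • E') d + dt D E' d) := by
    rw [dt_add_1, dt_smul_1, dt_add_2 D, dt_smul_2]; ring
  rw [h1, abs_mul, abs_of_nonneg hm]
  refine mul_le_mul_of_nonneg_left ?_ hm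
  exact (abs_add_le _ _).trans (add_le_add (abs_dt_le _ _ _) (abs_dt_le _ _ _))

theorem contact_est (D D' E E' x y w : E3) (m η sg : ℝ) (hm : 0 ≤ m) (hη : 0 ≤ η)
    (hsg : sg = 1 ∨ sg = -1) (hx : dt D D' x = 0)
    (h : 0 ≤ sg * dt (D + m • E) (D' + m • E') (x + η • y + w)) :
    -(sg * dt D D' w) ≤ η * (‖D‖ * ‖D'‖ * ‖y‖) +
      m * (‖E‖ * ‖D' + m • E'‖ * ‖x + η • y + w‖ + ‖D‖ * ‖E'‖ * ‖x + η • y + w‖) := by
  have h1 := dt_est D D' E E' (x + η • y + w) m hm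
  have h2 : dt D D' (x + η • y + w) = η * dt D D' y + dt D D' w := by
    rw [dt_add_3, dt_add_3, dt_smul_3, hx]; ring
  have h3 := abs_dt_le D D' y
  have h4 : η * |dt D D' y| ≤ η * (‖D‖ * ‖D'‖ * ‖y‖) := mul_le_mul_of_nonneg_left h3 hη
  have h5 := abs_le.1 h1
  have h6 : -(η * |dt D D' y|) ≤ η * dt D D' y ∧ η * dt D D' y ≤ η * |dt D D' y| := by
    constructor
    · nlinarith [neg_abs_le (dt D D' y)]
    · nlinarith [le_abs_self (dt D D' y)]
  rw [h2] at h5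
  rcases hsg with rfl | rfl
  · linarith [h5.1, h5.2, h6.1, h6.2]
  · linarith [h5.1, h5.2, h6.1, h6.2]

theorem gauge1_est (D E w : E3) (m : ℝ) (hm : 0 ≤ m) (h : cr (D + m • E) w = 0) :
    ‖cr D w‖ ≤ m * (‖E‖ * ‖w‖) := by
  rw [cr_add_1, cr_smul_1] at h
  rw [eq_neg_of_add_eq_zero_left h, norm_neg, norm_smul, Real.norm_of_nonneg hm]
  exact mul_le_mul_of_nonneg_left (norm_cr_le _ _) hm

theorem gauge2_est (D D' E E' w : E3) (m : ℝ) (hm : 0 ≤ m)
    (h : dt (D + m • E) (D' + m • E') w = 0) :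
    |dt D D' w| ≤ m * (‖E‖ * ‖D' + m • E'‖ * ‖w‖ + ‖D‖ * ‖E'‖ * ‖w‖) := by
  have h1 := dt_est D D' E E' w m hm
  rw [h, zero_sub, abs_neg] at h1
  exact h1

noncomputable def sF (a b d : E3) : ℝ := dt d b (cr a b) / ‖cr a b‖ ^ 2
noncomputable def sG (a b d : E3) : ℝ := -(dt a d (cr a b) / ‖cr a b‖ ^ 2)

theorem continuousAt_sF (p0 : E3 × E3 × E3) (hn : cr p0.1 p0.2.1 ≠ 0) :
    ContinuousAt (fun p : E3 × E3 × E3 => sF p.1 p.2.1 p.2.2) p0 := by
  have hn' : ‖cr p0.1 p0.2.1‖ ^ 2 ≠ 0 := pow_ne_zero _ (norm_ne_zero_iff.2 hn)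
  have c1 : Continuous fun p : E3 × E3 × E3 => p.1 := continuous_fst
  have c2 : Continuous fun p : E3 × E3 × E3 => p.2.1 := continuous_fst.comp continuous_snd
  have c3 : Continuous fun p : E3 × E3 × E3 => p.2.2 := continuous_snd.comp continuous_snd
  have hc : Continuous fun p : E3 × E3 × E3 => cr p.1 p.2.1 := Continuous.cr c1 c2
  have h1 : Continuous fun p : E3 × E3 × E3 => dt p.2.2 p.2.1 (cr p.1 p.2.1) :=
    Continuous.dt c3 c2 hc
  have h2 : Continuous fun p : E3 × E3 × E3 => ‖cr p.1 p.2.1‖ ^ 2 := hc.norm.pow 2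
  exact h1.continuousAt.div h2.continuousAt hn'

theorem continuousAt_sG (p0 : E3 × E3 × E3) (hn : cr p0.1 p0.2.1 ≠ 0) :
    ContinuousAt (fun p : E3 × E3 × E3 => sG p.1 p.2.1 p.2.2) p0 := by
  have hn' : ‖cr p0.1 p0.2.1‖ ^ 2 ≠ 0 := pow_ne_zero _ (norm_ne_zero_iff.2 hn)
  have c1 : Continuous fun p : E3 × E3 × E3 => p.1 := continuous_fst
  have c2 : Continuous fun p : E3 × E3 × E3 => p.2.1 := continuous_fst.comp continuous_snd
  have c3 : Continuous fun p : E3 × E3 × E3 => p.2.2 := continuous_snd.comp continuous_snd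
  have hc : Continuous fun p : E3 × E3 × E3 => cr p.1 p.2.1 := Continuous.cr c1 c2
  have h1 : Continuous fun p : E3 × E3 × E3 => dt p.1 p.2.2 (cr p.1 p.2.1) :=
    Continuous.dt c1 c3 hc
  have h2 : Continuous fun p : E3 × E3 × E3 => ‖cr p.1 p.2.1‖ ^ 2 := hc.norm.pow 2
  exact (h1.continuousAt.div h2.continuousAt hn').neg

theorem sF_eq (D D' : E3) (s t : ℝ) (hind : cr D D' ≠ 0) : sF D D' (s • D - t • D') = s := by
  have hn : ‖cr D D'‖ ^ 2 ≠ 0 := pow_ne_zero _ (norm_ne_zero_iff.2 hind)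
  have : dt (s • D - t • D') D' (cr D D') = s * ‖cr D D'‖ ^ 2 := by
    rw [norm_sq3]; simp [dt]; ring
  rw [sF, this]; field_simp

theorem sG_eq (D D' : E3) (s t : ℝ) (hind : cr D D' ≠ 0) : sG D D' (s • D - t • D') = t := by
  have hn : ‖cr D D'‖ ^ 2 ≠ 0 := pow_ne_zero _ (norm_ne_zero_iff.2 hind)
  have : dt D (s • D - t • D') (cr D D') = -(t * ‖cr D D'‖ ^ 2) := by
    rw [norm_sq3]; simp [dt]; ring
  rw [sG, this]; field_simp

theorem sFG (a b d : E3) (hn : cr a b ≠ 0) (h0 : dt a b d = 0) :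
    d = sF a b d • a - sG a b d • b := by
  have hn2 : ‖cr a b‖ ^ 2 ≠ 0 := pow_ne_zero _ (norm_ne_zero_iff.2 hn)
  have key := cramer a b d
  rw [h0, zero_smul, add_zero] at key
  have h1 : d = (‖cr a b‖ ^ 2)⁻¹ • (dt d b (cr a b) • a + dt a d (cr a b) • b) := by
    rw [← key, smul_smul, inv_mul_cancel₀ hn2, one_smul]
  rw [sF, sG, neg_smul, sub_neg_eq_add, div_eq_inv_mul, div_eq_inv_mul, mul_smul, mul_smul,
    ← smul_add]
  exact h1

/-- two vectors near `D, D'` and a vector near `s D - t D'` coplanar with them -/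
theorem cross_local (D D' : E3) (s t : ℝ) (hs : 0 < s) (ht : 0 < t) (hind : cr D D' ≠ 0) :
    ∃ r > 0, ∃ M > 0, ∀ a b d : E3, ‖a - D‖ < r → ‖b - D'‖ < r → ‖d - (s • D - t • D')‖ < r →
      dt a b d = 0 → ∃ σ τ : ℝ, 0 < σ ∧ σ ≤ M ∧ 0 < τ ∧ τ ≤ M ∧ d = σ • a - τ • b := by
  obtain ⟨p0, hp0⟩ : ∃ p0 : E3 × E3 × E3, p0 = (D, D', s • D - t • D') := ⟨_, rfl⟩
  have hn0 : cr p0.1 p0.2.1 ≠ 0 := by rw [hp0]; exact hind
  have eF : sF p0.1 p0.2.1 p0.2.2 = s := by rw [hp0]; exact sF_eq D D' s t hind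
  have eG : sG p0.1 p0.2.1 p0.2.2 = t := by rw [hp0]; exact sG_eq D D' s t hind
  have hF := continuousAt_sF p0 hn0
  have hG := continuousAt_sG p0 hn0
  have hc : Continuous fun p : E3 × E3 × E3 => cr p.1 p.2.1 :=
    Continuous.cr continuous_fst (continuous_fst.comp continuous_snd)
  have ev1 : ∀ᶠ p in 𝓝 p0, 0 < sF p.1 p.2.1 p.2.2 :=
    hF.eventually_const_lt (by beta_reduce; rw [eF]; exact hs)
  have ev2 : ∀ᶠ p in 𝓝 p0, sF p.1 p.2.1 p.2.2 < s + t :=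
    hF.eventually_lt_const (by beta_reduce; rw [eF]; linarith)
  have ev3 : ∀ᶠ p in 𝓝 p0, 0 < sG p.1 p.2.1 p.2.2 :=
    hG.eventually_const_lt (by beta_reduce; rw [eG]; exact ht)
  have ev4 : ∀ᶠ p in 𝓝 p0, sG p.1 p.2.1 p.2.2 < s + t :=
    hG.eventually_lt_const (by beta_reduce; rw [eG]; linarith)
  have ev5 : ∀ᶠ p in 𝓝 p0, 0 < ‖cr p.1 p.2.1‖ :=
    hc.norm.continuousAt.eventually_const_lt (norm_pos_iff.2 hn0)
  obtain ⟨r, hr, hball⟩ := Metric.eventually_nhds_iff.1 (ev1.and (ev2.and (ev3.and (ev4.and ev5))))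
  refine ⟨r, hr, s + t, by linarith, fun a b d ha hb hd h0 => ?_⟩
  have hdist : dist (a, b, d) p0 < r := by
    rw [hp0, Prod.dist_eq, Prod.dist_eq, dist_eq_norm, dist_eq_norm, dist_eq_norm]
    exact max_lt ha (max_lt hb hd)
  obtain ⟨g1, g2, g3, g4, g5⟩ := hball hdist
  exact ⟨sF a b d, sG a b d, g1, g2.le, g3, g4.le, sFG a b d (norm_pos_iff.1 g5) h0⟩

end Pool.Agent.H282R2
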