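import Pool.Agent.H282R2.Trap

/-!
The trap theorem: a self-touching arrangement whose linearised problem has only the trivial
solution stays trapped after a small perturbation.
-/

set_option autoImplicit false
set_option maxHeartbeats 1000000

namespace Pool.Agent.H282R2

open Filter Topology

namespace Arr

variable {V Λ K : Type} (A : Arr V Λ K)

noncomputable def va (q : V → E3) : E3 := q A.i1 - q A.i0
noncomputable def vb (q : V → E3) : E3 := q A.i2 - q A.i0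

/-- the rotation normalising `q` -/
noncomputable def R (η : ℝ) (q : V → E3) (u : E3) : E3 :=
  rot (A.va (A.pos η)) (A.vb (A.pos η)) (A.va q) (A.vb q) u

noncomputable def Z (η : ℝ) (q : V → E3) (v : V) : E3 :=
  (η ^ 2)⁻¹ • (A.R η q (q v - q A.i0) - (A.pos η v - A.pos η A.i0))

/-- signed volume of contact `k` -/
noncomputable def dk (q : V → E3) (k : K) : ℝ :=
  A.sg k * dt (q (A.ci' k) - q (A.ci k)) (q (A.cj' k) - q (A.cj k)) (q (A.cj k) - q (A.ci k))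

/-- first order displacement differences -/
noncomputable def E (η : ℝ) (u v : V) : E3 := (A.X u - A.X v) + η • (A.Y u - A.Y v)

theorem pos_sub (η : ℝ) (u v : V) :
    A.pos η u - A.pos η v = (A.P u - A.P v) + η ^ 2 • A.E η u v := by
  simp only [pos, E]; module

def Bdd (B : ℝ) : Prop := 0 ≤ B ∧ ∀ v, ‖A.P v‖ ≤ B ∧ ‖A.X v‖ ≤ B ∧ ‖A.Y v‖ ≤ B

theorem exists_bdd [Fintype V] : ∃ B, A.Bdd B := by
  refine ⟨∑ v, (‖A.P v‖ + ‖A.X v‖ + ‖A.Y v‖), ?_, fun v => ?_⟩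
  · positivity
  · have h := Finset.single_le_sum (f := fun v => ‖A.P v‖ + ‖A.X v‖ + ‖A.Y v‖)
      (fun v _ => by positivity) (Finset.mem_univ v)
    have h1 := norm_nonneg (A.P v)
    have h2 := norm_nonneg (A.X v)
    have h3 := norm_nonneg (A.Y v)
    beta_reduce at h
    exact ⟨by linarith, by linarith, by linarith⟩

variable {A}

theorem norm_E_le {B η : ℝ} (hB : A.Bdd B) (h0 : 0 ≤ η) (h1 : η ≤ 1) (u v : V) :
    ‖A.E η u v‖ ≤ 4 * B := by
  have a1 := hB.2 u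
  have a2 := hB.2 v
  have b1 : ‖A.X u - A.X v‖ ≤ 2 * B := (norm_sub_le _ _).trans (by linarith)
  have b2 : ‖A.Y u - A.Y v‖ ≤ 2 * B := (norm_sub_le _ _).trans (by linarith)
  have b3 : ‖η • (A.Y u - A.Y v)‖ ≤ 2 * B := by
    rw [norm_smul, Real.norm_of_nonneg h0]
    nlinarith [norm_nonneg (A.Y u - A.Y v)]
  exact (norm_add_le _ _).trans (by linarith)

theorem norm_zsub_le [Fintype V] {z : V → E3} {c : ℝ} (hz : ‖z‖ ≤ c) (u v : V) :
    ‖z u - z v‖ ≤ 2 * c := by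
  have h1 := norm_le_pi_norm z u
  have h2 := norm_le_pi_norm z v
  exact (norm_sub_le _ _).trans (by linarith)

theorem norm_Psub_le {B : ℝ} (hB : A.Bdd B) (u v : V) : ‖A.P u - A.P v‖ ≤ 2 * B := by
  have a1 := hB.2 u
  have a2 := hB.2 v
  exact (norm_sub_le _ _).trans (by linarith)

theorem norm_Xsub_le {B : ℝ} (hB : A.Bdd B) (u v : V) : ‖A.X u - A.X v‖ ≤ 2 * B := by
  have a1 := hB.2 u
  have a2 := hB.2 v
  exact (norm_sub_le _ _).trans (by linarith)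

theorem norm_Ysub_le {B : ℝ} (hB : A.Bdd B) (u v : V) : ‖A.Y u - A.Y v‖ ≤ 2 * B := by
  have a1 := hB.2 u
  have a2 := hB.2 v
  exact (norm_sub_le _ _).trans (by linarith)

variable [Fintype V] [Fintype Λ] [Fintype K]

/-- The basic estimate. -/
theorem h_est (hA : A.Good) : ∃ C, 0 ≤ C ∧ ∀ η : ℝ, 0 < η → η ≤ 1 → ∀ z : V → E3, ‖z‖ ≤ 1 →
    (∀ l, ‖(A.pos η (A.lb l) - A.pos η (A.la l)) + η ^ 2 • (z (A.lb l) - z (A.la l))‖ =
      ‖A.pos η (A.lb l) - A.pos η (A.la l)‖) →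
    (∀ k, 0 ≤ A.sg k * dt (A.D k + η ^ 2 • (A.E η (A.ci' k) (A.ci k) + (z (A.ci' k) - z (A.ci k))))
      (A.D' k + η ^ 2 • (A.E η (A.cj' k) (A.cj k) + (z (A.cj' k) - z (A.cj k))))
      ((A.X (A.cj k) - A.X (A.ci k)) + η • (A.Y (A.cj k) - A.Y (A.ci k))
        + (z (A.cj k) - z (A.ci k)))) →
    z A.i0 = 0 → cr (A.D1 + η ^ 2 • A.E η A.i1 A.i0) (z A.i1) = 0 →
    dt (A.D1 + η ^ 2 • A.E η A.i1 A.i0) (A.D2 + η ^ 2 • A.E η A.i2 A.i0) (z A.i2) = 0 →
    A.h z ≤ C * η := by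
  obtain ⟨B, hB⟩ := A.exists_bdd
  have hB0 := hB.1
  obtain ⟨CL, hCL⟩ : ∃ CL : ℝ, CL = 4 * B * 2 + 2 := ⟨_, rfl⟩
  obtain ⟨CK, hCK⟩ : ∃ CK : ℝ, CK = 2 * B * (2 * B) * (2 * B) +
    ((4 * B + 2) * (2 * B + (4 * B + 2)) * (4 * B + 2) + 2 * B * (4 * B + 2) * (4 * B + 2)) :=
    ⟨_, rfl⟩
  have hCL0 : 0 ≤ CL := by rw [hCL]; positivity
  have hCK0 : 0 ≤ CK := by rw [hCK]; positivity
  refine ⟨(Fintype.card Λ) * CL + (Fintype.card K) * CK + 4 * B +
    (4 * B * (2 * B + 4 * B) + 2 * B * (4 * B)), by positivity, ?_⟩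
  intro η h0 h1 z hz hbar hcon hg0 hg1 hg2
  have hm : 0 < η ^ 2 := by positivity
  have hmη : η ^ 2 ≤ η := by nlinarith
  have hzv : ∀ v, ‖z v‖ ≤ 1 := fun v => (norm_le_pi_norm z v).trans hz
  have hE := fun u v => norm_E_le hB h0.le h1 u v
  have hzs : ∀ u v, ‖z u - z v‖ ≤ 2 := fun u v => by
    have := norm_zsub_le hz u v
    linarith
  have e1 : ∑ l, |(inner ℝ (A.P (A.lb l) - A.P (A.la l)) (z (A.lb l) - z (A.la l)) : ℝ)| ≤
      (Fintype.card Λ) * CL * η := by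
    have : ∀ l ∈ Finset.univ, |(inner ℝ (A.P (A.lb l) - A.P (A.la l))
        (z (A.lb l) - z (A.la l)) : ℝ)| ≤ CL * η := by
      intro l _
      have h2 := hbar l
      rw [pos_sub] at h2
      have h3 := bar_est _ _ _ _ hm h2
      refine h3.trans ?_
      have h4 := hE (A.lb l) (A.la l)
      have h5 := hzs (A.lb l) (A.la l)
      have h6 := norm_nonneg (z (A.lb l) - z (A.la l))
      have h7 := norm_nonneg (A.E η (A.lb l) (A.la l))
      have h8 : ‖A.E η (A.lb l) (A.la l)‖ * ‖z (A.lb l) - z (A.la l)‖ ≤ 4 * B * 2 :=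
        mul_le_mul h4 h5 h6 (by positivity)
      have h9 : ‖z (A.lb l) - z (A.la l)‖ ^ 2 / 2 ≤ 2 := by nlinarith
      calc η ^ 2 * (‖A.E η (A.lb l) (A.la l)‖ * ‖z (A.lb l) - z (A.la l)‖ +
            ‖z (A.lb l) - z (A.la l)‖ ^ 2 / 2) ≤ η * CL := by
              apply mul_le_mul hmη (by rw [hCL]; linarith) (by positivity) h0.le
        _ = CL * η := by ring
    refine (Finset.sum_le_sum this).trans ?_
    rw [Finset.sum_const, Finset.card_univ, nsmul_eq_mul]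
    exact le_of_eq (by ring)
  have e2 : ∑ k, max 0 (-(A.sg k * dt (A.D k) (A.D' k) (z (A.cj k) - z (A.ci k)))) ≤
      (Fintype.card K) * CK * η := by
    have : ∀ k ∈ Finset.univ, max 0 (-(A.sg k * dt (A.D k) (A.D' k) (z (A.cj k) - z (A.ci k))))
        ≤ CK * η := by
      intro k _
      refine max_le (by positivity) ?_
      obtain ⟨s, t, hs, ht, hst⟩ := hA.htie k
      have hx : dt (A.D k) (A.D' k) (A.X (A.cj k) - A.X (A.ci k)) = 0 := by
        rw [hst, dt_sub_3, dt_smul_3, dt_smul_3, dt_self_13, dt_self_23]; ring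
      have h2 := contact_est (A.D k) (A.D' k) _ _ _ _ _ (η ^ 2) η (A.sg k) hm.le h0.le (hA.hsg k)
        hx (hcon k)
      refine h2.trans ?_
      have n1 : ‖A.D k‖ ≤ 2 * B := norm_Psub_le hB _ _
      have n2 : ‖A.D' k‖ ≤ 2 * B := norm_Psub_le hB _ _
      have n3 : ‖A.Y (A.cj k) - A.Y (A.ci k)‖ ≤ 2 * B := norm_Ysub_le hB _ _
      have n4 : ‖A.E η (A.ci' k) (A.ci k) + (z (A.ci' k) - z (A.ci k))‖ ≤ 4 * B + 2 :=
        (norm_add_le _ _).trans (add_le_add (hE _ _) (hzs _ _))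
      have n5 : ‖A.E η (A.cj' k) (A.cj k) + (z (A.cj' k) - z (A.cj k))‖ ≤ 4 * B + 2 :=
        (norm_add_le _ _).trans (add_le_add (hE _ _) (hzs _ _))
      have n6 : ‖A.D' k + η ^ 2 • (A.E η (A.cj' k) (A.cj k) + (z (A.cj' k) - z (A.cj k)))‖ ≤
          2 * B + (4 * B + 2) := by
        refine (norm_add_le _ _).trans (add_le_add n2 ?_)
        rw [norm_smul, Real.norm_of_nonneg hm.le]
        nlinarith [norm_nonneg (A.E η (A.cj' k) (A.cj k) + (z (A.cj' k) - z (A.cj k)))]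
      have n7 : ‖A.X (A.cj k) - A.X (A.ci k) + η • (A.Y (A.cj k) - A.Y (A.ci k))
          + (z (A.cj k) - z (A.ci k))‖ ≤ 4 * B + 2 :=
        (norm_add_le _ _).trans (add_le_add (hE _ _) (hzs _ _))
      have p1 : ‖A.D k‖ * ‖A.D' k‖ * ‖A.Y (A.cj k) - A.Y (A.ci k)‖ ≤ 2 * B * (2 * B) * (2 * B) := by
        gcongr
      have p2 : ‖A.E η (A.ci' k) (A.ci k) + (z (A.ci' k) - z (A.ci k))‖ *
          ‖A.D' k + η ^ 2 • (A.E η (A.cj' k) (A.cj k) + (z (A.cj' k) - z (A.cj k)))‖ *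
          ‖A.X (A.cj k) - A.X (A.ci k) + η • (A.Y (A.cj k) - A.Y (A.ci k))
          + (z (A.cj k) - z (A.ci k))‖ ≤ (4 * B + 2) * (2 * B + (4 * B + 2)) * (4 * B + 2) := by
        gcongr
      have p3 : ‖A.D k‖ * ‖A.E η (A.cj' k) (A.cj k) + (z (A.cj' k) - z (A.cj k))‖ *
          ‖A.X (A.cj k) - A.X (A.ci k) + η • (A.Y (A.cj k) - A.Y (A.ci k))
          + (z (A.cj k) - z (A.ci k))‖ ≤ 2 * B * (4 * B + 2) * (4 * B + 2) := by
        gcongr
      have q1 := mul_le_mul_of_nonneg_left p1 h0.le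
      have q2 := mul_le_mul hmη (add_le_add p2 p3) (by positivity) h0.le
      calc _ ≤ η * (2 * B * (2 * B) * (2 * B)) + η * ((4 * B + 2) * (2 * B + (4 * B + 2)) *
            (4 * B + 2) + 2 * B * (4 * B + 2) * (4 * B + 2)) := add_le_add q1 q2
        _ = CK * η := by rw [hCK]; ring
    refine (Finset.sum_le_sum this).trans ?_
    rw [Finset.sum_const, Finset.card_univ, nsmul_eq_mul]
    exact le_of_eq (by ring)
  have e3 : ‖z A.i0‖ = 0 := by rw [hg0, norm_zero]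
  have e4 : ‖cr A.D1 (z A.i1)‖ ≤ 4 * B * η := by
    refine (gauge1_est _ _ _ _ hm.le hg1).trans ?_
    have a1 := hE A.i1 A.i0
    have a2 := hzv A.i1
    have a3 : ‖A.E η A.i1 A.i0‖ * ‖z A.i1‖ ≤ 4 * B * 1 := by gcongr
    have := mul_le_mul hmη a3 (by positivity) h0.le
    linarith
  have e5 : |dt A.D1 A.D2 (z A.i2)| ≤ (4 * B * (2 * B + 4 * B) + 2 * B * (4 * B)) * η := by
    refine (gauge2_est _ _ _ _ _ _ hm.le hg2).trans ?_
    have a1 := hE A.i1 A.i0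
    have a2 := hE A.i2 A.i0
    have a3 := hzv A.i2
    have a4 : ‖A.D1‖ ≤ 2 * B := norm_Psub_le hB _ _
    have a5 : ‖A.D2‖ ≤ 2 * B := norm_Psub_le hB _ _
    have a6 : ‖A.D2 + η ^ 2 • A.E η A.i2 A.i0‖ ≤ 2 * B + 4 * B := by
      refine (norm_add_le _ _).trans (add_le_add a5 ?_)
      rw [norm_smul, Real.norm_of_nonneg hm.le]
      nlinarith [norm_nonneg (A.E η A.i2 A.i0)]
    have a7 : ‖A.E η A.i1 A.i0‖ * ‖A.D2 + η ^ 2 • A.E η A.i2 A.i0‖ * ‖z A.i2‖ ≤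
        4 * B * (2 * B + 4 * B) * 1 := by gcongr
    have a8 : ‖A.D1‖ * ‖A.E η A.i2 A.i0‖ * ‖z A.i2‖ ≤ 2 * B * (4 * B) * 1 := by gcongr
    have := mul_le_mul hmη (add_le_add a7 a8) (by positivity) h0.le
    linarith
  unfold h
  rw [e3]
  nlinarith [e1, e2, e4, e5]

end Arr

end Pool.Agent.H282R2
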