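import Pool.Agent.H282R2.Trap2

/-!
The trap theorem: a self-touching arrangement whose linearised problem has only the trivial
solution stays trapped after a small perturbation.
-/

set_option autoImplicit false
set_option maxHeartbeats 1000000

namespace Pool.Agent.H282R2

open Filter Topology

theorem norm_cr_rot {a0 b0 a b : E3} (h0 : cr a0 b0 ≠ 0) (h : cr a b ≠ 0) (u v : E3) :
    ‖cr (rot a0 b0 a b u) (rot a0 b0 a b v)‖ = ‖cr u v‖ := by
  have h1 := norm_cr_sq (rot a0 b0 a b u) (rot a0 b0 a b v)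
  rw [norm_rot h0 h, norm_rot h0 h, inner_rot h0 h, ← norm_cr_sq] at h1
  exact (sq_eq_sq₀ (norm_nonneg _) (norm_nonneg _)).1 h1

namespace Arr

variable {V Λ K : Type} {A : Arr V Λ K}

section config

variable {η : ℝ} {q : V → E3}

theorem R_sub (u v : E3) : A.R η q (u - v) = A.R η q u - A.R η q v := rot_sub _ _ _ _ _ _
theorem R_smul (c : ℝ) (u : E3) : A.R η q (c • u) = c • A.R η q u := rot_smul _ _ _ _ _ _

theorem R_step0 (hη : 0 < η) (v : V) :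
    A.R η q (q v - q A.i0) = (A.pos η v - A.pos η A.i0) + η ^ 2 • A.Z η q v := by
  have : η ^ 2 ≠ 0 := by positivity
  rw [Z, smul_smul, mul_inv_cancel₀ this, one_smul]; abel

theorem R_step (hη : 0 < η) (u v : V) :
    A.R η q (q u - q v) = (A.pos η u - A.pos η v) + η ^ 2 • (A.Z η q u - A.Z η q v) := by
  have : q u - q v = (q u - q A.i0) - (q v - q A.i0) := by abel
  rw [this, R_sub, R_step0 hη, R_step0 hη, smul_sub]; abel

theorem Z_i0 : A.Z η q A.i0 = 0 := by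
  rw [Z, sub_self, sub_self, R, rot_zero, sub_zero, smul_zero]

theorem pos_va : A.va (A.pos η) = A.D1 + η ^ 2 • A.E η A.i1 A.i0 := by
  rw [va, pos_sub]; rfl

theorem pos_vb : A.vb (A.pos η) = A.D2 + η ^ 2 • A.E η A.i2 A.i0 := by
  rw [vb, pos_sub]; rfl

variable (h0 : cr (A.va (A.pos η)) (A.vb (A.pos η)) ≠ 0) (h : cr (A.va q) (A.vb q) ≠ 0)

include h0 h

theorem norm_R (u : E3) : ‖A.R η q u‖ = ‖u‖ := norm_rot h0 h u

theorem R_inj {u v : E3} (e : A.R η q u = A.R η q v) : u = v := by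
  have h1 := norm_R h0 h (u - v)
  rw [R_sub, e, sub_self, norm_zero] at h1
  exact sub_eq_zero.1 (norm_eq_zero.1 h1.symm)

theorem gauge1 (hη : 0 < η) :
    cr (A.D1 + η ^ 2 • A.E η A.i1 A.i0) (A.Z η q A.i1) = 0 := by
  rw [← pos_va]
  have h1 : cr (A.va (A.pos η)) (A.R η q (A.va q)) = 0 := cr_rot h0 h
  have h2 : A.R η q (A.va q) = A.va (A.pos η) + η ^ 2 • A.Z η q A.i1 := R_step0 hη A.i1
  rw [h2, cr_add_2, cr_self, zero_add, cr_smul_2] at h1
  exact (smul_eq_zero.1 h1).resolve_left (by positivity)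

theorem gauge2 (hη : 0 < η) :
    dt (A.D1 + η ^ 2 • A.E η A.i1 A.i0) (A.D2 + η ^ 2 • A.E η A.i2 A.i0) (A.Z η q A.i2) = 0 := by
  rw [← pos_va, ← pos_vb]
  have h1 : dt (A.va (A.pos η)) (A.vb (A.pos η)) (A.R η q (A.vb q)) = 0 := dt_rot_gauge h0 h
  have h2 : A.R η q (A.vb q) = A.vb (A.pos η) + η ^ 2 • A.Z η q A.i2 := R_step0 hη A.i2
  rw [h2, dt_add_3, dt_self_23, zero_add, dt_smul_3] at h1
  exact (mul_eq_zero.1 h1).resolve_left (by positivity)

theorem bars (hη : 0 < η) (u v : V) (hl : ‖q u - q v‖ = ‖A.pos η u - A.pos η v‖) :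
    ‖(A.pos η u - A.pos η v) + η ^ 2 • (A.Z η q u - A.Z η q v)‖ =
      ‖A.pos η u - A.pos η v‖ := by
  rw [← R_step hη, norm_R h0 h, hl]

theorem dk_eq (hA : A.Good) (hη : 0 < η) (k : K) :
    A.dk q k = η ^ 2 * (A.sg k *
      dt (A.D k + η ^ 2 • (A.E η (A.ci' k) (A.ci k) + (A.Z η q (A.ci' k) - A.Z η q (A.ci k))))
      (A.D' k + η ^ 2 • (A.E η (A.cj' k) (A.cj k) + (A.Z η q (A.cj' k) - A.Z η q (A.cj k))))
      ((A.X (A.cj k) - A.X (A.ci k)) + η • (A.Y (A.cj k) - A.Y (A.ci k))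
        + (A.Z η q (A.cj k) - A.Z η q (A.ci k)))) := by
  have h1 : dt (q (A.ci' k) - q (A.ci k)) (q (A.cj' k) - q (A.cj k)) (q (A.cj k) - q (A.ci k)) =
      dt (A.R η q (q (A.ci' k) - q (A.ci k))) (A.R η q (q (A.cj' k) - q (A.cj k)))
        (A.R η q (q (A.cj k) - q (A.ci k))) := (dt_rot h0 h _ _ _).symm
  have e1 : A.R η q (q (A.ci' k) - q (A.ci k)) =
      A.D k + η ^ 2 • (A.E η (A.ci' k) (A.ci k) + (A.Z η q (A.ci' k) - A.Z η q (A.ci k))) := by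
    rw [R_step hη, pos_sub, D]; module
  have e2 : A.R η q (q (A.cj' k) - q (A.cj k)) =
      A.D' k + η ^ 2 • (A.E η (A.cj' k) (A.cj k) + (A.Z η q (A.cj' k) - A.Z η q (A.cj k))) := by
    rw [R_step hη, pos_sub, D']; module
  have e3 : A.R η q (q (A.cj k) - q (A.ci k)) =
      η ^ 2 • ((A.X (A.cj k) - A.X (A.ci k)) + η • (A.Y (A.cj k) - A.Y (A.ci k))
        + (A.Z η q (A.cj k) - A.Z η q (A.ci k))) := by
    rw [R_step hη, pos_sub, hA.hP k, sub_self, E]; module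
  rw [dk, h1, e1, e2, e3, dt_smul_3]; ring

end config

theorem ev_lt (a b : ℝ) (hb : 0 < b) : ∀ᶠ η in 𝓝[>] (0 : ℝ), a * η < b := by
  have h1 : Tendsto (fun η : ℝ => a * η) (𝓝[>] 0) (𝓝 (a * 0)) :=
    (tendsto_id.const_mul a).mono_left nhdsWithin_le_nhds
  rw [mul_zero] at h1
  exact h1.eventually_lt_const hb

theorem ev_pos : ∀ᶠ η in 𝓝[>] (0 : ℝ), 0 < η := eventually_mem_nhdsWithin

/-- a uniform version of `cross_local` -/
theorem cross_uniform [Fintype K] (hA : A.Good) :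
    ∃ r > 0, ∃ M > 0, ∀ k, ∀ a b d : E3, ‖a - A.D k‖ < r → ‖b - A.D' k‖ < r →
      ‖d - (A.X (A.cj k) - A.X (A.ci k))‖ < r →
      dt a b d = 0 → ∃ σ τ : ℝ, 0 < σ ∧ σ ≤ M ∧ 0 < τ ∧ τ ≤ M ∧ d = σ • a - τ • b := by
  have h1 : ∀ k, ∃ r > 0, ∃ M > 0, ∀ a b d : E3, ‖a - A.D k‖ < r → ‖b - A.D' k‖ < r →
      ‖d - (A.X (A.cj k) - A.X (A.ci k))‖ < r →
      dt a b d = 0 → ∃ σ τ : ℝ, 0 < σ ∧ σ ≤ M ∧ 0 < τ ∧ τ ≤ M ∧ d = σ • a - τ • b := by
    intro k
    obtain ⟨s, t, hs, ht, hst⟩ := hA.htie k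
    rw [hst]
    exact cross_local _ _ s t hs ht (hA.hind k)
  choose r hr M hM H using h1
  have hrs : ∀ k, (r k)⁻¹ ≤ ∑ k, (r k)⁻¹ := fun k =>
    Finset.single_le_sum (f := fun k => (r k)⁻¹) (fun k _ => inv_nonneg.2 (hr k).le)
      (Finset.mem_univ k)
  have hMs : ∀ k, M k ≤ ∑ k, M k := fun k =>
    Finset.single_le_sum (f := fun k => M k) (fun k _ => (hM k).le) (Finset.mem_univ k)
  have h0 : 0 ≤ ∑ k, (r k)⁻¹ := Finset.sum_nonneg fun k _ => inv_nonneg.2 (hr k).le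
  have h0' : 0 ≤ ∑ k, M k := Finset.sum_nonneg fun k _ => (hM k).le
  have hrr : ∀ k, (1 + ∑ k, (r k)⁻¹)⁻¹ ≤ r k := by
    intro k
    rw [inv_le_comm₀ (by linarith) (hr k)]
    linarith [hrs k]
  refine ⟨(1 + ∑ k, (r k)⁻¹)⁻¹, by positivity, 1 + ∑ k, M k, by positivity,
    fun k a b d ha hb hd h => ?_⟩
  obtain ⟨σ, τ, h1, h2, h3, h4, h5⟩ := H k a b d (ha.trans_le (hrr k)) (hb.trans_le (hrr k))
    (hd.trans_le (hrr k)) h
  exact ⟨σ, τ, h1, by linarith [hMs k], h3, by linarith [hMs k], h5⟩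

theorem base_local (D D' : E3) (hind : cr D D' ≠ 0) :
    ∃ ρ > 0, ∀ a b : E3, ‖a - D‖ < ρ → ‖b - D'‖ < ρ → ‖cr D D'‖ / 2 < ‖cr a b‖ := by
  have hpos : 0 < ‖cr D D'‖ := norm_pos_iff.2 hind
  have hc : Continuous fun p : E3 × E3 => ‖cr p.1 p.2‖ := continuous_cr.norm
  have h1 : ‖cr D D'‖ / 2 < ‖cr (D, D').1 (D, D').2‖ := by linarith
  have ev := hc.continuousAt.eventually_const_lt h1
  obtain ⟨r, hr, hball⟩ := Metric.eventually_nhds_iff.1 ev
  refine ⟨r, hr, fun a b ha hb => ?_⟩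
  have hd : dist (a, b) (D, D') < r := by
    rw [Prod.dist_eq, dist_eq_norm, dist_eq_norm]; exact max_lt ha hb
  have := hball hd
  exact this

theorem mem_seg (a b : E3) (s : ℝ) (h0 : 0 ≤ s) (h1 : s ≤ 1) : a + s • (b - a) ∈ segment ℝ a b := by
  rw [segment_eq_image']
  exact ⟨s, ⟨h0, h1⟩, rfl⟩

variable [Fintype V] [Fintype Λ] [Fintype K]

/-- The trap theorem. -/
theorem trap (hA : A.Good) : ∀ᶠ η in 𝓝[>] (0 : ℝ), ∀ Q : unitInterval → V → E3, Continuous Q →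
    Q 0 = A.pos η →
    (∀ t l, ‖Q t (A.lb l) - Q t (A.la l)‖ = ‖A.pos η (A.lb l) - A.pos η (A.la l)‖) →
    (∀ t k, Disjoint (segment ℝ (Q t (A.ci k)) (Q t (A.ci' k)))
      (segment ℝ (Q t (A.cj k)) (Q t (A.cj' k)))) →
    ∀ t, cr (A.va (Q t)) (A.vb (Q t)) ≠ 0 := by
  obtain ⟨B, hB⟩ := A.exists_bdd
  have hB0 := hB.1
  obtain ⟨c0, hc0, hc⟩ := A.exists_c0 hA
  obtain ⟨C, hC0, hC⟩ := h_est hA
  obtain ⟨r, hr, M, hM, hcross⟩ := cross_uniform hA
  obtain ⟨ρ, hρ, hbase⟩ := base_local A.D1 A.D2 hA.hbase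
  obtain ⟨μ, hμdef⟩ : ∃ μ, μ = ‖cr A.D1 A.D2‖ / 2 := ⟨_, rfl⟩
  have hμ : 0 < μ := by
    rw [hμdef]
    have := norm_pos_iff.2 hA.hbase
    linarith
  obtain ⟨κ, hκdef⟩ : ∃ κ, κ = min (r / 8) 1 := ⟨_, rfl⟩
  have hκ0 : 0 < κ := by rw [hκdef]; positivity
  have hκr : κ ≤ r / 8 := by rw [hκdef]; exact min_le_left _ _
  have hκ1 : κ ≤ 1 := by rw [hκdef]; exact min_le_right _ _
  -- the initial signs
  have ev0 : ∀ᶠ η in 𝓝[>] (0 : ℝ), ∀ k, 0 < A.sg k *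
      dt (A.D k + η ^ 2 • A.E η (A.ci' k) (A.ci k)) (A.D' k + η ^ 2 • A.E η (A.cj' k) (A.cj k))
      ((A.X (A.cj k) - A.X (A.ci k)) + η • (A.Y (A.cj k) - A.Y (A.ci k))) := by
    rw [eventually_all]
    intro k
    have hy := hA.hy k
    obtain ⟨c, hcdef⟩ : ∃ c, c = A.sg k * dt (A.D k) (A.D' k) (A.Y (A.cj k) - A.Y (A.ci k)) :=
      ⟨_, rfl⟩
    rw [← hcdef] at hy
    obtain ⟨CC, hCC⟩ : ∃ CC : ℝ, CC = 4 * B * (2 * B + 4 * B) * (4 * B) +
      2 * B * (4 * B) * (4 * B) := ⟨_, rfl⟩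
    filter_upwards [ev_pos, ev_lt 1 1 one_pos, ev_lt CC c hy] with η h0 h1 h2
    have h1' : η ≤ 1 := by linarith
    obtain ⟨s, t, hs, ht, hst⟩ := hA.htie k
    have hx : dt (A.D k) (A.D' k) (A.X (A.cj k) - A.X (A.ci k)) = 0 := by
      rw [hst, dt_sub_3, dt_smul_3, dt_smul_3, dt_self_13, dt_self_23]; ring
    have hm : 0 ≤ η ^ 2 := by positivity
    have hm1 : η ^ 2 ≤ 1 := by nlinarith
    have h3 := dt_est (A.D k) (A.D' k) (A.E η (A.ci' k) (A.ci k)) (A.E η (A.cj' k) (A.cj k))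
      ((A.X (A.cj k) - A.X (A.ci k)) + η • (A.Y (A.cj k) - A.Y (A.ci k))) (η ^ 2) hm
    have h4 : dt (A.D k) (A.D' k) ((A.X (A.cj k) - A.X (A.ci k)) +
        η • (A.Y (A.cj k) - A.Y (A.ci k))) =
        η * dt (A.D k) (A.D' k) (A.Y (A.cj k) - A.Y (A.ci k)) := by
      rw [dt_add_3, dt_smul_3, hx, zero_add]
    have n1 : ‖A.D k‖ ≤ 2 * B := norm_Psub_le hB _ _
    have n2 : ‖A.D' k‖ ≤ 2 * B := norm_Psub_le hB _ _
    have n4 : ‖A.E η (A.ci' k) (A.ci k)‖ ≤ 4 * B := norm_E_le hB h0.le h1' _ _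
    have n5 : ‖A.E η (A.cj' k) (A.cj k)‖ ≤ 4 * B := norm_E_le hB h0.le h1' _ _
    have n6 : ‖A.D' k + η ^ 2 • A.E η (A.cj' k) (A.cj k)‖ ≤ 2 * B + 4 * B := by
      refine (norm_add_le _ _).trans (add_le_add n2 ?_)
      rw [norm_smul, Real.norm_of_nonneg hm]
      calc η ^ 2 * ‖A.E η (A.cj' k) (A.cj k)‖ ≤ 1 * (4 * B) :=
            mul_le_mul hm1 n5 (norm_nonneg _) zero_le_one
        _ = 4 * B := one_mul _
    have n7 : ‖A.X (A.cj k) - A.X (A.ci k) + η • (A.Y (A.cj k) - A.Y (A.ci k))‖ ≤ 4 * B :=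
      norm_E_le hB h0.le h1' _ _
    have p2 : ‖A.E η (A.ci' k) (A.ci k)‖ * ‖A.D' k + η ^ 2 • A.E η (A.cj' k) (A.cj k)‖ *
        ‖A.X (A.cj k) - A.X (A.ci k) + η • (A.Y (A.cj k) - A.Y (A.ci k))‖ ≤
        4 * B * (2 * B + 4 * B) * (4 * B) := by gcongr
    have p3 : ‖A.D k‖ * ‖A.E η (A.cj' k) (A.cj k)‖ *
        ‖A.X (A.cj k) - A.X (A.ci k) + η • (A.Y (A.cj k) - A.Y (A.ci k))‖ ≤
        2 * B * (4 * B) * (4 * B) := by gcongr
    have p4 := h3.trans (mul_le_mul_of_nonneg_left (add_le_add p2 p3) hm)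
    rw [← hCC, h4] at p4
    have p5 := abs_le.1 p4
    have p6 : η ^ 2 * CC < η * c := by nlinarith
    rcases hA.hsg k with hs1 | hs1
    · rw [hs1, one_mul] at hcdef
      rw [hs1, one_mul, ]
      rw [← hcdef] at p5
      linarith [p5.1]
    · rw [hs1] at hcdef
      rw [hs1]
      have : dt (A.D k) (A.D' k) (A.Y (A.cj k) - A.Y (A.ci k)) = -c := by rw [hcdef]; ring
      rw [this] at p5
      linarith [p5.2]
  filter_upwards [ev_pos, ev_lt 1 1 one_pos, ev0, ev_lt (4 * B + 2) r hr,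
    ev_lt (2 * B) (r / 4) (by positivity), ev_lt C (c0 * κ / 2) (by positivity),
    ev_lt M 1 one_pos, ev_lt (4 * B + 2) ρ hρ] with η h0 h1 hinit hr1 hr2 hCη hMη hρη
  intro Q hQc hQ0 hlen hdisj
  have h1' : η ≤ 1 := by linarith
  have hm : 0 < η ^ 2 := by positivity
  have hmη : η ^ 2 ≤ η := by nlinarith
  have hbase0 : cr (A.va (A.pos η)) (A.vb (A.pos η)) ≠ 0 := by
    have a1 : ∀ u v : V, ‖η ^ 2 • A.E η u v‖ < ρ := by
      intro u v
      rw [norm_smul, Real.norm_of_nonneg hm.le]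
      have := norm_E_le hB h0.le h1' u v
      have h5 := norm_nonneg (A.E η u v)
      calc η ^ 2 * ‖A.E η u v‖ ≤ η * (4 * B) := mul_le_mul hmη this h5 h0.le
        _ < ρ := by linarith
    have := hbase (A.va (A.pos η)) (A.vb (A.pos η)) (by rw [pos_va, add_sub_cancel_left]; exact a1 _ _)
      (by rw [pos_vb, add_sub_cancel_left]; exact a1 _ _)
    rw [← hμdef] at this
    exact norm_pos_iff.1 (hμ.trans this)
  -- a normalised configuration that is close and has the right signs is very close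
  have key1 : ∀ t, cr (A.va (Q t)) (A.vb (Q t)) ≠ 0 → ‖A.Z η (Q t)‖ ≤ κ →
      (∀ k, 0 ≤ A.dk (Q t) k) → ‖A.Z η (Q t)‖ ≤ κ / 2 := by
    intro t ht hz hd
    have e := hC η h0 h1' (A.Z η (Q t)) (hz.trans hκ1)
      (fun l => bars hbase0 ht h0 _ _ (hlen t l))
      (fun k => by
        have := hd k
        rw [dk_eq hbase0 ht hA h0] at this
        exact (mul_nonneg_iff_of_pos_left hm).1 this)
      Z_i0 (gauge1 hbase0 ht h0) (gauge2 hbase0 ht h0)
    have e2 := hc (A.Z η (Q t))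
    have e3 : c0 * ‖A.Z η (Q t)‖ < c0 * (κ / 2) := by linarith
    exact (lt_of_mul_lt_mul_left e3 hc0.le).le
  have key2 : ∀ t, cr (A.va (Q t)) (A.vb (Q t)) ≠ 0 → ‖A.Z η (Q t)‖ ≤ κ →
      μ < ‖cr (A.va (Q t)) (A.vb (Q t))‖ := by
    intro t ht hz
    have e1 : A.R η (Q t) (A.va (Q t)) = A.D1 + η ^ 2 • (A.E η A.i1 A.i0 + A.Z η (Q t) A.i1) := by
      have : A.R η (Q t) (A.va (Q t)) = A.va (A.pos η) + η ^ 2 • A.Z η (Q t) A.i1 := R_step0 h0 A.i1
      rw [this, pos_va]; module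
    have e2 : A.R η (Q t) (A.vb (Q t)) = A.D2 + η ^ 2 • (A.E η A.i2 A.i0 + A.Z η (Q t) A.i2) := by
      have : A.R η (Q t) (A.vb (Q t)) = A.vb (A.pos η) + η ^ 2 • A.Z η (Q t) A.i2 := R_step0 h0 A.i2
      rw [this, pos_vb]; module
    have a1 : ∀ u v w : V, ‖η ^ 2 • (A.E η u v + A.Z η (Q t) w)‖ < ρ := by
      intro u v w
      rw [norm_smul, Real.norm_of_nonneg hm.le]
      have a2 := norm_E_le hB h0.le h1' u v
      have a3 : ‖A.Z η (Q t) w‖ ≤ 1 := (norm_le_pi_norm _ w).trans (hz.trans hκ1)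
      have a4 : ‖A.E η u v + A.Z η (Q t) w‖ ≤ 4 * B + 2 := (norm_add_le _ _).trans (by linarith)
      calc η ^ 2 * ‖A.E η u v + A.Z η (Q t) w‖ ≤ η * (4 * B + 2) :=
            mul_le_mul hmη a4 (norm_nonneg _) h0.le
        _ < ρ := by linarith
    have := hbase (A.R η (Q t) (A.va (Q t))) (A.R η (Q t) (A.vb (Q t)))
      (by rw [e1, add_sub_cancel_left]; exact a1 _ _ _)
      (by rw [e2, add_sub_cancel_left]; exact a1 _ _ _)
    rw [← hμdef] at this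
    have e3 : ‖cr (A.R η (Q t) (A.va (Q t))) (A.R η (Q t) (A.vb (Q t)))‖ =
      ‖cr (A.va (Q t)) (A.vb (Q t))‖ := norm_cr_rot hbase0 ht _ _
    rwa [e3] at this
  have key3 : ∀ t, cr (A.va (Q t)) (A.vb (Q t)) ≠ 0 → ‖A.Z η (Q t)‖ ≤ κ →
      ∀ k, A.dk (Q t) k ≠ 0 := by
    intro t ht hz k hk
    have hzs := norm_zsub_le hz
    have hk2 := hk
    rw [dk_eq hbase0 ht hA h0] at hk2
    have hsg : A.sg k ≠ 0 := by rcases hA.hsg k with h | h <;> rw [h] <;> norm_num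
    have hk3 := (mul_eq_zero.1 ((mul_eq_zero.1 hk2).resolve_left hm.ne')).resolve_left hsg
    have a1 : ∀ u v : V, ‖η ^ 2 • (A.E η u v + (A.Z η (Q t) u - A.Z η (Q t) v))‖ < r := by
      intro u v
      rw [norm_smul, Real.norm_of_nonneg hm.le]
      have a2 := norm_E_le hB h0.le h1' u v
      have a3 := hzs u v
      have a4 : ‖A.E η u v + (A.Z η (Q t) u - A.Z η (Q t) v)‖ ≤ 4 * B + 2 :=
        (norm_add_le _ _).trans (by linarith)
      calc η ^ 2 * ‖A.E η u v + (A.Z η (Q t) u - A.Z η (Q t) v)‖ ≤ η * (4 * B + 2) :=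
            mul_le_mul hmη a4 (norm_nonneg _) h0.le
        _ < r := by linarith
    obtain ⟨σ, τ, s1, s2, s3, s4, s5⟩ := hcross k _ _ _
      (by rw [add_sub_cancel_left]; exact a1 _ _) (by rw [add_sub_cancel_left]; exact a1 _ _)
      (by
        have : A.X (A.cj k) - A.X (A.ci k) + η • (A.Y (A.cj k) - A.Y (A.ci k)) +
            (A.Z η (Q t) (A.cj k) - A.Z η (Q t) (A.ci k)) - (A.X (A.cj k) - A.X (A.ci k)) =
            η • (A.Y (A.cj k) - A.Y (A.ci k)) + (A.Z η (Q t) (A.cj k) - A.Z η (Q t) (A.ci k)) := by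
          abel
        rw [this]
        refine (norm_add_le _ _).trans_lt ?_
        rw [norm_smul, Real.norm_of_nonneg h0.le]
        have b1 := norm_Ysub_le hB (A.cj k) (A.ci k)
        have b2 := hzs (A.cj k) (A.ci k)
        have b3 : η * ‖A.Y (A.cj k) - A.Y (A.ci k)‖ ≤ η * (2 * B) :=
          mul_le_mul_of_nonneg_left b1 h0.le
        linarith) hk3
    -- the two links have a common point
    have e1 : A.R η (Q t) (Q t (A.ci' k) - Q t (A.ci k)) =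
        A.D k + η ^ 2 • (A.E η (A.ci' k) (A.ci k) +
          (A.Z η (Q t) (A.ci' k) - A.Z η (Q t) (A.ci k))) := by
      rw [R_step h0, pos_sub, D]; module
    have e2 : A.R η (Q t) (Q t (A.cj' k) - Q t (A.cj k)) =
        A.D' k + η ^ 2 • (A.E η (A.cj' k) (A.cj k) +
          (A.Z η (Q t) (A.cj' k) - A.Z η (Q t) (A.cj k))) := by
      rw [R_step h0, pos_sub, D']; module
    have e3 : A.R η (Q t) (Q t (A.cj k) - Q t (A.ci k)) =
        η ^ 2 • ((A.X (A.cj k) - A.X (A.ci k)) + η • (A.Y (A.cj k) - A.Y (A.ci k))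
          + (A.Z η (Q t) (A.cj k) - A.Z η (Q t) (A.ci k))) := by
      rw [R_step h0, pos_sub, hA.hP k, sub_self, E]; module
    rw [← e1, ← e2] at s5
    rw [s5, smul_sub, smul_smul, smul_smul, ← R_smul, ← R_smul, ← R_sub] at e3
    have e4 := R_inj hbase0 ht e3
    have m1 : η ^ 2 * σ ≤ 1 := by
      calc η ^ 2 * σ ≤ η * M := mul_le_mul hmη s2 s1.le h0.le
        _ ≤ 1 := by linarith
    have m2 : η ^ 2 * τ ≤ 1 := by
      calc η ^ 2 * τ ≤ η * M := mul_le_mul hmη s4 s3.le h0.le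
        _ ≤ 1 := by linarith
    have p1 := mem_seg (Q t (A.ci k)) (Q t (A.ci' k)) (η ^ 2 * σ) (by positivity) m1
    have p2 := mem_seg (Q t (A.cj k)) (Q t (A.cj' k)) (η ^ 2 * τ) (by positivity) m2
    have e5 : Q t (A.ci k) + (η ^ 2 * σ) • (Q t (A.ci' k) - Q t (A.ci k)) =
        Q t (A.cj k) + (η ^ 2 * τ) • (Q t (A.cj' k) - Q t (A.cj k)) := by
      rw [add_comm (Q t (A.ci k)), ← (sub_eq_sub_iff_add_eq_add.1 e4)]
    rw [e5] at p1
    exact Set.disjoint_left.1 (hdisj t k) p1 p2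
  -- the good set is clopen
  have hva : Continuous fun t => A.va (Q t) :=
    ((continuous_apply A.i1).comp hQc).sub ((continuous_apply A.i0).comp hQc)
  have hvb : Continuous fun t => A.vb (Q t) :=
    ((continuous_apply A.i2).comp hQc).sub ((continuous_apply A.i0).comp hQc)
  have hcr : Continuous fun t => cr (A.va (Q t)) (A.vb (Q t)) := Continuous.cr hva hvb
  have hZ : ∀ t, cr (A.va (Q t)) (A.vb (Q t)) ≠ 0 → ContinuousAt (fun t => A.Z η (Q t)) t := by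
    intro t ht
    rw [continuousAt_pi]
    intro v
    have hu : Continuous fun t => Q t v - Q t A.i0 :=
      ((continuous_apply v).comp hQc).sub ((continuous_apply A.i0).comp hQc)
    have c1 : ContinuousAt (fun t => A.R η (Q t) (Q t v - Q t A.i0)) t :=
      continuousAt_comp_rot _ _ hva.continuousAt hvb.continuousAt hu.continuousAt ht
    exact ContinuousAt.const_smul (c1.sub (continuousAt_const (y := A.pos η v - A.pos η A.i0)))
      ((η ^ 2)⁻¹)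
  have hdk : ∀ k, Continuous fun t => A.dk (Q t) k := by
    intro k
    unfold dk
    have hq : ∀ v, Continuous fun t => Q t v := fun v => (continuous_apply v).comp hQc
    exact continuous_const.mul (Continuous.dt ((hq _).sub (hq _)) ((hq _).sub (hq _))
      ((hq _).sub (hq _)))
  obtain ⟨S, hS⟩ : ∃ S : Set unitInterval, S = {t | μ ≤ ‖cr (A.va (Q t)) (A.vb (Q t))‖ ∧
    ‖A.Z η (Q t)‖ ≤ κ / 2 ∧ ∀ k, 0 < A.dk (Q t) k} := ⟨_, rfl⟩
  have hne : ∀ t, μ ≤ ‖cr (A.va (Q t)) (A.vb (Q t))‖ → cr (A.va (Q t)) (A.vb (Q t)) ≠ 0 :=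
    fun t ht => norm_pos_iff.1 (hμ.trans_le ht)
  have hclosed : IsClosed S := by
    have hF : IsClosed {t | μ ≤ ‖cr (A.va (Q t)) (A.vb (Q t))‖} :=
      isClosed_le continuous_const hcr.norm
    have hG : IsClosed ({t | μ ≤ ‖cr (A.va (Q t)) (A.vb (Q t))‖} ∩
        (fun t => ‖A.Z η (Q t)‖) ⁻¹' Set.Iic (κ / 2)) := by
      refine ContinuousOn.preimage_isClosed_of_isClosed ?_ hF isClosed_Iic
      intro t ht
      exact (hZ t (hne t ht)).norm.continuousWithinAt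
    have hH : IsClosed {t | ∀ k, 0 ≤ A.dk (Q t) k} := by
      rw [Set.ofPred_forall]
      exact isClosed_iInter fun k => isClosed_le continuous_const (hdk k)
    have : S = ({t | μ ≤ ‖cr (A.va (Q t)) (A.vb (Q t))‖} ∩
        (fun t => ‖A.Z η (Q t)‖) ⁻¹' Set.Iic (κ / 2)) ∩ {t | ∀ k, 0 ≤ A.dk (Q t) k} := by
      ext t
      rw [hS]
      constructor
      · rintro ⟨a1, a2, a3⟩
        exact ⟨⟨a1, a2⟩, fun k => (a3 k).le⟩
      · rintro ⟨⟨a1, a2⟩, a3⟩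
        have a2' : ‖A.Z η (Q t)‖ ≤ κ / 2 := a2
        exact ⟨a1, a2', fun k => lt_of_le_of_ne (a3 k)
          (Ne.symm (key3 t (hne t a1) (by linarith) k))⟩
    rw [this]
    exact hG.inter hH
  have hopen : IsOpen S := by
    rw [isOpen_iff_mem_nhds]
    intro t ht
    rw [hS] at ht
    obtain ⟨a1, a2, a3⟩ := ht
    have b1 : ∀ᶠ s in 𝓝 t, cr (A.va (Q s)) (A.vb (Q s)) ≠ 0 :=
      hcr.continuousAt.eventually_ne (hne t a1)
    have b2 : ∀ᶠ s in 𝓝 t, ‖A.Z η (Q s)‖ < κ :=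
      (hZ t (hne t a1)).norm.eventually_lt_const (by beta_reduce; linarith)
    have b3 : ∀ᶠ s in 𝓝 t, ∀ k, 0 < A.dk (Q s) k := by
      rw [eventually_all]
      exact fun k => (hdk k).continuousAt.eventually_const_lt (a3 k)
    filter_upwards [b1, b2, b3] with s c1 c2 c3
    rw [hS]
    exact ⟨(key2 s c1 c2.le).le, key1 s c1 c2.le (fun k => (c3 k).le), c3⟩
  have h0S : (0 : unitInterval) ∈ S := by
    rw [hS]
    have hz : A.Z η (Q 0) = 0 := by
      funext v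
      rw [hQ0, Z, R, rot_self hbase0, sub_self, smul_zero]; rfl
    have hb : cr (A.va (Q 0)) (A.vb (Q 0)) ≠ 0 := by rw [hQ0]; exact hbase0
    refine ⟨(key2 0 hb (by rw [hz, norm_zero]; exact hκ0.le)).le, by rw [hz, norm_zero]; positivity,
      fun k => ?_⟩
    rw [dk_eq hbase0 hb hA h0, hz]
    have := hinit k
    simp only [Pi.zero_apply, sub_self, add_zero]
    positivity
  have huniv : S = Set.univ := IsClopen.eq_univ ⟨hclosed, hopen⟩ ⟨0, h0S⟩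
  intro t
  have : t ∈ S := by rw [huniv]; exact Set.mem_univ t
  rw [hS] at this
  exact hne t this.1

end Arr

end Pool.Agent.H282R2
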