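import Mathlib

/-!
Elementary vector algebra in Euclidean 3-space: cross product, determinant, and the rotation that
carries the frame of a pair of vectors to the frame of another pair.
-/

set_option autoImplicit false
set_option maxHeartbeats 1000000

namespace Pool.Agent.H282R2

open Filter Topology

/-- Euclidean three-space. -/
abbrev E3 : Type := EuclideanSpace ℝ (Fin 3)

/-- cross product -/
noncomputable def cr (u v : E3) : E3 :=
  !₂[u 1 * v 2 - u 2 * v 1, u 2 * v 0 - u 0 * v 2, u 0 * v 1 - u 1 * v 0]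

/-- determinant of three vectors -/
noncomputable def dt (u v w : E3) : ℝ :=
  u 0 * (v 1 * w 2 - v 2 * w 1) + u 1 * (v 2 * w 0 - v 0 * w 2) + u 2 * (v 0 * w 1 - v 1 * w 0)

@[simp] theorem cr_zero (u v : E3) : cr u v 0 = u 1 * v 2 - u 2 * v 1 := rfl
@[simp] theorem cr_one (u v : E3) : cr u v 1 = u 2 * v 0 - u 0 * v 2 := rfl
@[simp] theorem cr_two (u v : E3) : cr u v 2 = u 0 * v 1 - u 1 * v 0 := rfl

theorem ext3 {u v : E3} (h0 : u 0 = v 0) (h1 : u 1 = v 1) (h2 : u 2 = v 2) : u = v := by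
  ext i
  fin_cases i
  · exact h0
  · exact h1
  · exact h2

theorem inner3 (u v : E3) : inner ℝ u v = u 0 * v 0 + u 1 * v 1 + u 2 * v 2 := by
  simp [PiLp.inner_apply, Fin.sum_univ_three, mul_comm]

theorem norm_sq3 (u : E3) : ‖u‖ ^ 2 = u 0 * u 0 + u 1 * u 1 + u 2 * u 2 := by
  rw [← real_inner_self_eq_norm_sq, inner3]

theorem dt_eq_inner (u v w : E3) : dt u v w = inner ℝ u (cr v w) := by
  simp [dt, inner3]

theorem dt_add_1 (u u' v w : E3) : dt (u + u') v w = dt u v w + dt u' v w := by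
  simp [dt]; ring
theorem dt_add_2 (u v v' w : E3) : dt u (v + v') w = dt u v w + dt u v' w := by
  simp [dt]; ring
theorem dt_add_3 (u v w w' : E3) : dt u v (w + w') = dt u v w + dt u v w' := by
  simp [dt]; ring
theorem dt_smul_1 (c : ℝ) (u v w : E3) : dt (c • u) v w = c * dt u v w := by
  simp [dt]; ring
theorem dt_smul_2 (c : ℝ) (u v w : E3) : dt u (c • v) w = c * dt u v w := by
  simp [dt]; ring
theorem dt_smul_3 (c : ℝ) (u v w : E3) : dt u v (c • w) = c * dt u v w := by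
  simp [dt]; ring
theorem dt_sub_3 (u v w w' : E3) : dt u v (w - w') = dt u v w - dt u v w' := by
  simp [dt]; ring
theorem dt_self_13 (u v : E3) : dt u v u = 0 := by
  simp [dt]; ring
theorem dt_self_23 (u v : E3) : dt u v v = 0 := by
  simp [dt]; ring

theorem cr_add_1 (u u' v : E3) : cr (u + u') v = cr u v + cr u' v := by
  apply ext3 <;> simp <;> ring
theorem cr_smul_1 (c : ℝ) (u v : E3) : cr (c • u) v = c • cr u v := by
  apply ext3 <;> simp <;> ring
theorem cr_smul_2 (c : ℝ) (u v : E3) : cr u (c • v) = c • cr u v := by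
  apply ext3 <;> simp <;> ring
theorem cr_add_2 (u v v' : E3) : cr u (v + v') = cr u v + cr u v' := by
  apply ext3 <;> simp <;> ring
theorem cr_self (u : E3) : cr u u = 0 := by
  apply ext3 <;> simp <;> ring

theorem norm_cr_sq (u v : E3) : ‖cr u v‖ ^ 2 = ‖u‖ ^ 2 * ‖v‖ ^ 2 - inner ℝ u v ^ 2 := by
  rw [norm_sq3, norm_sq3, norm_sq3, inner3]; simp; ring

theorem norm_cr_le (u v : E3) : ‖cr u v‖ ≤ ‖u‖ * ‖v‖ := by
  have h := norm_cr_sq u v
  have h2 : 0 ≤ ‖u‖ * ‖v‖ := by positivity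
  nlinarith [sq_nonneg (inner ℝ u v : ℝ), norm_nonneg (cr u v)]

theorem abs_dt_le (u v w : E3) : |dt u v w| ≤ ‖u‖ * ‖v‖ * ‖w‖ := by
  rw [dt_eq_inner]
  have h1 := abs_real_inner_le_norm u (cr v w)
  have h2 := norm_cr_le v w
  have h3 : ‖u‖ * ‖cr v w‖ ≤ ‖u‖ * (‖v‖ * ‖w‖) := by gcongr
  linarith

theorem inner_cr_left (u v : E3) : inner ℝ u (cr u v) = 0 := by
  rw [inner3]; simp; ring
theorem inner_cr_right (u v : E3) : inner ℝ v (cr u v) = 0 := by
  rw [inner3]; simp; ring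

/-- Cramer's rule. -/
theorem cramer (a b d : E3) :
    ‖cr a b‖ ^ 2 • d = dt d b (cr a b) • a + dt a d (cr a b) • b + dt a b d • cr a b := by
  rw [norm_sq3]
  apply ext3 <;> simp [dt] <;> ring

theorem continuous_cr : Continuous fun p : E3 × E3 => cr p.1 p.2 := by
  unfold cr
  fun_prop

theorem continuous_dt : Continuous fun p : E3 × E3 × E3 => dt p.1 p.2.1 p.2.2 := by
  unfold dt
  fun_prop

theorem Continuous.cr {α : Type*} [TopologicalSpace α] {f g : α → E3} (hf : Continuous f)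
    (hg : Continuous g) : Continuous fun x => cr (f x) (g x) :=
  continuous_cr.comp (hf.prodMk hg)

theorem Continuous.dt {α : Type*} [TopologicalSpace α] {f g h : α → E3} (hf : Continuous f)
    (hg : Continuous g) (hh : Continuous h) : Continuous fun x => dt (f x) (g x) (h x) :=
  continuous_dt.comp (hf.prodMk (hg.prodMk hh))

/-! frames -/

noncomputable def fr1 (a _b : E3) : E3 := ‖a‖⁻¹ • a
noncomputable def fr3 (a b : E3) : E3 := ‖cr a b‖⁻¹ • cr a b
noncomputable def fr2 (a b : E3) : E3 := cr (fr3 a b) (fr1 a b)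

theorem ne_zero_of_cr {a b : E3} (h : cr a b ≠ 0) : a ≠ 0 := by
  rintro rfl
  apply h
  apply ext3 <;> simp

theorem norm_fr1 {a b : E3} (h : cr a b ≠ 0) : ‖fr1 a b‖ = 1 := by
  have : ‖a‖ ≠ 0 := norm_ne_zero_iff.2 (ne_zero_of_cr h)
  rw [fr1, norm_smul, norm_inv, norm_norm, inv_mul_cancel₀ this]

theorem norm_fr3 {a b : E3} (h : cr a b ≠ 0) : ‖fr3 a b‖ = 1 := by
  have : ‖cr a b‖ ≠ 0 := norm_ne_zero_iff.2 h
  rw [fr3, norm_smul, norm_inv, norm_norm, inv_mul_cancel₀ this]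

theorem inner_fr13 (a b : E3) : inner ℝ (fr1 a b) (fr3 a b) = 0 := by
  rw [fr1, fr3, inner_smul_left, inner_smul_right, inner_cr_left]; simp

theorem inner_fr31 (a b : E3) : inner ℝ (fr3 a b) (fr1 a b) = 0 := by
  rw [real_inner_comm, inner_fr13]

theorem norm_fr2 {a b : E3} (h : cr a b ≠ 0) : ‖fr2 a b‖ = 1 := by
  have h1 := norm_cr_sq (fr3 a b) (fr1 a b)
  rw [norm_fr1 h, norm_fr3 h, inner_fr31] at h1
  have h2 : ‖fr2 a b‖ ^ 2 = 1 := by rw [fr2, h1]; norm_num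
  have h3 := norm_nonneg (fr2 a b)
  nlinarith

theorem orthonormal_fr {a b : E3} (h : cr a b ≠ 0) :
    Orthonormal ℝ ![fr1 a b, fr2 a b, fr3 a b] := by
  have h12 : inner ℝ (fr1 a b) (fr2 a b) = 0 := inner_cr_right _ _
  have h32 : inner ℝ (fr3 a b) (fr2 a b) = 0 := inner_cr_left _ _
  have h13 := inner_fr13 a b
  constructor
  · intro i
    fin_cases i
    · exact norm_fr1 h
    · exact norm_fr2 h
    · exact norm_fr3 h
  · intro i j hij
    fin_cases i <;> fin_cases j <;> simp_all [real_inner_comm]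

theorem exists_basis {a b : E3} (h : cr a b ≠ 0) :
    ∃ B : OrthonormalBasis (Fin 3) ℝ E3, B 0 = fr1 a b ∧ B 1 = fr2 a b ∧ B 2 = fr3 a b := by
  have h0 := orthonormal_fr h
  have h1 : Orthonormal ℝ ((Set.univ : Set (Fin 3)).domRestrict ![fr1 a b, fr2 a b, fr3 a b]) :=
    h0.comp _ Subtype.val_injective
  obtain ⟨B, hB⟩ := h1.exists_orthonormalBasis_extension_of_card_eq (by simp)
  exact ⟨B, hB 0 (Set.mem_univ _), hB 1 (Set.mem_univ _), hB 2 (Set.mem_univ _)⟩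

theorem expand {a b : E3} (h : cr a b ≠ 0) (u : E3) :
    u = (inner ℝ (fr1 a b) u : ℝ) • fr1 a b + (inner ℝ (fr2 a b) u : ℝ) • fr2 a b
      + (inner ℝ (fr3 a b) u : ℝ) • fr3 a b := by
  obtain ⟨B, h1, h2, h3⟩ := exists_basis h
  conv_lhs => rw [← B.sum_repr' u]
  rw [Fin.sum_univ_three, h1, h2, h3]

theorem parseval {a b : E3} (h : cr a b ≠ 0) (u v : E3) :
    (inner ℝ u v : ℝ) = inner ℝ (fr1 a b) u * inner ℝ (fr1 a b) v
      + inner ℝ (fr2 a b) u * inner ℝ (fr2 a b) v + inner ℝ (fr3 a b) u * inner ℝ (fr3 a b) v := by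
  obtain ⟨B, h1, h2, h3⟩ := exists_basis h
  rw [← B.sum_inner_mul_inner u v, Fin.sum_univ_three, h1, h2, h3, real_inner_comm (fr1 a b) u,
    real_inner_comm (fr2 a b) u, real_inner_comm (fr3 a b) u]

theorem dt_fr {a b : E3} (h : cr a b ≠ 0) : dt (fr1 a b) (fr2 a b) (fr3 a b) = 1 := by
  have key : ∀ e f : E3, dt e (cr f e) f = ‖e‖ ^ 2 * ‖f‖ ^ 2 - inner ℝ e f ^ 2 := by
    intro e f
    rw [norm_sq3, norm_sq3, inner3, dt]; simp; ring
  rw [fr2, key, norm_fr1 h, norm_fr3 h, inner_fr13]; norm_num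

/-- the rotation that maps the frame of `(a, b)` to the frame of `(a0, b0)` -/
noncomputable def rot (a0 b0 a b u : E3) : E3 :=
  (inner ℝ (fr1 a b) u : ℝ) • fr1 a0 b0 + (inner ℝ (fr2 a b) u : ℝ) • fr2 a0 b0
      + (inner ℝ (fr3 a b) u : ℝ) • fr3 a0 b0

theorem rot_sub (a0 b0 a b u v : E3) : rot a0 b0 a b (u - v) = rot a0 b0 a b u - rot a0 b0 a b v := by
  simp only [rot, inner_sub_right]; module

theorem rot_add (a0 b0 a b u v : E3) : rot a0 b0 a b (u + v) = rot a0 b0 a b u + rot a0 b0 a b v := by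
  simp only [rot, inner_add_right]; module

theorem rot_smul (a0 b0 a b : E3) (c : ℝ) (u : E3) :
    rot a0 b0 a b (c • u) = c • rot a0 b0 a b u := by
  simp only [rot, inner_smul_right]; module

theorem rot_zero (a0 b0 a b : E3) : rot a0 b0 a b 0 = 0 := by
  simp [rot]

theorem inner_comb {a0 b0 : E3} (h0 : cr a0 b0 ≠ 0) (x1 x2 x3 y1 y2 y3 : ℝ) :
    (inner ℝ (x1 • fr1 a0 b0 + x2 • fr2 a0 b0 + x3 • fr3 a0 b0)
      (y1 • fr1 a0 b0 + y2 • fr2 a0 b0 + y3 • fr3 a0 b0) : ℝ) = x1 * y1 + x2 * y2 + x3 * y3 := by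
  have h12 : (inner ℝ (fr1 a0 b0) (fr2 a0 b0) : ℝ) = 0 := inner_cr_right _ _
  have h32 : (inner ℝ (fr3 a0 b0) (fr2 a0 b0) : ℝ) = 0 := inner_cr_left _ _
  have h13 := inner_fr13 a0 b0
  have h21 : (inner ℝ (fr2 a0 b0) (fr1 a0 b0) : ℝ) = 0 := by rw [real_inner_comm]; exact h12
  have h23 : (inner ℝ (fr2 a0 b0) (fr3 a0 b0) : ℝ) = 0 := by rw [real_inner_comm]; exact h32
  have h31 := inner_fr31 a0 b0
  have n1 : (inner ℝ (fr1 a0 b0) (fr1 a0 b0) : ℝ) = 1 := by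
    rw [real_inner_self_eq_norm_sq, norm_fr1 h0]; norm_num
  have n2 : (inner ℝ (fr2 a0 b0) (fr2 a0 b0) : ℝ) = 1 := by
    rw [real_inner_self_eq_norm_sq, norm_fr2 h0]; norm_num
  have n3 : (inner ℝ (fr3 a0 b0) (fr3 a0 b0) : ℝ) = 1 := by
    rw [real_inner_self_eq_norm_sq, norm_fr3 h0]; norm_num
  simp only [inner_add_left, inner_add_right, inner_smul_left, inner_smul_right, h12, h32, h13,
    h21, h23, h31, n1, n2, n3, RCLike.conj_to_real]
  ring

theorem inner_rot {a0 b0 a b : E3} (h0 : cr a0 b0 ≠ 0) (h : cr a b ≠ 0) (u v : E3) :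
    (inner ℝ (rot a0 b0 a b u) (rot a0 b0 a b v) : ℝ) = inner ℝ u v := by
  rw [rot, rot, inner_comb h0, ← parseval h]

theorem norm_rot {a0 b0 a b : E3} (h0 : cr a0 b0 ≠ 0) (h : cr a b ≠ 0) (u : E3) :
    ‖rot a0 b0 a b u‖ = ‖u‖ := by
  have h1 := inner_rot h0 h u u
  rw [real_inner_self_eq_norm_sq, real_inner_self_eq_norm_sq] at h1
  exact (sq_eq_sq₀ (norm_nonneg _) (norm_nonneg _)).1 h1

theorem dt_comb (e1 e2 e3 : E3) (x1 x2 x3 y1 y2 y3 z1 z2 z3 : ℝ) :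
    dt (x1 • e1 + x2 • e2 + x3 • e3) (y1 • e1 + y2 • e2 + y3 • e3)
      (z1 • e1 + z2 • e2 + z3 • e3) =
    (x1 * (y2 * z3 - y3 * z2) + x2 * (y3 * z1 - y1 * z3) + x3 * (y1 * z2 - y2 * z1))
      * dt e1 e2 e3 := by
  simp only [dt, PiLp.add_apply, PiLp.smul_apply, smul_eq_mul]
  ring

theorem dt_rot {a0 b0 a b : E3} (h0 : cr a0 b0 ≠ 0) (h : cr a b ≠ 0) (u v w : E3) :
    dt (rot a0 b0 a b u) (rot a0 b0 a b v) (rot a0 b0 a b w) = dt u v w := by
  rw [rot, rot, rot, dt_comb, dt_fr h0]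
  conv_rhs => rw [expand h u, expand h v, expand h w, dt_comb, dt_fr h]

theorem rot_self {a b : E3} (h : cr a b ≠ 0) (u : E3) : rot a b a b u = u :=
  (expand h u).symm

theorem cr_rot {a0 b0 a b : E3} (_h0 : cr a0 b0 ≠ 0) (h : cr a b ≠ 0) :
    cr a0 (rot a0 b0 a b a) = 0 := by
  have ha : ‖a‖ ≠ 0 := norm_ne_zero_iff.2 (ne_zero_of_cr h)
  have h2 : (inner ℝ (fr2 a b) a : ℝ) = 0 := by
    have : a = ‖a‖ • fr1 a b := by rw [fr1, smul_smul, mul_inv_cancel₀ ha, one_smul]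
    rw [this, inner_smul_right]
    have h21 : (inner ℝ (fr2 (‖a‖ • fr1 a b) b) (fr1 a b) : ℝ) = 0 := by
      rw [← this, real_inner_comm]; exact inner_cr_right _ _
    rw [h21, mul_zero]
  have h3 : (inner ℝ (fr3 a b) a : ℝ) = 0 := by
    rw [fr3, inner_smul_left, real_inner_comm, inner_cr_left]; simp
  have h4 : cr a0 (fr1 a0 b0) = 0 := by rw [fr1, cr_smul_2, cr_self, smul_zero]
  rw [rot, h2, h3, zero_smul, zero_smul, add_zero, add_zero, cr_smul_2, h4, smul_zero]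

theorem dt_rot_gauge {a0 b0 a b : E3} (h0 : cr a0 b0 ≠ 0) (_h : cr a b ≠ 0) :
    dt a0 b0 (rot a0 b0 a b b) = 0 := by
  have h3 : (inner ℝ (fr3 a b) b : ℝ) = 0 := by
    rw [fr3, inner_smul_left, real_inner_comm, inner_cr_right]; simp
  have hn : ‖cr a0 b0‖ ≠ 0 := norm_ne_zero_iff.2 h0
  have e : ∀ w : E3, dt a0 b0 w = ‖cr a0 b0‖ * inner ℝ (fr3 a0 b0) w := by
    intro w
    rw [fr3, inner_smul_left, RCLike.conj_to_real, ← mul_assoc, mul_inv_cancel₀ hn, one_mul, inner3]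
    simp [dt]; ring
  rw [e, rot]
  have := inner_comb h0 0 0 1 (inner ℝ (fr1 a b) b) (inner ℝ (fr2 a b) b) (inner ℝ (fr3 a b) b)
  simp only [zero_smul, zero_add, one_smul] at this
  rw [this, h3]; ring

theorem continuousAt_comp_rot {α : Type*} [TopologicalSpace α] (a0 b0 : E3) {f g u : α → E3}
    {x : α} (hf : ContinuousAt f x) (hg : ContinuousAt g x) (hu : ContinuousAt u x)
    (h : cr (f x) (g x) ≠ 0) :
    ContinuousAt (fun y => rot a0 b0 (f y) (g y) (u y)) x := by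
  have h1 : ‖f x‖ ≠ 0 := norm_ne_zero_iff.2 (ne_zero_of_cr h)
  have h2 : ‖cr (f x) (g x)‖ ≠ 0 := norm_ne_zero_iff.2 h
  have hc : ContinuousAt (fun y => cr (f y) (g y)) x :=
    ContinuousAt.comp (f := fun y => (f y, g y)) (g := fun q : E3 × E3 => cr q.1 q.2)
      continuous_cr.continuousAt (hf.prodMk hg)
  have c1 : ContinuousAt (fun y => fr1 (f y) (g y)) x := (hf.norm.inv₀ h1).smul hf
  have c3 : ContinuousAt (fun y => fr3 (f y) (g y)) x := (hc.norm.inv₀ h2).smul hc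
  have c2 : ContinuousAt (fun y => fr2 (f y) (g y)) x :=
    ContinuousAt.comp (f := fun y => (fr3 (f y) (g y), fr1 (f y) (g y)))
      (g := fun q : E3 × E3 => cr q.1 q.2) continuous_cr.continuousAt (c3.prodMk c1)
  have d1 : ContinuousAt (fun y => (inner ℝ (fr1 (f y) (g y)) (u y) : ℝ) • fr1 a0 b0) x :=
    (ContinuousAt.inner (𝕜 := ℝ) c1 hu).smul (continuousAt_const (y := fr1 a0 b0))
  have d2 : ContinuousAt (fun y => (inner ℝ (fr2 (f y) (g y)) (u y) : ℝ) • fr2 a0 b0) x :=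
    (ContinuousAt.inner (𝕜 := ℝ) c2 hu).smul (continuousAt_const (y := fr2 a0 b0))
  have d3 : ContinuousAt (fun y => (inner ℝ (fr3 (f y) (g y)) (u y) : ℝ) • fr3 a0 b0) x :=
    (ContinuousAt.inner (𝕜 := ℝ) c3 hu).smul (continuousAt_const (y := fr3 a0 b0))
  exact (d1.add d2).add d3

end Pool.Agent.H282R2
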